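import Mathlib

set_option autoImplicit false

/-!
# Tightening of list edge colouring instances by four copies
-/

namespace Pool.Agent.H63.Tight

/-- The edge set of a tripartite graph, given by its three bipartite parts `A ⊆ P × Q`,
`B ⊆ P × R`, `C ⊆ Q × R`, decomposes into triangles. -/
def Decomp {P Q R : Type*} (A : Set (P × Q)) (B : Set (P × R)) (C : Set (Q × R)) : Prop :=
  ∃ T : P → Q → R → Prop,
    (∀ p q r, T p q r → (p, q) ∈ A ∧ (p, r) ∈ B ∧ (q, r) ∈ C) ∧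
    (∀ p q, (p, q) ∈ A → ∃! r, T p q r) ∧
    (∀ p r, (p, r) ∈ B → ∃! q, T p q r) ∧
    (∀ q r, (q, r) ∈ C → ∃! p, T p q r)

/-- A list edge colouring instance on a bipartite graph: `E` is the set of edges `(p, q)`,
`VV` the set of vertices, `side` tells the side of a vertex, `L` is the list of colours available
at a vertex, `φ` the number of colours not needed at a vertex. -/
structure Inst (V R : Type*) where
  E : Finset (V × V)
  VV : Finset V
  side : V → Bool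
  L : V → Finset R
  φ : V → ℕ

variable {V R : Type*} [DecidableEq V] [DecidableEq R]

/-- Proper list edge colourings. -/
def Inst.Proper (I : Inst V R) (χ : V × V → R) : Prop :=
  (∀ p q, (p, q) ∈ I.E → χ (p, q) ∈ I.L p ∧ χ (p, q) ∈ I.L q) ∧
  (∀ p q q', (p, q) ∈ I.E → (p, q') ∈ I.E → χ (p, q) = χ (p, q') → q = q') ∧
  (∀ p p' q, (p, q) ∈ I.E → (p', q) ∈ I.E → χ (p, q) = χ (p', q) → p = p')

/-- The number of edges at `v`. -/
def Inst.deg (I : Inst V R) (v : V) : ℕ := (I.E.filter (fun e => e.1 = v ∨ e.2 = v)).card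

/-- Well-formed instances. -/
structure Inst.WF (I : Inst V R) : Prop where
  side1 : ∀ p q, (p, q) ∈ I.E → I.side p = false
  side2 : ∀ p q, (p, q) ∈ I.E → I.side q = true
  mem1 : ∀ p q, (p, q) ∈ I.E → p ∈ I.VV
  mem2 : ∀ p q, (p, q) ∈ I.E → q ∈ I.VV
  le2 : ∀ v ∈ I.VV, I.φ v ≤ 2
  deg : ∀ v ∈ I.VV, (I.L v).card = I.deg v + I.φ v

/-- The two fixed point free involutions of `Fin 4`. -/
def f (i : ℕ) (b : Fin 4) : Fin 4 :=
  if i = 0 then (if b = 0 then 1 else if b = 1 then 0 else if b = 2 then 3 else 2)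
  else (if b = 0 then 3 else if b = 1 then 2 else if b = 2 then 1 else 0)

/-- parity -/
def par (b : Fin 4) : Bool := if b = 0 then false else if b = 1 then true else
  if b = 2 then false else true

lemma f_f (i : ℕ) (b : Fin 4) : f i (f i b) = b := by
  unfold f
  by_cases h : i = 0
  · simp only [h]; revert b; decide
  · simp only [h]; revert b; decide

lemma par_f (i : ℕ) (b : Fin 4) : par (f i b) = !(par b) := by
  unfold f
  by_cases h : i = 0
  · simp only [h]; revert b; decide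
  · simp only [h]; revert b; decide

lemma f_inj {i j : ℕ} {b : Fin 4} (hi : i < 2) (hj : j < 2) (h : f i b = f j b) : i = j := by
  interval_cases i <;> interval_cases j
  · rfl
  · revert h; unfold f; revert b; decide
  · revert h; unfold f; revert b; decide
  · rfl

/-- `(v, b)` lies on the `P` side. -/
def Inst.PSide (I : Inst V R) (w : V × Fin 4) : Prop := I.side w.1 = par w.2

/-- adjacency of the four-fold cover -/
def Inst.Adj (I : Inst V R) (w w' : V × Fin 4) : Prop :=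
  (w.2 = w'.2 ∧ ((w.1, w'.1) ∈ I.E ∨ (w'.1, w.1) ∈ I.E)) ∨
  (w.1 = w'.1 ∧ w.1 ∈ I.VV ∧ ∃ i < I.φ w.1, w'.2 = f i w.2)

/-- The `A`-part of the tight instance. -/
def Inst.A (I : Inst V R) : Set ((V × Fin 4) × (V × Fin 4)) :=
  {x | I.PSide x.1 ∧ I.Adj x.1 x.2}

/-- The `B`-part of the tight instance. -/
def Inst.B (I : Inst V R) : Set ((V × Fin 4) × R) :=
  {x | x.1.1 ∈ I.VV ∧ I.PSide x.1 ∧ x.2 ∈ I.L x.1.1}

/-- The `C`-part of the tight instance. -/
def Inst.C (I : Inst V R) : Set ((V × Fin 4) × R) :=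
  {x | x.1.1 ∈ I.VV ∧ ¬ I.PSide x.1 ∧ x.2 ∈ I.L x.1.1}

omit [DecidableEq R] in
lemma Inst.Adj.pside {I : Inst V R} (hI : I.WF) {w w' : V × Fin 4} (h : I.Adj w w') :
    I.PSide w ↔ ¬ I.PSide w' := by
  unfold Inst.PSide
  rcases h with ⟨hb, he | he⟩ | ⟨hv, _, i, _, hi⟩
  · rw [hI.side1 _ _ he, hI.side2 _ _ he, hb]
    cases par w'.2 <;> simp
  · rw [hI.side1 _ _ he, hI.side2 _ _ he, hb]
    cases par w'.2 <;> simp
  · rw [hi, par_f, hv]
    cases par w.2 <;> cases I.side w'.1 <;> simp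

omit [DecidableEq R] in
/-- Soundness: from a decomposition of the tight instance we get a proper colouring. -/
theorem Inst.sound [Inhabited R] (I : Inst V R) (hI : I.WF) (h : Decomp I.A I.B I.C) :
    ∃ χ, I.Proper χ := by
  obtain ⟨T, hT, hA, hB, hC⟩ := h
  have hex : ∀ e : V × V, ∃ r : R, e ∈ I.E → T (e.1, 0) (e.2, 0) r := by
    intro e
    by_cases he : e ∈ I.E
    · have : ((e.1, (0 : Fin 4)), (e.2, (0 : Fin 4))) ∈ I.A := by
        refine ⟨?_, Or.inl ⟨rfl, Or.inl he⟩⟩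
        show I.side e.1 = par 0
        rw [hI.side1 e.1 e.2 he]
        rfl
      obtain ⟨r, hr, _⟩ := hA _ _ this
      exact ⟨r, fun _ => hr⟩
    · exact ⟨default, fun h => absurd h he⟩
  choose χ hχ using hex
  refine ⟨χ, ?_, ?_, ?_⟩
  · intro p q he
    obtain ⟨h1, h2, h3⟩ := hT _ _ _ (hχ (p, q) he)
    exact ⟨h2.2.2, h3.2.2⟩
  · intro p q q' he he' heq
    have t1 := hχ (p, q) he
    have t2 := hχ (p, q') he'
    rw [heq] at t1
    obtain ⟨_, h2, _⟩ := hT _ _ _ t1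
    have := (hB _ _ h2).unique t1 t2
    exact congrArg Prod.fst this
  · intro p p' q he he' heq
    have t1 := hχ (p, q) he
    have t2 := hχ (p', q) he'
    rw [heq] at t1
    obtain ⟨_, _, h3⟩ := hT _ _ _ t1
    have := (hC _ _ h3).unique t1 t2
    exact congrArg Prod.fst this

/-- The colours used at `v`. -/
def Inst.used (I : Inst V R) (χ : V × V → R) (v : V) : Finset R :=
  (I.E.filter (fun e => e.1 = v ∨ e.2 = v)).image χ

lemma Inst.mem_used {I : Inst V R} {χ : V × V → R} {v : V} {r : R} :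
    r ∈ I.used χ v ↔ (∃ q, (v, q) ∈ I.E ∧ χ (v, q) = r) ∨ (∃ p, (p, v) ∈ I.E ∧ χ (p, v) = r) := by
  unfold Inst.used
  simp only [Finset.mem_image, Finset.mem_filter]
  constructor
  · rintro ⟨⟨p, q⟩, ⟨he, h | h⟩, hr⟩
    · simp only at h; subst h; exact Or.inl ⟨q, he, hr⟩
    · simp only at h; subst h; exact Or.inr ⟨p, he, hr⟩
  · rintro (⟨q, he, hr⟩ | ⟨p, he, hr⟩)
    · exact ⟨(v, q), ⟨he, Or.inl rfl⟩, hr⟩
    · exact ⟨(p, v), ⟨he, Or.inr rfl⟩, hr⟩

lemma Inst.card_used (I : Inst V R) (hI : I.WF) (χ : V × V → R) (hχ : I.Proper χ) (v : V) :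
    (I.used χ v).card = I.deg v := by
  unfold Inst.used Inst.deg
  apply Finset.card_image_of_injOn
  rintro ⟨p, q⟩ he ⟨p', q'⟩ he' heq
  simp only [Finset.coe_filter, Set.mem_ofPred_eq] at he he'
  obtain ⟨he, h⟩ := he
  obtain ⟨he', h'⟩ := he'
  have hs : ∀ a b : V, (a, v) ∈ I.E → (v, b) ∈ I.E → False := by
    intro a b h1 h2
    have := hI.side1 _ _ h2
    rw [hI.side2 _ _ h1] at this
    exact Bool.noConfusion this
  rcases h with h | h <;> rcases h' with h' | h' <;> subst h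
  · subst h'
    rw [hχ.2.1 _ _ _ he he' heq]
  · subst h'
    exact (hs _ _ he' he).elim
  · subst h'
    exact (hs _ _ he he').elim
  · subst h'
    rw [hχ.2.2 _ _ _ he he' heq]

lemma Inst.used_subset (I : Inst V R) (χ : V × V → R) (hχ : I.Proper χ) (v : V) :
    I.used χ v ⊆ I.L v := by
  intro r hr
  rcases I.mem_used.mp hr with ⟨q, he, rfl⟩ | ⟨p, he, rfl⟩
  · exact (hχ.1 _ _ he).1
  · exact (hχ.1 _ _ he).2

/-- Completeness: a proper colouring gives a decomposition of the tight instance. -/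
theorem Inst.complete (I : Inst V R) (hI : I.WF) (χ : V × V → R) (hχ : I.Proper χ) :
    Decomp I.A I.B I.C := by
  -- enumerate the unused colours
  have hex : ∀ v : V, ∃ g : R → ℕ, v ∈ I.VV →
      (∀ r ∈ I.L v \ I.used χ v, g r < I.φ v) ∧
      (∀ i < I.φ v, ∃! r, r ∈ I.L v \ I.used χ v ∧ g r = i) := by
    intro v
    by_cases hv : v ∈ I.VV
    · have hcard : (I.L v \ I.used χ v).card = I.φ v := by
        rw [Finset.card_sdiff_of_subset (I.used_subset χ hχ v), I.card_used hI χ hχ v, hI.deg v hv]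
        omega
      let e := (I.L v \ I.used χ v).equivFinOfCardEq hcard
      refine ⟨fun r => if h : r ∈ I.L v \ I.used χ v then (e ⟨r, h⟩ : ℕ) else 0, fun _ => ⟨?_, ?_⟩⟩
      · intro r hr
        simp only [hr, dite_true]
        exact (e ⟨r, hr⟩).isLt
      · intro i hi
        refine ⟨(e.symm ⟨i, hi⟩ : R), ⟨(e.symm ⟨i, hi⟩).2, ?_⟩, ?_⟩
        · simp only [(e.symm ⟨i, hi⟩).2, dite_true, Subtype.coe_eta, Equiv.apply_symm_apply]
        · rintro r ⟨hr, hri⟩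
          simp only [hr, dite_true] at hri
          have : e ⟨r, hr⟩ = ⟨i, hi⟩ := Fin.ext hri
          rw [← this, Equiv.symm_apply_apply]
    · exact ⟨fun _ => 0, fun h => absurd h hv⟩
  choose g hg using hex
  -- the symmetric relation
  let S : V × Fin 4 → V × Fin 4 → R → Prop := fun w w' r =>
    (w.2 = w'.2 ∧ (((w.1, w'.1) ∈ I.E ∧ χ (w.1, w'.1) = r) ∨
      ((w'.1, w.1) ∈ I.E ∧ χ (w'.1, w.1) = r))) ∨
    (w.1 = w'.1 ∧ w.1 ∈ I.VV ∧ r ∈ I.L w.1 \ I.used χ w.1 ∧ w'.2 = f (g w.1 r) w.2)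
  have hself : ∀ v, (v, v) ∉ I.E := by
    intro v hv
    have := hI.side1 _ _ hv
    rw [hI.side2 _ _ hv] at this
    exact Bool.noConfusion this
  have hsymm : ∀ w w' r, S w w' r → S w' w r := by
    rintro w w' r (⟨hb, he | he⟩ | ⟨hv, hV, hr, hb⟩)
    · exact Or.inl ⟨hb.symm, Or.inr he⟩
    · exact Or.inl ⟨hb.symm, Or.inl he⟩
    · refine Or.inr ⟨hv.symm, hv ▸ hV, hv ▸ hr, ?_⟩
      rw [hb, hv, f_f]
  have hSadj : ∀ w w' r, S w w' r → I.Adj w w' := by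
    rintro w w' r (⟨hb, he | he⟩ | ⟨hv, hV, hr, hb⟩)
    · exact Or.inl ⟨hb, Or.inl he.1⟩
    · exact Or.inl ⟨hb, Or.inr he.1⟩
    · exact Or.inr ⟨hv, hV, g w.1 r, (hg w.1 hV).1 r hr, hb⟩
  have hSV : ∀ w w' r, S w w' r → w.1 ∈ I.VV ∧ r ∈ I.L w.1 := by
    rintro w w' r (⟨hb, ⟨he, rfl⟩ | ⟨he, rfl⟩⟩ | ⟨hv, hV, hr, hb⟩)
    · exact ⟨hI.mem1 _ _ he, (hχ.1 _ _ he).1⟩
    · exact ⟨hI.mem2 _ _ he, (hχ.1 _ _ he).2⟩
    · exact ⟨hV, (Finset.mem_sdiff.mp hr).1⟩
  -- each vertex sees each of its colours exactly once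
  have huniq : ∀ w r, w.1 ∈ I.VV → r ∈ I.L w.1 → ∃! w', S w w' r := by
    rintro ⟨v, b⟩ r hV hr
    simp only at hV hr
    by_cases hu : r ∈ I.used χ v
    · rcases I.mem_used.mp hu with ⟨q, he, hc⟩ | ⟨p, he, hc⟩
      · refine ⟨(q, b), Or.inl ⟨rfl, Or.inl ⟨he, hc⟩⟩, ?_⟩
        rintro ⟨v', b'⟩ (⟨hb, ⟨he', hc'⟩ | ⟨he', hc'⟩⟩ | ⟨_, _, hr', _⟩)
        · simp only at hb he' hc'
          rw [hχ.2.1 _ _ _ he he' (hc.trans hc'.symm), hb]
        · simp only at he'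
          have := hI.side1 _ _ he
          rw [hI.side2 _ _ he'] at this
          exact Bool.noConfusion this
        · exact absurd hu (Finset.mem_sdiff.mp hr').2
      · refine ⟨(p, b), Or.inl ⟨rfl, Or.inr ⟨he, hc⟩⟩, ?_⟩
        rintro ⟨v', b'⟩ (⟨hb, ⟨he', hc'⟩ | ⟨he', hc'⟩⟩ | ⟨_, _, hr', _⟩)
        · simp only at he'
          have := hI.side1 _ _ he'
          rw [hI.side2 _ _ he] at this
          exact Bool.noConfusion this
        · simp only at hb he' hc'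
          rw [hχ.2.2 _ _ _ he he' (hc.trans hc'.symm), hb]
        · exact absurd hu (Finset.mem_sdiff.mp hr').2
    · have hr' : r ∈ I.L v \ I.used χ v := Finset.mem_sdiff.mpr ⟨hr, hu⟩
      refine ⟨(v, f (g v r) b), Or.inr ⟨rfl, hV, hr', rfl⟩, ?_⟩
      rintro ⟨v', b'⟩ (⟨hb, ⟨he', hc'⟩ | ⟨he', hc'⟩⟩ | ⟨hv, _, _, hb⟩)
      · exact absurd (I.mem_used.mpr (Or.inl ⟨_, he', hc'⟩)) hu
      · exact absurd (I.mem_used.mpr (Or.inr ⟨_, he', hc'⟩)) hu
      · simp only at hv hb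
        rw [hb, hv]
  refine ⟨fun w w' r => I.PSide w ∧ S w w' r, ?_, ?_, ?_, ?_⟩
  · rintro w w' r ⟨hp, hS⟩
    have hadj := hSadj _ _ _ hS
    obtain ⟨h1, h2⟩ := hSV _ _ _ hS
    obtain ⟨h3, h4⟩ := hSV _ _ _ (hsymm _ _ _ hS)
    exact ⟨⟨hp, hadj⟩, ⟨h1, hp, h2⟩, ⟨h3, (hadj.pside hI).mp hp, h4⟩⟩
  · rintro w w' ⟨hp, hadj⟩
    simp only at hp hadj
    rcases hadj with ⟨hb, he | he⟩ | ⟨hv, hV, i, hi, hb⟩
    · refine ⟨χ (w.1, w'.1), ⟨hp, Or.inl ⟨hb, Or.inl ⟨he, rfl⟩⟩⟩, ?_⟩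
      rintro r ⟨_, ⟨_, ⟨_, hc⟩ | ⟨he', _⟩⟩ | ⟨hv, _⟩⟩
      · exact hc.symm
      · have := hI.side1 _ _ he
        rw [hI.side2 _ _ he'] at this
        exact Bool.noConfusion this
      · rw [hv] at he
        exact absurd he (hself _)
    · refine ⟨χ (w'.1, w.1), ⟨hp, Or.inl ⟨hb, Or.inr ⟨he, rfl⟩⟩⟩, ?_⟩
      rintro r ⟨_, ⟨_, ⟨he', _⟩ | ⟨_, hc⟩⟩ | ⟨hv, _⟩⟩
      · have := hI.side1 _ _ he'
        rw [hI.side2 _ _ he] at this
        exact Bool.noConfusion this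
      · exact hc.symm
      · rw [hv] at he
        exact absurd he (hself _)
    · obtain ⟨r, ⟨hr, hgr⟩, hru⟩ := (hg w.1 hV).2 i hi
      refine ⟨r, ⟨hp, Or.inr ⟨hv, hV, hr, by rw [hgr, hb]⟩⟩, ?_⟩
      rintro r' ⟨_, ⟨_, ⟨he', _⟩ | ⟨he', _⟩⟩ | ⟨_, _, hr', hb'⟩⟩
      · rw [hv] at he'
        exact absurd he' (hself _)
      · rw [hv] at he'
        exact absurd he' (hself _)
      · apply hru
        refine ⟨hr', ?_⟩
        have hlt := (hg w.1 hV).1 r' hr'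
        have h2 := hI.le2 _ hV
        exact f_inj (by omega) (by omega) (hb'.symm.trans hb)
  · rintro w r ⟨hV, hp, hr⟩
    obtain ⟨w', hw', hu⟩ := huniq w r hV hr
    exact ⟨w', ⟨hp, hw'⟩, fun w'' h => hu w'' h.2⟩
  · rintro w r ⟨hV, hp, hr⟩
    obtain ⟨w', hw', hu⟩ := huniq w r hV hr
    refine ⟨w', ⟨?_, hsymm _ _ _ hw'⟩, fun w'' h => hu w'' (hsymm _ _ _ h.2)⟩
    by_contra hcon
    exact hp (((hSadj _ _ _ hw').pside hI).mpr hcon)

end Pool.Agent.H63.Tight
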