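import Mathlib

set_option autoImplicit false

/-!
# Geometric part of the reduction to Euclidean Max-3DM

Three clusters of lattice points near the vertices of a big `3-4-5` triangle.
-/

namespace Pool.Agent.H63.TriGeom

/-- Second order estimate of `√((D₀ + δ)² + t²)`. -/
lemma sqrt_upper {M L D₀ δ t : ℝ} (hL : 0 < L) (hM : L ≤ M) (hD : 3 * M ≤ D₀) (hδ : |δ| ≤ L)
    (ht : |t| ≤ L) :
    Real.sqrt ((D₀ + δ) ^ 2 + t ^ 2) ≤ D₀ + δ + t ^ 2 / (2 * D₀) + L ^ 3 / (10 * M ^ 2) := by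
  have hMpos : 0 < M := lt_of_lt_of_le hL hM
  have hδ' := abs_le.mp hδ
  have hDpos : 2 * M ≤ D₀ + δ := by linarith
  have hD0 : 0 < D₀ := by linarith
  have hDp : 0 < D₀ + δ := by linarith
  have ht2 : t ^ 2 ≤ L ^ 2 := sq_le_sq' (by linarith [(abs_le.mp ht).1]) (abs_le.mp ht).2
  have h1 : Real.sqrt ((D₀ + δ) ^ 2 + t ^ 2) ≤ D₀ + δ + t ^ 2 / (2 * (D₀ + δ)) := by
    apply Real.sqrt_le_iff.mpr
    constructor
    · positivity
    · have : (D₀ + δ + t ^ 2 / (2 * (D₀ + δ))) ^ 2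
          = (D₀ + δ) ^ 2 + t ^ 2 + (t ^ 2 / (2 * (D₀ + δ))) ^ 2 := by
        field_simp
        ring
      rw [this]
      have : 0 ≤ (t ^ 2 / (2 * (D₀ + δ))) ^ 2 := by positivity
      linarith
  have h2 : t ^ 2 / (2 * (D₀ + δ)) - t ^ 2 / (2 * D₀) ≤ L ^ 3 / (10 * M ^ 2) := by
    have e : t ^ 2 / (2 * (D₀ + δ)) - t ^ 2 / (2 * D₀) = t ^ 2 * (-δ) / (2 * D₀ * (D₀ + δ)) := by
      field_simp
      ring
    rw [e]
    have hnum : t ^ 2 * (-δ) ≤ L ^ 3 := by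
      calc t ^ 2 * (-δ) ≤ t ^ 2 * L := by
            apply mul_le_mul_of_nonneg_left (by linarith) (by positivity)
        _ ≤ L ^ 2 * L := by
            apply mul_le_mul_of_nonneg_right ht2 hL.le
        _ = L ^ 3 := by ring
    have hden : 10 * M ^ 2 ≤ 2 * D₀ * (D₀ + δ) := by
      have : (2 * (3 * M)) * (2 * M) ≤ 2 * D₀ * (D₀ + δ) := by
        apply mul_le_mul _ hDpos (by positivity) (by positivity)
        linarith
      nlinarith
    exact div_le_div₀ (by positivity) hnum (by positivity) hden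
  linarith

lemma sqrt_lower {M L D₀ δ t : ℝ} (hL : 0 < L) (hM : L ≤ M) (hD : 3 * M ≤ D₀) (hδ : |δ| ≤ L)
    (ht : |t| ≤ L) :
    D₀ + δ + t ^ 2 / (2 * D₀) - L ^ 3 / (10 * M ^ 2) ≤ Real.sqrt ((D₀ + δ) ^ 2 + t ^ 2) := by
  have hMpos : 0 < M := lt_of_lt_of_le hL hM
  have hδ' := abs_le.mp hδ
  have hDpos : 2 * M ≤ D₀ + δ := by linarith
  have hD0 : 0 < D₀ := by linarith
  have hDp : 0 < D₀ + δ := by linarith
  have ht2 : t ^ 2 ≤ L ^ 2 := sq_le_sq' (by linarith [(abs_le.mp ht).1]) (abs_le.mp ht).2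
  set D := D₀ + δ with hDdef
  have h1 : D + t ^ 2 / (2 * D) - t ^ 4 / (8 * D ^ 3) ≤ Real.sqrt (D ^ 2 + t ^ 2) := by
    apply Real.le_sqrt_of_sq_le
    have e : (D + t ^ 2 / (2 * D) - t ^ 4 / (8 * D ^ 3)) ^ 2
        = D ^ 2 + t ^ 2 - t ^ 6 / (64 * D ^ 6) * (8 * D ^ 2 - t ^ 2) := by
      field_simp
      ring
    rw [e]
    have : 0 ≤ t ^ 6 / (64 * D ^ 6) * (8 * D ^ 2 - t ^ 2) := by
      apply mul_nonneg
      · have : 0 ≤ t ^ 6 := by positivity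
        positivity
      · nlinarith
    linarith
  have h2 : t ^ 2 / (2 * D₀) - t ^ 2 / (2 * D) ≤ L ^ 3 / (12 * M ^ 2) := by
    have hδe : δ = D - D₀ := by rw [hDdef]; ring
    have e : t ^ 2 / (2 * D₀) - t ^ 2 / (2 * D) = t ^ 2 * δ / (2 * D₀ * D) := by
      rw [hδe]
      field_simp
    rw [e]
    have hnum : t ^ 2 * δ ≤ L ^ 3 := by
      calc t ^ 2 * δ ≤ t ^ 2 * L := by
            apply mul_le_mul_of_nonneg_left (by linarith) (by positivity)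
        _ ≤ L ^ 2 * L := by
            apply mul_le_mul_of_nonneg_right ht2 hL.le
        _ = L ^ 3 := by ring
    have hden : 12 * M ^ 2 ≤ 2 * D₀ * D := by
      have : (2 * (3 * M)) * (2 * M) ≤ 2 * D₀ * D := by
        apply mul_le_mul _ hDpos (by positivity) (by positivity)
        linarith
      nlinarith
    exact div_le_div₀ (by positivity) hnum (by positivity) hden
  have h3 : t ^ 4 / (8 * D ^ 3) ≤ L ^ 3 / (64 * M ^ 2) := by
    have hnum : t ^ 4 ≤ L ^ 4 := by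
      calc t ^ 4 = t ^ 2 * t ^ 2 := by ring
        _ ≤ L ^ 2 * L ^ 2 := by
            apply mul_le_mul ht2 ht2 (by positivity) (by positivity)
        _ = L ^ 4 := by ring
    have hden : 64 * M ^ 3 ≤ 8 * D ^ 3 := by
      have : (2 * M) ^ 3 ≤ D ^ 3 := pow_le_pow_left₀ (by positivity) hDpos 3
      nlinarith
    calc t ^ 4 / (8 * D ^ 3) ≤ L ^ 4 / (64 * M ^ 3) :=
          div_le_div₀ (by positivity) hnum (by positivity) hden
      _ ≤ L ^ 3 / (64 * M ^ 2) := by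
          rw [div_le_div_iff₀ (by positivity) (by positivity)]
          have : L ^ 4 * (64 * M ^ 2) = (L ^ 3 * 64 * M ^ 2) * L := by ring
          rw [this]
          have : L ^ 3 * (64 * M ^ 3) = (L ^ 3 * 64 * M ^ 2) * M := by ring
          rw [this]
          apply mul_le_mul_of_nonneg_left hM (by positivity)
  have h4 : L ^ 3 / (12 * M ^ 2) + L ^ 3 / (64 * M ^ 2) ≤ L ^ 3 / (10 * M ^ 2) := by
    have e : L ^ 3 / (10 * M ^ 2) - (L ^ 3 / (12 * M ^ 2) + L ^ 3 / (64 * M ^ 2))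
        = L ^ 3 / M ^ 2 * (1 / 10 - 1 / 12 - 1 / 64) := by
      field_simp
      ring
    have : 0 ≤ L ^ 3 / M ^ 2 * (1 / 10 - 1 / 12 - 1 / 64) := by
      apply mul_nonneg (by positivity) (by norm_num)
    linarith
  linarith

/-- The elements: an edge `pq` (kind `A`), `pr` (kind `B`) or `qr` (kind `C`) of a tripartite
graph whose three classes are indexed by natural numbers. -/
inductive El : Type
  | A (p q : ℕ) : El
  | B (p r : ℕ) : El
  | C (q r : ℕ) : El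
  deriving DecidableEq

/-- first coordinate -/
def cx (M : ℝ) : El → ℝ
  | .A _ q => 12 * q
  | .B p r => 4 * M + 16 * p + 20 * r
  | .C q _ => -12 * q

/-- second coordinate -/
def cy (M : ℝ) : El → ℝ
  | .A p _ => 12 * p
  | .B p _ => -12 * p
  | .C q r => 3 * M + 9 * q - 15 * r

/-- potential -/
noncomputable def ψ (M : ℝ) : El → ℝ
  | .A p q => 4 * M - 12 * p - 12 * q + (36 * p ^ 2 + 48 * q ^ 2) / M
  | .B p r => 4 * M + 36 * p + 36 * r + (36 * p ^ 2 + 144 / 5 * r ^ 2) / M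
  | .C q r => 4 * M + 24 * q - 24 * r + (48 * q ^ 2 + 144 / 5 * r ^ 2) / M

/-- planar distance of two elements -/
noncomputable def dd (M : ℝ) (e e' : El) : ℝ :=
  Real.sqrt ((cx M e - cx M e') ^ 2 + (cy M e - cy M e') ^ 2)

lemma dd_comm (M : ℝ) (e e' : El) : dd M e e' = dd M e' e := by
  unfold dd
  congr 1
  ring

/-- labels bounded by `W` -/
def Bd (W : ℝ) : El → Prop
  | .A p q => (p : ℝ) ≤ W ∧ (q : ℝ) ≤ W
  | .B p r => (p : ℝ) ≤ W ∧ (r : ℝ) ≤ W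
  | .C q r => (q : ℝ) ≤ W ∧ (r : ℝ) ≤ W

lemma dd_AB_eq (M : ℝ) (p q p' r : ℕ) :
    dd M (.A p q) (.B p' r)
      = Real.sqrt ((4 * M + (16 * p' + 20 * r - 12 * q)) ^ 2 + (12 * (p + p') : ℝ) ^ 2) := by
  unfold dd cx cy
  congr 1
  ring

lemma dd_AC_eq (M : ℝ) (p q q' r : ℕ) :
    dd M (.A p q) (.C q' r)
      = Real.sqrt ((3 * M + (9 * q' - 15 * r - 12 * p)) ^ 2 + (12 * (q + q') : ℝ) ^ 2) := by
  unfold dd cx cy
  congr 1
  ring

lemma dd_BC_eq (M : ℝ) (p q r r' : ℕ) :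
    dd M (.B p r) (.C q r')
      = Real.sqrt ((5 * M + (20 * p + 15 * q + 16 * r - 9 * r')) ^ 2
          + (12 * (r + r') : ℝ) ^ 2) := by
  unfold dd cx cy
  congr 1
  ring

section bounds

variable {M W : ℝ} (hW : 1 ≤ W) (hM : 51 * W ≤ M)

include hW hM

lemma tri_upper {p₁ q₁ p₂ r₂ q₃ r₃ : ℕ} (hA : Bd W (.A p₁ q₁)) (hB : Bd W (.B p₂ r₂))
    (hC : Bd W (.C q₃ r₃)) :
    dd M (.A p₁ q₁) (.B p₂ r₂) + dd M (.A p₁ q₁) (.C q₃ r₃) + dd M (.B p₂ r₂) (.C q₃ r₃)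
      ≤ ψ M (.A p₁ q₁) + ψ M (.B p₂ r₂) + ψ M (.C q₃ r₃)
        - (18 * ((p₁ : ℝ) - p₂) ^ 2 + 24 * ((q₁ : ℝ) - q₃) ^ 2 + 72 / 5 * ((r₂ : ℝ) - r₃) ^ 2) / M
        + 3 * ((51 * W) ^ 3 / (10 * M ^ 2)) := by
  have hMpos : 0 < M := by linarith
  obtain ⟨h1, h2⟩ := hA
  obtain ⟨h3, h4⟩ := hB
  obtain ⟨h5, h6⟩ := hC
  have n1 : (0 : ℝ) ≤ p₁ := Nat.cast_nonneg _
  have n2 : (0 : ℝ) ≤ q₁ := Nat.cast_nonneg _
  have n3 : (0 : ℝ) ≤ p₂ := Nat.cast_nonneg _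
  have n4 : (0 : ℝ) ≤ r₂ := Nat.cast_nonneg _
  have n5 : (0 : ℝ) ≤ q₃ := Nat.cast_nonneg _
  have n6 : (0 : ℝ) ≤ r₃ := Nat.cast_nonneg _
  rw [dd_AB_eq, dd_AC_eq, dd_BC_eq]
  have u1 := sqrt_upper (M := M) (L := 51 * W) (D₀ := 4 * M)
    (δ := 16 * p₂ + 20 * r₂ - 12 * q₁) (t := 12 * (p₁ + p₂)) (by linarith) hM (by linarith)
    (abs_le.mpr ⟨by linarith, by linarith⟩) (abs_le.mpr ⟨by linarith, by linarith⟩)
  have u2 := sqrt_upper (M := M) (L := 51 * W) (D₀ := 3 * M)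
    (δ := 9 * q₃ - 15 * r₃ - 12 * p₁) (t := 12 * (q₁ + q₃)) (by linarith) hM (by linarith)
    (abs_le.mpr ⟨by linarith, by linarith⟩) (abs_le.mpr ⟨by linarith, by linarith⟩)
  have u3 := sqrt_upper (M := M) (L := 51 * W) (D₀ := 5 * M)
    (δ := 20 * p₂ + 15 * q₃ + 16 * r₂ - 9 * r₃) (t := 12 * (r₂ + r₃)) (by linarith) hM
    (by linarith)
    (abs_le.mpr ⟨by linarith, by linarith⟩) (abs_le.mpr ⟨by linarith, by linarith⟩)
  have key : (12 * (p₁ + p₂) : ℝ) ^ 2 / (2 * (4 * M)) + (12 * (q₁ + q₃) : ℝ) ^ 2 / (2 * (3 * M))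
      + (12 * (r₂ + r₃) : ℝ) ^ 2 / (2 * (5 * M))
      = (36 * (p₁ : ℝ) ^ 2 + 48 * (q₁ : ℝ) ^ 2) / M
        + (36 * (p₂ : ℝ) ^ 2 + 144 / 5 * (r₂ : ℝ) ^ 2) / M
        + (48 * (q₃ : ℝ) ^ 2 + 144 / 5 * (r₃ : ℝ) ^ 2) / M
        - (18 * ((p₁ : ℝ) - p₂) ^ 2 + 24 * ((q₁ : ℝ) - q₃) ^ 2
            + 72 / 5 * ((r₂ : ℝ) - r₃) ^ 2) / M := by
    field_simp
    ring
  simp only [ψ]
  linarith

lemma tri_lower {p q r : ℕ} (hA : Bd W (.A p q)) (hB : Bd W (.B p r)) :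
    ψ M (.A p q) + ψ M (.B p r) + ψ M (.C q r) - 3 * ((51 * W) ^ 3 / (10 * M ^ 2))
      ≤ dd M (.A p q) (.B p r) + dd M (.A p q) (.C q r) + dd M (.B p r) (.C q r) := by
  have hMpos : 0 < M := by linarith
  obtain ⟨h1, h2⟩ := hA
  obtain ⟨h3, h4⟩ := hB
  have n1 : (0 : ℝ) ≤ p := Nat.cast_nonneg _
  have n2 : (0 : ℝ) ≤ q := Nat.cast_nonneg _
  have n4 : (0 : ℝ) ≤ r := Nat.cast_nonneg _
  rw [dd_AB_eq, dd_AC_eq, dd_BC_eq]
  have u1 := sqrt_lower (M := M) (L := 51 * W) (D₀ := 4 * M)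
    (δ := 16 * p + 20 * r - 12 * q) (t := 12 * (p + p)) (by linarith) hM (by linarith)
    (abs_le.mpr ⟨by linarith, by linarith⟩) (abs_le.mpr ⟨by linarith, by linarith⟩)
  have u2 := sqrt_lower (M := M) (L := 51 * W) (D₀ := 3 * M)
    (δ := 9 * q - 15 * r - 12 * p) (t := 12 * (q + q)) (by linarith) hM (by linarith)
    (abs_le.mpr ⟨by linarith, by linarith⟩) (abs_le.mpr ⟨by linarith, by linarith⟩)
  have u3 := sqrt_lower (M := M) (L := 51 * W) (D₀ := 5 * M)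
    (δ := 20 * p + 15 * q + 16 * r - 9 * r) (t := 12 * (r + r)) (by linarith) hM
    (by linarith)
    (abs_le.mpr ⟨by linarith, by linarith⟩) (abs_le.mpr ⟨by linarith, by linarith⟩)
  have key : (12 * (p + p) : ℝ) ^ 2 / (2 * (4 * M)) + (12 * (q + q) : ℝ) ^ 2 / (2 * (3 * M))
      + (12 * (r + r) : ℝ) ^ 2 / (2 * (5 * M))
      = (36 * (p : ℝ) ^ 2 + 48 * (q : ℝ) ^ 2) / M
        + (36 * (p : ℝ) ^ 2 + 144 / 5 * (r : ℝ) ^ 2) / M
        + (48 * (q : ℝ) ^ 2 + 144 / 5 * (r : ℝ) ^ 2) / M := by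
    field_simp
    ring
  simp only [ψ]
  linarith

end bounds

lemma sqrt_le_abs_add_abs (a b : ℝ) : Real.sqrt (a ^ 2 + b ^ 2) ≤ |a| + |b| := by
  apply Real.sqrt_le_iff.mpr
  constructor
  · positivity
  · have h := abs_nonneg a
    have h' := abs_nonneg b
    nlinarith [sq_abs a, sq_abs b]

/-- cluster distance factor -/
def cd : El → El → ℝ
  | .A _ _, .A _ _ => 0
  | .A _ _, .B _ _ => 4
  | .A _ _, .C _ _ => 3
  | .B _ _, .A _ _ => 4
  | .B _ _, .B _ _ => 0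
  | .B _ _, .C _ _ => 5
  | .C _ _, .A _ _ => 3
  | .C _ _, .B _ _ => 5
  | .C _ _, .C _ _ => 0

lemma dd_le_AB {M W : ℝ} (hM : 51 * W ≤ M) (hW : 1 ≤ W) {p q p' r : ℕ} (hA : Bd W (.A p q))
    (hB : Bd W (.B p' r)) : dd M (.A p q) (.B p' r) ≤ 4 * M + 75 * W := by
  obtain ⟨h1, h2⟩ := hA
  obtain ⟨h3, h4⟩ := hB
  have n1 : (0 : ℝ) ≤ p := Nat.cast_nonneg _
  have n2 : (0 : ℝ) ≤ q := Nat.cast_nonneg _
  have n3 : (0 : ℝ) ≤ p' := Nat.cast_nonneg _
  have n4 : (0 : ℝ) ≤ r := Nat.cast_nonneg _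
  rw [dd_AB_eq]
  refine (sqrt_le_abs_add_abs _ _).trans ?_
  rw [abs_of_nonneg (by linarith), abs_of_nonneg (by positivity)]
  linarith

lemma dd_le_AC {M W : ℝ} (hM : 51 * W ≤ M) (hW : 1 ≤ W) {p q q' r : ℕ} (hA : Bd W (.A p q))
    (hB : Bd W (.C q' r)) : dd M (.A p q) (.C q' r) ≤ 3 * M + 75 * W := by
  obtain ⟨h1, h2⟩ := hA
  obtain ⟨h3, h4⟩ := hB
  have n1 : (0 : ℝ) ≤ p := Nat.cast_nonneg _
  have n2 : (0 : ℝ) ≤ q := Nat.cast_nonneg _
  have n3 : (0 : ℝ) ≤ q' := Nat.cast_nonneg _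
  have n4 : (0 : ℝ) ≤ r := Nat.cast_nonneg _
  rw [dd_AC_eq]
  refine (sqrt_le_abs_add_abs _ _).trans ?_
  rw [abs_of_nonneg (by linarith), abs_of_nonneg (by positivity)]
  linarith

lemma dd_le_BC {M W : ℝ} (hM : 51 * W ≤ M) (hW : 1 ≤ W) {p q r r' : ℕ} (hA : Bd W (.B p r))
    (hB : Bd W (.C q r')) : dd M (.B p r) (.C q r') ≤ 5 * M + 75 * W := by
  obtain ⟨h1, h2⟩ := hA
  obtain ⟨h3, h4⟩ := hB
  have n1 : (0 : ℝ) ≤ p := Nat.cast_nonneg _
  have n2 : (0 : ℝ) ≤ q := Nat.cast_nonneg _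
  have n3 : (0 : ℝ) ≤ r := Nat.cast_nonneg _
  have n4 : (0 : ℝ) ≤ r' := Nat.cast_nonneg _
  rw [dd_BC_eq]
  refine (sqrt_le_abs_add_abs _ _).trans ?_
  rw [abs_of_nonneg (by linarith), abs_of_nonneg (by positivity)]
  linarith

lemma dd_le {M W : ℝ} (hM : 51 * W ≤ M) (hW : 1 ≤ W) {e e' : El} (he : Bd W e) (he' : Bd W e') :
    dd M e e' ≤ cd e e' * M + 75 * W := by
  cases e with
  | A p q =>
    cases e' with
    | A p' q' =>
      obtain ⟨h1, h2⟩ := he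
      obtain ⟨h3, h4⟩ := he'
      have n1 : (0 : ℝ) ≤ p := Nat.cast_nonneg _
      have n2 : (0 : ℝ) ≤ q := Nat.cast_nonneg _
      have n3 : (0 : ℝ) ≤ p' := Nat.cast_nonneg _
      have n4 : (0 : ℝ) ≤ q' := Nat.cast_nonneg _
      refine (sqrt_le_abs_add_abs _ _).trans ?_
      simp only [cx, cy, cd]
      have a1 : |12 * (q : ℝ) - 12 * q'| ≤ 12 * W := abs_le.mpr ⟨by linarith, by linarith⟩
      have a2 : |12 * (p : ℝ) - 12 * p'| ≤ 12 * W := abs_le.mpr ⟨by linarith, by linarith⟩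
      linarith
    | B p' r' => exact dd_le_AB hM hW he he'
    | C q' r' => exact dd_le_AC hM hW he he'
  | B p r =>
    cases e' with
    | A p' q' => rw [dd_comm]; exact dd_le_AB hM hW he' he
    | B p' r' =>
      obtain ⟨h1, h2⟩ := he
      obtain ⟨h3, h4⟩ := he'
      have n1 : (0 : ℝ) ≤ p := Nat.cast_nonneg _
      have n2 : (0 : ℝ) ≤ r := Nat.cast_nonneg _
      have n3 : (0 : ℝ) ≤ p' := Nat.cast_nonneg _
      have n4 : (0 : ℝ) ≤ r' := Nat.cast_nonneg _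
      refine (sqrt_le_abs_add_abs _ _).trans ?_
      simp only [cx, cy, cd]
      have a1 : |4 * M + 16 * (p : ℝ) + 20 * r - (4 * M + 16 * p' + 20 * r')| ≤ 36 * W :=
        abs_le.mpr ⟨by linarith, by linarith⟩
      have a2 : |-12 * (p : ℝ) - -12 * p'| ≤ 12 * W := abs_le.mpr ⟨by linarith, by linarith⟩
      linarith
    | C q' r' => exact dd_le_BC hM hW he he'
  | C q r =>
    cases e' with
    | A p' q' => rw [dd_comm]; exact dd_le_AC hM hW he' he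
    | B p' r' => rw [dd_comm]; exact dd_le_BC hM hW he' he
    | C q' r' =>
      obtain ⟨h1, h2⟩ := he
      obtain ⟨h3, h4⟩ := he'
      have n1 : (0 : ℝ) ≤ q := Nat.cast_nonneg _
      have n2 : (0 : ℝ) ≤ r := Nat.cast_nonneg _
      have n3 : (0 : ℝ) ≤ q' := Nat.cast_nonneg _
      have n4 : (0 : ℝ) ≤ r' := Nat.cast_nonneg _
      refine (sqrt_le_abs_add_abs _ _).trans ?_
      simp only [cx, cy, cd]
      have a1 : |-12 * (q : ℝ) - -12 * q'| ≤ 12 * W := abs_le.mpr ⟨by linarith, by linarith⟩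
      have a2 : |3 * M + 9 * (q : ℝ) - 15 * r - (3 * M + 9 * q' - 15 * r')| ≤ 24 * W :=
        abs_le.mpr ⟨by linarith, by linarith⟩
      linarith

lemma ψ_ge {M W : ℝ} (hM : 51 * W ≤ M) (hW : 1 ≤ W) {e : El} (he : Bd W e) :
    4 * M - 24 * W ≤ ψ M e := by
  have hMpos : 0 < M := by linarith
  cases e with
  | A p q =>
    obtain ⟨h1, h2⟩ := he
    have : 0 ≤ (36 * (p : ℝ) ^ 2 + 48 * (q : ℝ) ^ 2) / M := by positivity
    simp only [ψ]
    linarith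
  | B p r =>
    have n1 : (0 : ℝ) ≤ p := Nat.cast_nonneg _
    have n2 : (0 : ℝ) ≤ r := Nat.cast_nonneg _
    have : 0 ≤ (36 * (p : ℝ) ^ 2 + 144 / 5 * (r : ℝ) ^ 2) / M := by positivity
    simp only [ψ]
    linarith
  | C q r =>
    obtain ⟨h1, h2⟩ := he
    have n1 : (0 : ℝ) ≤ q := Nat.cast_nonneg _
    have : 0 ≤ (48 * (q : ℝ) ^ 2 + 144 / 5 * (r : ℝ) ^ 2) / M := by positivity
    simp only [ψ]
    linarith

/-- A triple of elements that is not transversal. -/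
def NonTrans (x y z : El) : Prop := cd x y + cd x z + cd y z ≤ 10

lemma nontrans_upper {M W : ℝ} (hM : 1000 * W ≤ M) (hW : 1 ≤ W) {x y z : El} (hx : Bd W x)
    (hy : Bd W y) (hz : Bd W z) (h : NonTrans x y z) :
    dd M x y + dd M x z + dd M y z ≤ ψ M x + ψ M y + ψ M z - 72 / 5 / M := by
  have hM' : 51 * W ≤ M := by linarith
  have hMpos : 0 < M := by linarith
  have a1 := dd_le hM' hW hx hy
  have a2 := dd_le hM' hW hx hz
  have a3 := dd_le hM' hW hy hz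
  have b1 := ψ_ge hM' hW hx
  have b2 := ψ_ge hM' hW hy
  have b3 := ψ_ge hM' hW hz
  have hk : cd x y * M + cd x z * M + cd y z * M ≤ 10 * M := by
    have := mul_le_mul_of_nonneg_right h hMpos.le
    linarith
  have hdiv : 72 / 5 / M ≤ 1 := by
    rw [div_le_one hMpos]
    linarith
  linarith

/-- The perimeter of a finite set of elements (half the sum of all pairwise distances). -/
noncomputable def per (M : ℝ) (t : Finset El) : ℝ := (∑ x ∈ t, ∑ y ∈ t, dd M x y) / 2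

lemma dd_self (M : ℝ) (e : El) : dd M e e = 0 := by
  simp [dd]

lemma per_triple (M : ℝ) {x y z : El} (hxy : x ≠ y) (hxz : x ≠ z) (hyz : y ≠ z) :
    per M {x, y, z} = dd M x y + dd M x z + dd M y z := by
  unfold per
  have e : ∀ f : El → ℝ, ∑ a ∈ ({x, y, z} : Finset El), f a = f x + f y + f z := by
    intro f
    rw [Finset.sum_insert (by simp [hxy, hxz]), Finset.sum_insert (by simp [hyz]),
      Finset.sum_singleton]
    ring
  rw [e]
  simp only [e, dd_self]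
  rw [dd_comm M y x, dd_comm M z x, dd_comm M z y]
  ring

lemma sum_triple (f : El → ℝ) {x y z : El} (hxy : x ≠ y) (hxz : x ≠ z) (hyz : y ≠ z) :
    ∑ a ∈ ({x, y, z} : Finset El), f a = f x + f y + f z := by
  rw [Finset.sum_insert (by simp [hxy, hxz]), Finset.sum_insert (by simp [hyz]),
    Finset.sum_singleton]
  ring

/-- consistent triples -/
def Good (t : Finset El) : Prop := ∃ p q r : ℕ, t = {.A p q, .B p r, .C q r}

lemma trans_cases (t : Finset El) (ht : t.card = 3) :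
    (∃ p q p' r q' r' : ℕ, t = {.A p q, .B p' r, .C q' r'}) ∨
    (∃ x y z : El, x ≠ y ∧ x ≠ z ∧ y ≠ z ∧ t = {x, y, z} ∧ NonTrans x y z) := by
  obtain ⟨x, y, z, hxy, hxz, hyz, rfl⟩ := Finset.card_eq_three.mp ht
  rcases x with ⟨a, b⟩ | ⟨a, b⟩ | ⟨a, b⟩ <;> rcases y with ⟨a', b'⟩ | ⟨a', b'⟩ | ⟨a', b'⟩ <;>
    rcases z with ⟨a'', b''⟩ | ⟨a'', b''⟩ | ⟨a'', b''⟩
  all_goals first
    | (right; refine ⟨_, _, _, hxy, hxz, hyz, rfl, ?_⟩; unfold NonTrans; simp only [cd]; norm_num;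
       done)
    | (left; exact ⟨a, b, a', b', a'', b'', rfl⟩)
    | (left; refine ⟨a, b, a'', b'', a', b', ?_⟩; ext e; simp; tauto)
    | (left; refine ⟨a', b', a, b, a'', b'', ?_⟩; ext e; simp; tauto)
    | (left; refine ⟨a', b', a'', b'', a, b, ?_⟩; ext e; simp; tauto)
    | (left; refine ⟨a'', b'', a, b, a', b', ?_⟩; ext e; simp; tauto)
    | (left; refine ⟨a'', b'', a', b', a, b, ?_⟩; ext e; simp; tauto)

lemma per_upper {M W : ℝ} (hM : 1000 * W ≤ M) (hW : 1 ≤ W) {t : Finset El} (ht : t.card = 3)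
    (hb : ∀ e ∈ t, Bd W e) (hng : ¬ Good t) :
    per M t ≤ ∑ e ∈ t, ψ M e - 72 / 5 / M + 3 * ((51 * W) ^ 3 / (10 * M ^ 2)) := by
  have hM' : 51 * W ≤ M := by linarith
  have hMpos : 0 < M := by linarith
  rcases trans_cases t ht with ⟨p, q, p', r, q', r', rfl⟩ | ⟨x, y, z, hxy, hxz, hyz, rfl, hn⟩
  · rw [per_triple M (by simp) (by simp) (by simp), sum_triple _ (by simp) (by simp) (by simp)]
    have hu := tri_upper hW hM' (hb (.A p q) (by simp)) (hb (.B p' r) (by simp))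
      (hb (.C q' r') (by simp))
    have hpen : 72 / 5 / M ≤ (18 * ((p : ℝ) - p') ^ 2 + 24 * ((q : ℝ) - q') ^ 2
        + 72 / 5 * ((r : ℝ) - r') ^ 2) / M := by
      apply div_le_div_of_nonneg_right _ hMpos.le
      have hsq : ∀ a b : ℕ, a ≠ b → 1 ≤ ((a : ℝ) - b) ^ 2 := by
        intro a b hab
        have h1 : (1 : ℤ) ≤ ((a : ℤ) - b) ^ 2 := by
          have : ((a : ℤ) - b) ≠ 0 := by
            intro h
            apply hab
            exact_mod_cast sub_eq_zero.mp h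
          have := sq_pos_of_ne_zero this
          omega
        exact_mod_cast h1
      have s1 := sq_nonneg ((p : ℝ) - p')
      have s2 := sq_nonneg ((q : ℝ) - q')
      have s3 := sq_nonneg ((r : ℝ) - r')
      by_cases h1 : p = p'
      · by_cases h2 : q = q'
        · by_cases h3 : r = r'
          · exact absurd ⟨p, q, r, by subst h1 h2 h3; rfl⟩ hng
          · have := hsq r r' h3
            linarith
        · have := hsq q q' h2
          linarith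
      · have := hsq p p' h1
        linarith
    linarith
  · rw [per_triple M hxy hxz hyz, sum_triple _ hxy hxz hyz]
    have := nontrans_upper hM hW (hb x (by simp)) (hb y (by simp)) (hb z (by simp)) hn
    have : 0 ≤ 3 * ((51 * W) ^ 3 / (10 * M ^ 2)) := by positivity
    linarith

lemma per_good_upper {M W : ℝ} (hM : 1000 * W ≤ M) (hW : 1 ≤ W) {t : Finset El}
    (hb : ∀ e ∈ t, Bd W e) (hg : Good t) :
    per M t ≤ ∑ e ∈ t, ψ M e + 3 * ((51 * W) ^ 3 / (10 * M ^ 2)) := by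
  have hM' : 51 * W ≤ M := by linarith
  obtain ⟨p, q, r, rfl⟩ := hg
  rw [per_triple M (by simp) (by simp) (by simp), sum_triple _ (by simp) (by simp) (by simp)]
  have hu := tri_upper hW hM' (hb (.A p q) (by simp)) (hb (.B p r) (by simp))
      (hb (.C q r) (by simp))
  simp only [sub_self] at hu
  norm_num at hu
  linarith

lemma per_good_lower {M W : ℝ} (hM : 1000 * W ≤ M) (hW : 1 ≤ W) {t : Finset El}
    (hb : ∀ e ∈ t, Bd W e) (hg : Good t) :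
    ∑ e ∈ t, ψ M e - 3 * ((51 * W) ^ 3 / (10 * M ^ 2)) ≤ per M t := by
  have hM' : 51 * W ≤ M := by linarith
  obtain ⟨p, q, r, rfl⟩ := hg
  rw [per_triple M (by simp) (by simp) (by simp), sum_triple _ (by simp) (by simp) (by simp)]
  exact tri_lower hW hM' (hb (.A p q) (by simp)) (hb (.B p r) (by simp))

end Pool.Agent.H63.TriGeom
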