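import Mathlib
import Pool.Agent.H63.TriGeom

set_option autoImplicit false

/-!
# Partitions into triples and the geometric reduction theorem
-/

namespace Pool.Agent.H63.TriPart

open Pool.Agent.H63.TriGeom

/-- The perimeter of a finite point set `t` with three elements: half of the sum of the distances
over all ordered pairs of points of `t`. -/
noncomputable def perimeter {E : Type*} [PseudoMetricSpace E] (t : Finset E) : ℝ :=
  (∑ x ∈ t, ∑ y ∈ t, dist x y) / 2

/-- `π` is a partition of the finite set `P` into triples. -/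
def IsTriPartition {E : Type*} (P : Finset E) (π : Finset (Finset E)) : Prop :=
  (∀ t ∈ π, t.card = 3 ∧ t ⊆ P) ∧ ∀ x ∈ P, ∃! t, t ∈ π ∧ x ∈ t

section transport

variable {E F : Type*} [DecidableEq E] [DecidableEq F]

lemma IsTriPartition.biUnion {P : Finset E} {π : Finset (Finset E)} (h : IsTriPartition P π) :
    π.biUnion id = P := by
  ext x
  simp only [Finset.mem_biUnion, id]
  constructor
  · rintro ⟨t, ht, hx⟩
    exact (h.1 t ht).2 hx
  · intro hx
    obtain ⟨t, ⟨ht, hxt⟩, _⟩ := h.2 x hx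
    exact ⟨t, ht, hxt⟩

omit [DecidableEq E] in
lemma IsTriPartition.disj {P : Finset E} {π : Finset (Finset E)} (h : IsTriPartition P π) :
    (π : Set (Finset E)).PairwiseDisjoint id := by
  intro t ht t' ht' hne
  rw [Function.onFun, id, id, Finset.disjoint_left]
  intro x hx hx'
  obtain ⟨t₀, _, huniq⟩ := h.2 x ((h.1 t ht).2 hx)
  exact hne ((huniq t ⟨ht, hx⟩).trans (huniq t' ⟨ht', hx'⟩).symm)

lemma IsTriPartition.sum_eq {P : Finset E} {π : Finset (Finset E)} (h : IsTriPartition P π)
    (f : E → ℝ) : ∑ t ∈ π, ∑ x ∈ t, f x = ∑ x ∈ P, f x := by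
  conv_rhs => rw [← h.biUnion]
  rw [Finset.sum_biUnion h.disj]
  rfl

lemma IsTriPartition.card_eq {P : Finset E} {π : Finset (Finset E)} (h : IsTriPartition P π) :
    P.card = 3 * π.card := by
  conv_lhs => rw [← h.biUnion]
  rw [Finset.card_biUnion (fun t ht t' ht' hne => h.disj ht ht' hne)]
  have : ∑ u ∈ π, (id u).card = ∑ u ∈ π, 3 := Finset.sum_congr rfl (fun t ht => (h.1 t ht).1)
  rw [this]
  simp [mul_comm]

omit [DecidableEq E] in
lemma image_partition {U : Finset E} {T : Finset (Finset E)} {f : E → F}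
    (hf : Set.InjOn f U) (h : IsTriPartition U T) :
    IsTriPartition (U.image f) (T.image (fun t => t.image f)) := by
  constructor
  · intro t' ht'
    obtain ⟨t, ht, rfl⟩ := Finset.mem_image.mp ht'
    obtain ⟨hc, hs⟩ := h.1 t ht
    refine ⟨?_, Finset.image_subset_image hs⟩
    rw [Finset.card_image_of_injOn (hf.mono (by exact_mod_cast hs)), hc]
  · intro y hy
    obtain ⟨x, hx, rfl⟩ := Finset.mem_image.mp hy
    obtain ⟨t, ⟨ht, hxt⟩, huniq⟩ := h.2 x hx
    refine ⟨t.image f, ⟨Finset.mem_image_of_mem _ ht, Finset.mem_image_of_mem _ hxt⟩, ?_⟩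
    rintro t'' ⟨ht'', hy''⟩
    obtain ⟨t₁, ht₁, rfl⟩ := Finset.mem_image.mp ht''
    obtain ⟨x₁, hx₁, hxx⟩ := Finset.mem_image.mp hy''
    have : x₁ = x := hf ((h.1 t₁ ht₁).2 hx₁) hx hxx
    subst this
    rw [huniq t₁ ⟨ht₁, hx₁⟩]

lemma exists_preimage_partition {U : Finset E} {π : Finset (Finset F)} {f : E → F}
    (hf : Set.InjOn f U) (h : IsTriPartition (U.image f) π) :
    ∃ T : Finset (Finset E), IsTriPartition U T ∧ π = T.image (fun t => t.image f) := by
  have key : ∀ t ∈ π, (U.filter (fun e => f e ∈ t)).image f = t := by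
    intro t ht
    ext y
    simp only [Finset.mem_image, Finset.mem_filter]
    constructor
    · rintro ⟨e, ⟨_, he⟩, rfl⟩
      exact he
    · intro hy
      obtain ⟨e, he, rfl⟩ := Finset.mem_image.mp ((h.1 t ht).2 hy)
      exact ⟨e, ⟨he, hy⟩, rfl⟩
  refine ⟨π.image (fun t => U.filter (fun e => f e ∈ t)), ⟨?_, ?_⟩, ?_⟩
  · intro t' ht'
    obtain ⟨t, ht, rfl⟩ := Finset.mem_image.mp ht'
    refine ⟨?_, Finset.filter_subset _ _⟩
    rw [← Finset.card_image_of_injOn (f := f), key t ht, (h.1 t ht).1]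
    exact hf.mono (by exact_mod_cast Finset.filter_subset _ _)
  · intro e he
    obtain ⟨t, ⟨ht, hxt⟩, huniq⟩ := h.2 (f e) (Finset.mem_image_of_mem _ he)
    refine ⟨U.filter (fun e => f e ∈ t),
      ⟨Finset.mem_image_of_mem (fun t => U.filter (fun e => f e ∈ t)) ht,
        Finset.mem_filter.mpr ⟨he, hxt⟩⟩, ?_⟩
    rintro t'' ⟨ht'', hy''⟩
    obtain ⟨t₁, ht₁, rfl⟩ := Finset.mem_image.mp ht''
    have := (Finset.mem_filter.mp hy'').2
    rw [huniq t₁ ⟨ht₁, this⟩]
  · rw [Finset.image_image]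
    symm
    calc π.image ((fun t => t.image f) ∘ fun t => U.filter (fun e => f e ∈ t))
        = π.image id := by
          apply Finset.image_congr
          intro t ht
          exact key t ht
      _ = π := Finset.image_id

omit [DecidableEq E] in
lemma image_sum {U : Finset E} {T : Finset (Finset E)} {f : E → F}
    (hf : Set.InjOn f U) (h : IsTriPartition U T) (g : Finset F → ℝ) :
    ∑ t ∈ T.image (fun t => t.image f), g t = ∑ t ∈ T, g (t.image f) := by
  apply Finset.sum_image
  intro t ht t' ht' heq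
  have hs := (h.1 t ht).2
  have hs' := (h.1 t' ht').2
  ext e
  constructor
  · intro he
    have : f e ∈ t'.image f := by
      have heq' : t.image f = t'.image f := heq
      rw [← heq']
      exact Finset.mem_image_of_mem _ he
    obtain ⟨e', he', hee⟩ := Finset.mem_image.mp this
    have : e' = e := hf (hs' he') (hs he) hee
    rwa [this] at he'
  · intro he
    have : f e ∈ t.image f := by
      have heq' : t.image f = t'.image f := heq
      rw [heq']
      exact Finset.mem_image_of_mem _ he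
    obtain ⟨e', he', hee⟩ := Finset.mem_image.mp this
    have : e' = e := hf (hs he') (hs' he) hee
    rwa [this] at he'

end transport

/-- The point of `ℝˢ` (`s ≥ 2`) with first two coordinates `(cx, cy)`, all others `0`. -/
noncomputable def pos (s : ℕ) (M : ℝ) (e : El) : EuclideanSpace ℝ (Fin s) :=
  WithLp.toLp 2 (fun i => if (i : ℕ) = 0 then cx M e else if (i : ℕ) = 1 then cy M e else 0)

lemma dist_pos {s : ℕ} (hs : 2 ≤ s) (M : ℝ) (e e' : El) :
    dist (pos s M e) (pos s M e') = dd M e e' := by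
  obtain ⟨k, rfl⟩ : ∃ k, s = k + 2 := ⟨s - 2, by omega⟩
  rw [EuclideanSpace.dist_eq, Fin.sum_univ_succ, Fin.sum_univ_succ]
  unfold dd
  congr 1
  simp [pos, Real.dist_eq, sq_abs]

lemma pos_injOn {s : ℕ} (hs : 2 ≤ s) {M W : ℝ} (hW : 1 ≤ W) (hM : 1000 * W ≤ M) (U : Finset El)
    (hU : ∀ e ∈ U, Bd W e) : Set.InjOn (pos s M) U := by
  intro e he e' he' heq
  have hb := hU e he
  have hb' := hU e' he'
  have h0 : cx M e = cx M e' := by
    have := congrArg (fun v : EuclideanSpace ℝ (Fin s) => v ⟨0, by omega⟩) heq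
    simpa [pos] using this
  have h1 : cy M e = cy M e' := by
    have := congrArg (fun v : EuclideanSpace ℝ (Fin s) => v ⟨1, by omega⟩) heq
    simpa [pos] using this
  rcases e with ⟨a, b⟩ | ⟨a, b⟩ | ⟨a, b⟩ <;> rcases e' with ⟨a', b'⟩ | ⟨a', b'⟩ | ⟨a', b'⟩ <;>
    obtain ⟨k1, k2⟩ := hb <;> obtain ⟨k3, k4⟩ := hb' <;> simp only [cx, cy] at h0 h1 <;>
    have n1 : (0 : ℝ) ≤ a := Nat.cast_nonneg _ <;> have n2 : (0 : ℝ) ≤ b := Nat.cast_nonneg _ <;>
    have n3 : (0 : ℝ) ≤ a' := Nat.cast_nonneg _ <;> have n4 : (0 : ℝ) ≤ b' := Nat.cast_nonneg _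
  · have e1 : (a : ℝ) = a' := by linarith
    have e2 : (b : ℝ) = b' := by linarith
    rw [Nat.cast_inj.mp e1, Nat.cast_inj.mp e2]
  · exfalso; linarith
  · exfalso; linarith
  · exfalso; linarith
  · have e1 : (a : ℝ) = a' := by linarith
    have e2 : (b : ℝ) = b' := by linarith
    rw [Nat.cast_inj.mp e1, Nat.cast_inj.mp e2]
  · exfalso; linarith
  · exfalso; linarith
  · exfalso; linarith
  · have e1 : (a : ℝ) = a' := by linarith
    have e2 : (b : ℝ) = b' := by linarith
    rw [Nat.cast_inj.mp e1, Nat.cast_inj.mp e2]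

lemma dd_inj {M W : ℝ} (hW : 1 ≤ W) (hM : 1000 * W ≤ M) {e e' : El} (he : Bd W e)
    (he' : Bd W e') (h : dd M e e' = 0) : e = e' := by
  have := pos_injOn (s := 2) le_rfl hW hM {e, e'} (by
    intro a ha
    simp only [Finset.mem_insert, Finset.mem_singleton] at ha
    rcases ha with rfl | rfl <;> assumption)
  apply this (by simp) (by simp)
  rw [← dist_eq_zero, dist_pos le_rfl, h]

lemma perimeter_image {E : Type*} [MetricSpace E] [DecidableEq E] {f : El → E} {c M : ℝ}
    {t : Finset El} (hinj : Set.InjOn f t)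
    (hf : ∀ e ∈ t, ∀ e' ∈ t, dist (f e) (f e') = c * dd M e e') :
    perimeter (t.image f) = c * per M t := by
  unfold perimeter per
  rw [Finset.sum_image hinj]
  have : ∑ x ∈ t, ∑ y ∈ t.image f, dist (f x) y = ∑ x ∈ t, ∑ y ∈ t, c * dd M x y := by
    apply Finset.sum_congr rfl
    intro x hx
    rw [Finset.sum_image hinj]
    apply Finset.sum_congr rfl
    intro y hy
    exact hf x hx y hy
  rw [this]
  simp_rw [← Finset.mul_sum]
  ring

/-- **Geometric reduction.** -/
theorem geom {E : Type*} [MetricSpace E] [DecidableEq E] (f : El → E) {c M W : ℝ} (hc : 0 < c)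
    (hW : 1 ≤ W) (hM : 1000 * W ≤ M) (U : Finset El)
    (hf : ∀ e ∈ U, ∀ e' ∈ U, dist (f e) (f e') = c * dd M e e')
    (hU : ∀ e ∈ U, Bd W e) (hcard : (U.card : ℝ) * (51 * W) ^ 3 ≤ M) :
    (∃ π : Finset (Finset E), IsTriPartition (U.image f) π ∧
      c * (∑ e ∈ U, ψ M e - 7 / M) ≤ ∑ t ∈ π, perimeter t) ↔
    ∃ T : Finset (Finset El), IsTriPartition U T ∧ ∀ t ∈ T, Good t := by
  have hMpos : 0 < M := by linarith
  have hinj : Set.InjOn f U := by
    intro e he e' he' heq
    have h1 := hf e he e' he'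
    rw [heq, dist_self] at h1
    have h2 : dd M e e' = 0 := by
      rcases mul_eq_zero.mp h1.symm with h | h
      · exact absurd h hc.ne'
      · exact h
    exact dd_inj hW hM (hU e he) (hU e' he') h2
  -- the total error
  have herr : ∀ T : Finset (Finset El), IsTriPartition U T →
      (T.card : ℝ) * (3 * ((51 * W) ^ 3 / (10 * M ^ 2))) ≤ 1 / 10 / M := by
    intro T hT
    have hc : (U.card : ℝ) = 3 * T.card := by exact_mod_cast hT.card_eq
    rw [show (T.card : ℝ) * (3 * ((51 * W) ^ 3 / (10 * M ^ 2)))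
        = (3 * T.card * (51 * W) ^ 3) / (10 * M ^ 2) by ring, ← hc,
      show (1 : ℝ) / 10 / M = M / (10 * M ^ 2) by field_simp]
    exact div_le_div_of_nonneg_right hcard (by positivity)
  have hper : ∀ T : Finset (Finset El), IsTriPartition U T →
      ∑ t ∈ T.image (fun t => t.image f), perimeter t = c * ∑ t ∈ T, per M t := by
    intro T hT
    rw [image_sum hinj hT, Finset.mul_sum]
    apply Finset.sum_congr rfl
    intro t ht
    have hsub := (hT.1 t ht).2
    exact perimeter_image (hinj.mono (by exact_mod_cast hsub))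
      (fun e he e' he' => hf e (hsub he) e' (hsub he'))
  have hbd : ∀ T : Finset (Finset El), IsTriPartition U T → ∀ t ∈ T, ∀ e ∈ t, Bd W e :=
    fun T hT t ht e he => hU e ((hT.1 t ht).2 he)
  constructor
  · rintro ⟨π, hπ, hval⟩
    obtain ⟨T, hT, rfl⟩ := exists_preimage_partition hinj hπ
    refine ⟨T, hT, ?_⟩
    by_contra hcon
    push Not at hcon
    obtain ⟨t₀, ht₀, hbad⟩ := hcon
    rw [hper T hT, ← hT.sum_eq] at hval
    have hval := le_of_mul_le_mul_left hval hc
    have h1 : ∑ t ∈ T, per M t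
        ≤ ∑ t ∈ T, (∑ e ∈ t, ψ M e + 3 * ((51 * W) ^ 3 / (10 * M ^ 2))
            - if t = t₀ then 72 / 5 / M else 0) := by
      apply Finset.sum_le_sum
      intro t ht
      by_cases hg : Good t
      · have hne : t ≠ t₀ := by
          rintro rfl
          exact hbad hg
        rw [if_neg hne, sub_zero]
        exact per_good_upper hM hW (hbd T hT t ht) hg
      · have := per_upper hM hW (hT.1 t ht).1 (hbd T hT t ht) hg
        have hp : 0 ≤ 72 / 5 / M := by positivity
        split_ifs <;> linarith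
    rw [Finset.sum_sub_distrib, Finset.sum_add_distrib, Finset.sum_const,
      Finset.sum_ite_eq' T t₀ (fun _ => 72 / 5 / M), if_pos ht₀, nsmul_eq_mul] at h1
    have h2 := herr T hT
    have h3 : 0 < 1 / M := by positivity
    have e1 : 72 / 5 / M = 72 / 5 * (1 / M) := by ring
    have e2 : 7 / M = 7 * (1 / M) := by ring
    have e3 : 1 / 10 / M = 1 / 10 * (1 / M) := by ring
    rw [e1] at h1
    rw [e2] at hval
    rw [e3] at h2
    linarith
  · rintro ⟨T, hT, hgood⟩
    refine ⟨T.image (fun t => t.image f), image_partition hinj hT, ?_⟩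
    rw [hper T hT, ← hT.sum_eq]
    apply mul_le_mul_of_nonneg_left _ hc.le
    have h1 : ∑ t ∈ T, (∑ e ∈ t, ψ M e - 3 * ((51 * W) ^ 3 / (10 * M ^ 2)))
        ≤ ∑ t ∈ T, per M t := by
      apply Finset.sum_le_sum
      intro t ht
      exact per_good_lower hM hW (hbd T hT t ht) (hgood t ht)
    rw [Finset.sum_sub_distrib, Finset.sum_const, nsmul_eq_mul] at h1
    have h2 := herr T hT
    have h3 : 0 < 1 / M := by positivity
    have e2 : 7 / M = 7 * (1 / M) := by ring
    have e3 : 1 / 10 / M = 1 / 10 * (1 / M) := by ring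
    rw [e2]
    rw [e3] at h2
    linarith

end Pool.Agent.H63.TriPart
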