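import Mathlib
import Pool.Agent.H63.TriPart
import Pool.Agent.H63.Tight

set_option autoImplicit false

/-!
# Decompositions and partitions into good triples
-/

namespace Pool.Agent.H63.Code

open Pool.Agent.H63.TriGeom Pool.Agent.H63.TriPart Pool.Agent.H63.Tight

lemma good_mem_A {p q r p' q' : ℕ} (h : El.A p' q' ∈ ({.A p q, .B p r, .C q r} : Finset El)) :
    p' = p ∧ q' = q := by simpa using h

lemma good_mem_B {p q r p' r' : ℕ} (h : El.B p' r' ∈ ({.A p q, .B p r, .C q r} : Finset El)) :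
    p' = p ∧ r' = r := by simpa using h

lemma good_mem_C {p q r q' r' : ℕ} (h : El.C q' r' ∈ ({.A p q, .B p r, .C q r} : Finset El)) :
    q' = q ∧ r' = r := by simpa using h

theorem decomp_iff {V R : Type*} (A : Set (V × V)) (B C : Set (V × R)) (cd : V → ℕ) (cc : R → ℕ)
    (SV : Set V) (SR : Set R) (hcd : Set.InjOn cd SV) (hcc : Set.InjOn cc SR)
    (hAS : ∀ w w', (w, w') ∈ A → w ∈ SV ∧ w' ∈ SV)
    (hBS : ∀ w c, (w, c) ∈ B → w ∈ SV ∧ c ∈ SR)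
    (hCS : ∀ w c, (w, c) ∈ C → w ∈ SV ∧ c ∈ SR)
    (U : Finset El)
    (hA : ∀ p q, El.A p q ∈ U ↔ ∃ w w', (w, w') ∈ A ∧ cd w = p ∧ cd w' = q)
    (hB : ∀ p r, El.B p r ∈ U ↔ ∃ w c, (w, c) ∈ B ∧ cd w = p ∧ cc c = r)
    (hC : ∀ q r, El.C q r ∈ U ↔ ∃ w c, (w, c) ∈ C ∧ cd w = q ∧ cc c = r) :
    Decomp A B C ↔ ∃ T : Finset (Finset El), IsTriPartition U T ∧ ∀ t ∈ T, Good t := by
  classical
  constructor
  · rintro ⟨T, hT, h1, h2, h3⟩
    refine ⟨U.powerset.filter (fun t => ∃ w w' c, T w w' c ∧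
      t = {El.A (cd w) (cd w'), .B (cd w) (cc c), .C (cd w') (cc c)}), ⟨?_, ?_⟩, ?_⟩
    · intro t ht
      rw [Finset.mem_filter, Finset.mem_powerset] at ht
      obtain ⟨hs, w, w', c, _, rfl⟩ := ht
      exact ⟨Finset.card_eq_three.mpr ⟨_, _, _, by simp, by simp, by simp, rfl⟩, hs⟩
    · have hmem : ∀ w w' c, T w w' c →
          ({El.A (cd w) (cd w'), .B (cd w) (cc c), .C (cd w') (cc c)} : Finset El) ∈
            U.powerset.filter (fun t => ∃ w w' c, T w w' c ∧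
              t = {El.A (cd w) (cd w'), .B (cd w) (cc c), .C (cd w') (cc c)}) := by
        intro w w' c hc
        obtain ⟨a1, a2, a3⟩ := hT _ _ _ hc
        rw [Finset.mem_filter, Finset.mem_powerset]
        refine ⟨?_, w, w', c, hc, rfl⟩
        intro e he
        simp only [Finset.mem_insert, Finset.mem_singleton] at he
        rcases he with rfl | rfl | rfl
        · exact (hA _ _).mpr ⟨w, w', a1, rfl, rfl⟩
        · exact (hB _ _).mpr ⟨w, c, a2, rfl, rfl⟩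
        · exact (hC _ _).mpr ⟨w', c, a3, rfl, rfl⟩
      intro e he
      cases e with
      | A p q =>
        obtain ⟨w, w', hw, rfl, rfl⟩ := (hA _ _).mp he
        obtain ⟨c, hc, hu⟩ := h1 _ _ hw
        refine ⟨_, ⟨hmem w w' c hc, by simp⟩, ?_⟩
        rintro t ⟨ht, het⟩
        obtain ⟨_, w₁, w₁', c₁, hc₁, rfl⟩ := Finset.mem_filter.mp ht
        obtain ⟨a1, a2, a3⟩ := hT _ _ _ hc₁
        obtain ⟨e1, e2⟩ := good_mem_A het
        have f1 := hcd (hAS _ _ hw).1 (hAS _ _ a1).1 e1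
        have f2 := hcd (hAS _ _ hw).2 (hAS _ _ a1).2 e2
        subst f1 f2
        rw [hu c₁ hc₁]
      | B p r =>
        obtain ⟨w, c, hw, rfl, rfl⟩ := (hB _ _).mp he
        obtain ⟨w', hc, hu⟩ := h2 _ _ hw
        refine ⟨_, ⟨hmem w w' c hc, by simp⟩, ?_⟩
        rintro t ⟨ht, het⟩
        obtain ⟨_, w₁, w₁', c₁, hc₁, rfl⟩ := Finset.mem_filter.mp ht
        obtain ⟨a1, a2, a3⟩ := hT _ _ _ hc₁
        obtain ⟨e1, e2⟩ := good_mem_B het
        have f1 := hcd (hBS _ _ hw).1 (hBS _ _ a2).1 e1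
        have f2 := hcc (hBS _ _ hw).2 (hBS _ _ a2).2 e2
        subst f1 f2
        rw [hu w₁' hc₁]
      | C q r =>
        obtain ⟨w', c, hw, rfl, rfl⟩ := (hC _ _).mp he
        obtain ⟨w, hc, hu⟩ := h3 _ _ hw
        refine ⟨_, ⟨hmem w w' c hc, by simp⟩, ?_⟩
        rintro t ⟨ht, het⟩
        obtain ⟨_, w₁, w₁', c₁, hc₁, rfl⟩ := Finset.mem_filter.mp ht
        obtain ⟨a1, a2, a3⟩ := hT _ _ _ hc₁
        obtain ⟨e1, e2⟩ := good_mem_C het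
        have f1 := hcd (hCS _ _ hw).1 (hCS _ _ a3).1 e1
        have f2 := hcc (hCS _ _ hw).2 (hCS _ _ a3).2 e2
        subst f1 f2
        rw [hu w₁ hc₁]
    · intro t ht
      obtain ⟨_, w, w', c, _, rfl⟩ := Finset.mem_filter.mp ht
      exact ⟨_, _, _, rfl⟩
  · rintro ⟨T, hT, hg⟩
    refine ⟨fun w w' c => (w, w') ∈ A ∧ (w, c) ∈ B ∧ (w', c) ∈ C ∧
      ({El.A (cd w) (cd w'), .B (cd w) (cc c), .C (cd w') (cc c)} : Finset El) ∈ T, ?_, ?_, ?_, ?_⟩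
    · rintro w w' c ⟨a1, a2, a3, _⟩
      exact ⟨a1, a2, a3⟩
    · intro w w' hw
      obtain ⟨t, ⟨ht, het⟩, hu⟩ := hT.2 _ ((hA _ _).mpr ⟨w, w', hw, rfl, rfl⟩)
      obtain ⟨p, q, r, rfl⟩ := hg t ht
      obtain ⟨rfl, rfl⟩ := good_mem_A het
      have hsub := (hT.1 _ ht).2
      obtain ⟨w₁, c₁, b1, e1, rfl⟩ := (hB _ _).mp (hsub (by simp : El.B (cd w) r ∈ _))
      obtain ⟨w₂, c₂, b2, e2, e3⟩ := (hC _ _).mp (hsub (by simp : El.C (cd w') (cc c₁) ∈ _))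
      have f1 := hcd (hBS _ _ b1).1 (hAS _ _ hw).1 e1
      have f2 := hcd (hCS _ _ b2).1 (hAS _ _ hw).2 e2
      have f3 := hcc (hCS _ _ b2).2 (hBS _ _ b1).2 e3
      subst f1 f2 f3
      refine ⟨c₂, ⟨hw, b1, b2, ht⟩, ?_⟩
      rintro c' ⟨_, b3, _, ht'⟩
      have := hu _ ⟨ht', by simp⟩
      have hmem : El.B (cd w₁) (cc c') ∈ ({El.A (cd w₁) (cd w₂), .B (cd w₁) (cc c₂),
          .C (cd w₂) (cc c₂)} : Finset El) := by
        rw [← this]
        simp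
      exact hcc (hBS _ _ b3).2 (hBS _ _ b1).2 (good_mem_B hmem).2
    · intro w c hw
      obtain ⟨t, ⟨ht, het⟩, hu⟩ := hT.2 _ ((hB _ _).mpr ⟨w, c, hw, rfl, rfl⟩)
      obtain ⟨p, q, r, rfl⟩ := hg t ht
      obtain ⟨rfl, rfl⟩ := good_mem_B het
      have hsub := (hT.1 _ ht).2
      obtain ⟨w₁, w₁', b1, e1, rfl⟩ := (hA _ _).mp (hsub (by simp : El.A (cd w) q ∈ _))
      obtain ⟨w₂, c₂, b2, e2, e3⟩ := (hC _ _).mp (hsub (by simp : El.C (cd w₁') (cc c) ∈ _))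
      have f1 := hcd (hAS _ _ b1).1 (hBS _ _ hw).1 e1
      have f2 := hcd (hCS _ _ b2).1 (hAS _ _ b1).2 e2
      have f3 := hcc (hCS _ _ b2).2 (hBS _ _ hw).2 e3
      subst f1 f2 f3
      refine ⟨w₂, ⟨b1, hw, b2, ht⟩, ?_⟩
      rintro w' ⟨b3, _, _, ht'⟩
      have := hu _ ⟨ht', by simp⟩
      have hmem : El.A (cd w₁) (cd w') ∈ ({El.A (cd w₁) (cd w₂), .B (cd w₁) (cc c₂),
          .C (cd w₂) (cc c₂)} : Finset El) := by
        rw [← this]
        simp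
      exact hcd (hAS _ _ b3).2 (hAS _ _ b1).2 (good_mem_A hmem).2
    · intro w c hw
      obtain ⟨t, ⟨ht, het⟩, hu⟩ := hT.2 _ ((hC _ _).mpr ⟨w, c, hw, rfl, rfl⟩)
      obtain ⟨p, q, r, rfl⟩ := hg t ht
      obtain ⟨rfl, rfl⟩ := good_mem_C het
      have hsub := (hT.1 _ ht).2
      obtain ⟨w₁, w₁', b1, rfl, e1⟩ := (hA _ _).mp (hsub (by simp : El.A p (cd w) ∈ _))
      obtain ⟨w₂, c₂, b2, e2, e3⟩ := (hB _ _).mp (hsub (by simp : El.B (cd w₁) (cc c) ∈ _))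
      have f1 := hcd (hAS _ _ b1).2 (hCS _ _ hw).1 e1
      have f2 := hcd (hBS _ _ b2).1 (hAS _ _ b1).1 e2
      have f3 := hcc (hBS _ _ b2).2 (hCS _ _ hw).2 e3
      subst f1 f2 f3
      refine ⟨w₂, ⟨b1, b2, hw, ht⟩, ?_⟩
      rintro w' ⟨b3, _, _, ht'⟩
      have := hu _ ⟨ht', by simp⟩
      have hmem : El.A (cd w') (cd w₁') ∈ ({El.A (cd w₂) (cd w₁'), .B (cd w₂) (cc c₂),
          .C (cd w₁') (cc c₂)} : Finset El) := by
        rw [← this]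
        simp
      exact hcd (hAS _ _ b3).1 (hAS _ _ b1).1 (good_mem_A hmem).1

end Pool.Agent.H63.Code
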