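import Mathlib
import Pool.Agent.H63.Tight

set_option autoImplicit false

/-!
# From 3SAT to list edge colouring of bipartite graphs
-/

namespace Pool.Agent.H63.SatCol

open Pool.Agent.H63.Tight

/-- vertices -/
inductive Vx : Type
  | X (x : ℕ) : Vx
  | c (j : ℕ) : Vx
  | v (x u : ℕ) : Vx
  deriving DecidableEq

/-- colours -/
inductive Col : Type
  | β : Col
  | γ : Col
  | a (x u : ℕ) : Col
  deriving DecidableEq

instance : Inhabited Col := ⟨.β⟩

section

/- `n` variables, `m` clauses, the literal number `t < 3 m` is `(var t, sg t)`; clause `j` consists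
of the literals `3 j, 3 j + 1, 3 j + 2`. -/
variable (n m : ℕ) (var : ℕ → ℕ) (sg : ℕ → Bool)

/-- satisfiability -/
def Sat : Prop := ∃ τ : ℕ → Bool, ∀ j < m, ∃ i < 3, τ (var (3 * j + i)) = sg (3 * j + i)

/-- the witness colour of literal `t` -/
def w (t : ℕ) : Col := .a (var t) (2 * t + if sg t then 1 else 0)

/-- the occurrence predicate -/
def occ (x u : ℕ) : Prop := u % 2 = 0 ∧ var (u / 2) = x

instance (x u : ℕ) : Decidable (occ var x u) := by unfold occ; infer_instance

/-- The list edge colouring instance. -/
def inst : Inst Vx Col where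
  E := ((Finset.range n ×ˢ Finset.range (6 * m)).image fun p => (Vx.X p.1, Vx.v p.1 p.2)) ∪
    (Finset.range (3 * m)).image fun t => (Vx.c (t / 3), Vx.v (var t) (2 * t))
  VV := (Finset.range n).image Vx.X ∪ (Finset.range m).image Vx.c ∪
    (Finset.range n ×ˢ Finset.range (6 * m)).image fun p => Vx.v p.1 p.2
  side := fun
    | .X _ => false
    | .c _ => false
    | .v _ _ => true
  L := fun
    | .X x => (Finset.range (6 * m)).image fun u => Col.a x u
    | .c j => {.β, .γ, w var sg (3 * j), w var sg (3 * j + 1), w var sg (3 * j + 2)}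
    | .v x u => {.a x u, .a x ((u + 1) % (6 * m))} ∪ if occ var x u then {.β, .γ} else ∅
  φ := fun
    | .X _ => 0
    | .c _ => 2
    | .v x u => if occ var x u then 2 else 1

variable {n m var sg}

lemma mem_E {p q : Vx} : (p, q) ∈ (inst n m var sg).E ↔
    (∃ x u, x < n ∧ u < 6 * m ∧ p = .X x ∧ q = .v x u) ∨
    (∃ t, t < 3 * m ∧ p = .c (t / 3) ∧ q = .v (var t) (2 * t)) := by
  simp only [inst, Finset.mem_union, Finset.mem_image, Finset.mem_product, Finset.mem_range,
    Prod.exists, Prod.mk.injEq]
  constructor
  · rintro (⟨x, u, ⟨hx, hu⟩, rfl, rfl⟩ | ⟨t, ht, rfl, rfl⟩)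
    · exact Or.inl ⟨x, u, hx, hu, rfl, rfl⟩
    · exact Or.inr ⟨t, ht, rfl, rfl⟩
  · rintro (⟨x, u, hx, hu, rfl, rfl⟩ | ⟨t, ht, rfl, rfl⟩)
    · exact Or.inl ⟨x, u, ⟨hx, hu⟩, rfl, rfl⟩
    · exact Or.inr ⟨t, ht, rfl, rfl⟩

lemma mem_VV {p : Vx} : p ∈ (inst n m var sg).VV ↔
    (∃ x, x < n ∧ p = .X x) ∨ (∃ j, j < m ∧ p = .c j) ∨
    (∃ x u, x < n ∧ u < 6 * m ∧ p = .v x u) := by
  simp only [inst, Finset.mem_union, Finset.mem_image, Finset.mem_product, Finset.mem_range,
    Prod.exists]
  constructor
  · rintro ((⟨x, hx, rfl⟩ | ⟨j, hj, rfl⟩) | ⟨x, u, ⟨hx, hu⟩, rfl⟩)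
    · exact Or.inl ⟨x, hx, rfl⟩
    · exact Or.inr (Or.inl ⟨j, hj, rfl⟩)
    · exact Or.inr (Or.inr ⟨x, u, hx, hu, rfl⟩)
  · rintro (⟨x, hx, rfl⟩ | ⟨j, hj, rfl⟩ | ⟨x, u, hx, hu, rfl⟩)
    · exact Or.inl (Or.inl ⟨x, hx, rfl⟩)
    · exact Or.inl (Or.inr ⟨j, hj, rfl⟩)
    · exact Or.inr ⟨x, u, ⟨hx, hu⟩, rfl⟩

lemma wf (hvar : ∀ t < 3 * m, var t < n) : (inst n m var sg).WF where
  side1 := by
    intro p q h
    rcases mem_E.mp h with ⟨x, u, _, _, rfl, _⟩ | ⟨t, _, rfl, _⟩ <;> rfl
  side2 := by
    intro p q h
    rcases mem_E.mp h with ⟨x, u, _, _, _, rfl⟩ | ⟨t, _, _, rfl⟩ <;> rfl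
  mem1 := by
    intro p q h
    rcases mem_E.mp h with ⟨x, u, hx, _, rfl, _⟩ | ⟨t, ht, rfl, _⟩
    · exact mem_VV.mpr (Or.inl ⟨x, hx, rfl⟩)
    · exact mem_VV.mpr (Or.inr (Or.inl ⟨t / 3, by omega, rfl⟩))
  mem2 := by
    intro p q h
    rcases mem_E.mp h with ⟨x, u, hx, hu, _, rfl⟩ | ⟨t, ht, _, rfl⟩
    · exact mem_VV.mpr (Or.inr (Or.inr ⟨x, u, hx, hu, rfl⟩))
    · exact mem_VV.mpr (Or.inr (Or.inr ⟨var t, 2 * t, hvar t ht, by omega, rfl⟩))
  le2 := by
    intro p _
    cases p with
    | X x => simp [inst]
    | c j => simp [inst]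
    | v x u =>
      simp only [inst]
      split_ifs <;> omega
  deg := by
    intro p hp
    rcases mem_VV.mp hp with ⟨x, hx, rfl⟩ | ⟨j, hj, rfl⟩ | ⟨x, u, hx, hu, rfl⟩
    · -- variable vertices
      have h1 : ((inst n m var sg).L (.X x)).card = 6 * m := by
        simp only [inst]
        rw [Finset.card_image_of_injective _ (fun u u' h => by injection h), Finset.card_range]
      have h2 : (inst n m var sg).deg (.X x) = 6 * m := by
        have : (inst n m var sg).E.filter (fun e => e.1 = .X x ∨ e.2 = .X x)
            = (Finset.range (6 * m)).image fun u => (Vx.X x, Vx.v x u) := by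
          ext ⟨p, q⟩
          rw [Finset.mem_filter, mem_E]
          simp only [Finset.mem_image, Finset.mem_range, Prod.mk.injEq]
          constructor
          · rintro ⟨⟨x', u, hx', hu, rfl, rfl⟩ | ⟨t, ht, rfl, rfl⟩, h⟩
            · simp at h
              subst h
              exact ⟨u, hu, rfl, rfl⟩
            · simp at h
          · rintro ⟨u, hu, rfl, rfl⟩
            exact ⟨Or.inl ⟨x, u, hx, hu, rfl, rfl⟩, Or.inl rfl⟩
        unfold Inst.deg
        rw [this, Finset.card_image_of_injective _ (fun u u' h => by simpa using h),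
          Finset.card_range]
      rw [h1, h2]
      rfl
    · -- clause vertices
      have hwne : ∀ s t, s ≠ t → w var sg s ≠ w var sg t := by
        intro s t hst h
        unfold w at h
        injection h with _ h2
        split_ifs at h2 <;> omega
      have h1 : ((inst n m var sg).L (.c j)).card = 5 := by
        simp only [inst]
        rw [Finset.card_insert_of_notMem, Finset.card_insert_of_notMem,
          Finset.card_insert_of_notMem, Finset.card_insert_of_notMem, Finset.card_singleton]
        · simp only [Finset.mem_singleton]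
          exact hwne _ _ (by omega)
        · simp only [Finset.mem_insert, Finset.mem_singleton, not_or]
          exact ⟨hwne _ _ (by omega), hwne _ _ (by omega)⟩
        · simp [w]
        · simp [w]
      have h2 : (inst n m var sg).deg (.c j) = 3 := by
        have : (inst n m var sg).E.filter (fun e => e.1 = .c j ∨ e.2 = .c j)
            = (Finset.range 3).image fun i => (Vx.c j, Vx.v (var (3 * j + i)) (2 * (3 * j + i))) := by
          ext ⟨p, q⟩
          rw [Finset.mem_filter, mem_E]
          simp only [Finset.mem_image, Finset.mem_range, Prod.mk.injEq]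
          constructor
          · rintro ⟨⟨x', u, hx', hu, rfl, rfl⟩ | ⟨t, ht, rfl, rfl⟩, h⟩
            · simp at h
            · simp at h
              refine ⟨t % 3, by omega, by rw [h], ?_⟩
              have : 3 * j + t % 3 = t := by omega
              rw [this]
          · rintro ⟨i, hi, rfl, rfl⟩
            refine ⟨Or.inr ⟨3 * j + i, by omega, ?_, rfl⟩, Or.inl rfl⟩
            have : (3 * j + i) / 3 = j := by omega
            rw [this]
        unfold Inst.deg
        rw [this, Finset.card_image_of_injective _ (fun i i' h => by simp at h; omega),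
          Finset.card_range]
      rw [h1, h2]
      rfl
    · -- occurrence vertices
      have hk : (u + 1) % (6 * m) ≠ u := by
        intro h
        by_cases h' : u + 1 < 6 * m
        · rw [Nat.mod_eq_of_lt h'] at h; omega
        · have : u + 1 = 6 * m := by omega
          rw [this, Nat.mod_self] at h
          omega
      by_cases ho : occ var x u
      · have h1 : ((inst n m var sg).L (.v x u)).card = 4 := by
          simp only [inst, if_pos ho]
          rw [Finset.card_union_of_disjoint, Finset.card_pair, Finset.card_pair]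
          · simp
          · intro h
            injection h with _ h
            exact hk h.symm
          · rw [Finset.disjoint_left]
            simp
        have h2 : (inst n m var sg).deg (.v x u) = 2 := by
          have : (inst n m var sg).E.filter (fun e => e.1 = .v x u ∨ e.2 = .v x u)
              = {(Vx.X x, Vx.v x u), (Vx.c (u / 2 / 3), Vx.v x u)} := by
            ext ⟨p, q⟩
            rw [Finset.mem_filter, mem_E]
            simp only [Finset.mem_insert, Finset.mem_singleton, Prod.mk.injEq]
            constructor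
            · rintro ⟨⟨x', u', hx', hu', rfl, rfl⟩ | ⟨t, ht, rfl, rfl⟩, h⟩
              · simp at h
                obtain ⟨rfl, rfl⟩ := h
                exact Or.inl ⟨rfl, rfl⟩
              · simp at h
                obtain ⟨rfl, rfl⟩ := h
                right
                simp
            · rintro (⟨rfl, rfl⟩ | ⟨rfl, rfl⟩)
              · exact ⟨Or.inl ⟨x, u, hx, hu, rfl, rfl⟩, Or.inr rfl⟩
              · refine ⟨Or.inr ⟨u / 2, by omega, rfl, ?_⟩, Or.inr rfl⟩
                have := ho.1
                rw [ho.2]
                have : 2 * (u / 2) = u := by omega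
                rw [this]
          unfold Inst.deg
          rw [this, Finset.card_pair (by simp)]
        rw [h1, h2]
        simp only [inst, if_pos ho]
      · have h1 : ((inst n m var sg).L (.v x u)).card = 2 := by
          simp only [inst, if_neg ho]
          rw [Finset.union_empty, Finset.card_pair]
          · intro h
            injection h with _ h
            exact hk h.symm
        have h2 : (inst n m var sg).deg (.v x u) = 1 := by
          have : (inst n m var sg).E.filter (fun e => e.1 = .v x u ∨ e.2 = .v x u)
              = {(Vx.X x, Vx.v x u)} := by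
            ext ⟨p, q⟩
            rw [Finset.mem_filter, mem_E]
            simp only [Finset.mem_singleton, Prod.mk.injEq]
            constructor
            · rintro ⟨⟨x', u', hx', hu', rfl, rfl⟩ | ⟨t, ht, rfl, rfl⟩, h⟩
              · simp at h
                obtain ⟨rfl, rfl⟩ := h
                exact ⟨rfl, rfl⟩
              · simp at h
                obtain ⟨rfl, rfl⟩ := h
                exfalso
                apply ho
                refine ⟨by omega, ?_⟩
                simp
            · rintro ⟨rfl, rfl⟩
              exact ⟨Or.inl ⟨x, u, hx, hu, rfl, rfl⟩, Or.inr rfl⟩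
          unfold Inst.deg
          rw [this, Finset.card_singleton]
        rw [h1, h2]
        simp only [inst, if_neg ho]

/-- Soundness. -/
theorem sat_of_proper (hvar : ∀ t < 3 * m, var t < n) {χ : Vx × Vx → Col}
    (h : (inst n m var sg).Proper χ) : Sat m var sg := by
  obtain ⟨hL, h1, h2⟩ := h
  -- the colours at a variable vertex
  have hX : ∀ x u, x < n → u < 6 * m → χ (.X x, .v x u) = .a x u ∨
      χ (.X x, .v x u) = .a x ((u + 1) % (6 * m)) := by
    intro x u hx hu
    obtain ⟨a1, a2⟩ := hL _ _ (mem_E.mpr (Or.inl ⟨x, u, hx, hu, rfl, rfl⟩))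
    simp only [inst, Finset.mem_image, Finset.mem_range, Finset.mem_union, Finset.mem_insert,
      Finset.mem_singleton] at a1 a2
    obtain ⟨u', _, hu'⟩ := a1
    rcases a2 with (a2 | a2) | a2
    · exact Or.inl a2
    · exact Or.inr a2
    · rw [← hu'] at a2
      split_ifs at a2 <;> simp at a2
  -- the state is constant along the ring
  have hstep : ∀ x u, x < n → u < 6 * m → u + 1 < 6 * m →
      χ (.X x, .v x u) = .a x ((u + 1) % (6 * m)) →
      χ (.X x, .v x (u + 1)) = .a x ((u + 1 + 1) % (6 * m)) := by
    intro x u hx hu hu1 hs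
    rcases hX x (u + 1) hx hu1 with h' | h'
    · exfalso
      rw [Nat.mod_eq_of_lt hu1] at hs
      have := h1 _ _ _ (mem_E.mpr (Or.inl ⟨x, u, hx, hu, rfl, rfl⟩))
        (mem_E.mpr (Or.inl ⟨x, u + 1, hx, hu1, rfl, rfl⟩)) (hs.trans h'.symm)
      injection this with _ this
      omega
    · exact h'
  have hlast : ∀ x d u, x < n → u < 6 * m → u + d + 1 = 6 * m →
      χ (.X x, .v x u) = .a x ((u + 1) % (6 * m)) →
      χ (.X x, .v x (u + d)) = .a x ((u + d + 1) % (6 * m)) := by
    intro x d
    induction d with
    | zero => intro u _ _ _ hs; exact hs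
    | succ d ih =>
      intro u hx hu hd hs
      have := ih (u + 1) hx (by omega) (by omega) (hstep x u hx hu (by omega) hs)
      have e : u + (d + 1) = u + 1 + d := by omega
      rw [e]
      exact this
  -- if some position is shifted, then position `0` is shifted
  have hzero : ∀ x u, x < n → u < 6 * m → χ (.X x, .v x u) = .a x ((u + 1) % (6 * m)) →
      χ (.X x, .v x 0) ≠ .a x 0 := by
    intro x u hx hu hs h0
    have hl := hlast x (6 * m - 1 - u) u hx hu (by omega) hs
    have e : u + (6 * m - 1 - u) = 6 * m - 1 := by omega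
    rw [e] at hl
    have e2 : 6 * m - 1 + 1 = 6 * m := by omega
    rw [e2, Nat.mod_self] at hl
    have := h1 _ _ _ (mem_E.mpr (Or.inl ⟨x, 6 * m - 1, hx, by omega, rfl, rfl⟩))
      (mem_E.mpr (Or.inl ⟨x, 0, hx, by omega, rfl, rfl⟩)) (hl.trans h0.symm)
    injection this with _ this
    omega
  -- if position `0` is shifted, then all are
  have hall : ∀ x u, x < n → u < 6 * m → χ (.X x, .v x 0) ≠ .a x 0 →
      χ (.X x, .v x u) = .a x ((u + 1) % (6 * m)) := by
    intro x u hx
    induction u with
    | zero =>
      intro hu h0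
      rcases hX x 0 hx hu with h' | h'
      · exact absurd h' h0
      · exact h'
    | succ u ih =>
      intro hu h0
      exact hstep x u hx (by omega) hu (ih (by omega) h0)
  refine ⟨fun x => decide (χ (.X x, .v x 0) = .a x 0), ?_⟩
  intro j hj
  -- the colours at a clause vertex
  have hE : ∀ i < 3, (Vx.c j, Vx.v (var (3 * j + i)) (2 * (3 * j + i))) ∈ (inst n m var sg).E := by
    intro i hi
    refine mem_E.mpr (Or.inr ⟨3 * j + i, by omega, ?_, rfl⟩)
    have : (3 * j + i) / 3 = j := by omega
    rw [this]
  have hc : ∀ i < 3, χ (.c j, .v (var (3 * j + i)) (2 * (3 * j + i))) = .β ∨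
      χ (.c j, .v (var (3 * j + i)) (2 * (3 * j + i))) = .γ ∨
      χ (.c j, .v (var (3 * j + i)) (2 * (3 * j + i))) = w var sg (3 * j + i) := by
    intro i hi
    obtain ⟨a1, a2⟩ := hL _ _ (hE i hi)
    generalize χ (.c j, .v (var (3 * j + i)) (2 * (3 * j + i))) = col at a1 a2
    simp only [inst, Finset.mem_union, Finset.mem_insert, Finset.mem_singleton] at a1 a2
    have hm : (2 * (3 * j + i) + 1) % (6 * m) = 2 * (3 * j + i) + 1 :=
      Nat.mod_eq_of_lt (by omega)
    rw [hm] at a2
    have key : ∀ t, 3 * j ≤ t → t < 3 * j + 3 → col = w var sg t → col = w var sg (3 * j + i) := by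
      intro t ht1 ht2 hcol
      rw [hcol] at a2
      unfold w at a2
      have : t = 3 * j + i := by
        rcases a2 with (a2 | a2) | a2
        · injection a2 with _ a2
          split_ifs at a2 <;> omega
        · injection a2 with _ a2
          split_ifs at a2 <;> omega
        · exfalso
          split_ifs at a2 <;> simp at a2
      rw [← this]
      exact hcol
    rcases a1 with a1 | a1 | a1 | a1 | a1
    · exact Or.inl a1
    · exact Or.inr (Or.inl a1)
    · exact Or.inr (Or.inr (key (3 * j) (by omega) (by omega) a1))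
    · exact Or.inr (Or.inr (key (3 * j + 1) (by omega) (by omega) a1))
    · exact Or.inr (Or.inr (key (3 * j + 2) (by omega) (by omega) a1))
  have hdist : ∀ i < 3, ∀ i' < 3, χ (.c j, .v (var (3 * j + i)) (2 * (3 * j + i)))
      = χ (.c j, .v (var (3 * j + i')) (2 * (3 * j + i'))) → i = i' := by
    intro i hi i' hi' heq
    have := h1 _ _ _ (hE i hi) (hE i' hi') heq
    injection this with _ this
    omega
  -- some edge has the witness colour
  obtain ⟨i, hi, hwi⟩ : ∃ i < 3, χ (.c j, .v (var (3 * j + i)) (2 * (3 * j + i)))
      = w var sg (3 * j + i) := by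
    by_contra hcon
    push Not at hcon
    have e0 := hc 0 (by norm_num)
    have e1 := hc 1 (by norm_num)
    have e2 := hc 2 (by norm_num)
    have n0 := hcon 0 (by norm_num)
    have n1 := hcon 1 (by norm_num)
    have n2 := hcon 2 (by norm_num)
    have d01 := hdist 0 (by norm_num) 1 (by norm_num)
    have d02 := hdist 0 (by norm_num) 2 (by norm_num)
    have d12 := hdist 1 (by norm_num) 2 (by norm_num)
    rcases e0 with e0 | e0 | e0
    · rcases e1 with e1 | e1 | e1
      · exact absurd (d01 (e0.trans e1.symm)) (by norm_num)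
      · rcases e2 with e2 | e2 | e2
        · exact absurd (d02 (e0.trans e2.symm)) (by norm_num)
        · exact absurd (d12 (e1.trans e2.symm)) (by norm_num)
        · exact n2 e2
      · exact n1 e1
    · rcases e1 with e1 | e1 | e1
      · rcases e2 with e2 | e2 | e2
        · exact absurd (d12 (e1.trans e2.symm)) (by norm_num)
        · exact absurd (d02 (e0.trans e2.symm)) (by norm_num)
        · exact n2 e2
      · exact absurd (d01 (e0.trans e1.symm)) (by norm_num)
      · exact n1 e1
    · exact n0 e0
  refine ⟨i, hi, ?_⟩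
  set t := 3 * j + i with ht
  have htm : t < 3 * m := by omega
  have hx := hvar t htm
  have hne : χ (.X (var t), .v (var t) (2 * t)) ≠ w var sg t := by
    intro heq
    have := h2 _ _ _ (mem_E.mpr (Or.inl ⟨var t, 2 * t, hx, by omega, rfl, rfl⟩)) (hE i hi)
      (heq.trans hwi.symm)
    simp at this
  have hm : (2 * t + 1) % (6 * m) = 2 * t + 1 := Nat.mod_eq_of_lt (by omega)
  unfold w at hne
  cases hsg : sg t with
  | true =>
    rw [hsg] at hne
    simp only [if_true] at hne
    rw [decide_eq_true_iff]
    by_contra h0
    apply hne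
    rw [hall (var t) (2 * t) hx (by omega) h0, hm]
  | false =>
    rw [hsg] at hne
    simp only [Bool.false_eq_true, if_false, add_zero] at hne
    rw [decide_eq_false_iff_not]
    rcases hX (var t) (2 * t) hx (by omega) with h' | h'
    · exact absurd h' hne
    · exact hzero _ _ hx (by omega) h'

/-- Completeness. -/
theorem proper_of_sat (h : Sat m var sg) : ∃ χ, (inst n m var sg).Proper χ := by
  obtain ⟨τ, hτ⟩ := h
  have hex : ∀ j, ∃ i, j < m → i < 3 ∧ τ (var (3 * j + i)) = sg (3 * j + i) := by
    intro j
    by_cases hj : j < m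
    · obtain ⟨i, hi, h⟩ := hτ j hj
      exact ⟨i, fun _ => ⟨hi, h⟩⟩
    · exact ⟨0, fun h => absurd h hj⟩
  choose ι hι using hex
  let χ : Vx × Vx → Col := fun e =>
    match e with
    | (.X x, .v _ u) => if τ x then .a x u else .a x ((u + 1) % (6 * m))
    | (.c j, .v _ u) =>
        if (u / 2) % 3 = ι j then w var sg (u / 2)
        else if (u / 2) % 3 = (ι j + 1) % 3 then .β else .γ
    | _ => .β
  have hχX : ∀ x u, χ (.X x, .v x u) = if τ x then .a x u else .a x ((u + 1) % (6 * m)) :=
    fun _ _ => rfl
  have hχc : ∀ t, χ (.c (t / 3), .v (var t) (2 * t)) =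
      if t % 3 = ι (t / 3) then w var sg t
        else if t % 3 = (ι (t / 3) + 1) % 3 then .β else .γ := by
    intro t
    show (if (2 * t / 2) % 3 = ι (t / 3) then w var sg (2 * t / 2)
        else if (2 * t / 2) % 3 = (ι (t / 3) + 1) % 3 then .β else .γ) = _
    have : 2 * t / 2 = t := by omega
    rw [this]
  refine ⟨χ, ?_, ?_, ?_⟩
  · intro p q he
    rcases mem_E.mp he with ⟨x, u, hx, hu, rfl, rfl⟩ | ⟨t, ht, rfl, rfl⟩
    · rw [hχX]
      simp only [inst, Finset.mem_image, Finset.mem_range, Finset.mem_union, Finset.mem_insert,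
        Finset.mem_singleton]
      split_ifs with h1 h2
      · exact ⟨⟨u, hu, rfl⟩, Or.inl (Or.inl rfl)⟩
      · exact ⟨⟨u, hu, rfl⟩, Or.inl (Or.inl rfl)⟩
      · exact ⟨⟨(u + 1) % (6 * m), Nat.mod_lt _ (by omega), rfl⟩, Or.inl (Or.inr rfl)⟩
      · exact ⟨⟨(u + 1) % (6 * m), Nat.mod_lt _ (by omega), rfl⟩, Or.inl (Or.inr rfl)⟩
    · rw [hχc]
      have hm : (2 * t + 1) % (6 * m) = 2 * t + 1 := Nat.mod_eq_of_lt (by omega)
      have hocc : occ var (var t) (2 * t) := by
        refine ⟨by omega, ?_⟩
        have : 2 * t / 2 = t := by omega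
        rw [this]
      simp only [inst, Finset.mem_union, Finset.mem_insert, Finset.mem_singleton, if_pos hocc, hm]
      have hw : w var sg t = .a (var t) (2 * t) ∨ w var sg t = .a (var t) (2 * t + 1) := by
        unfold w
        split_ifs
        · exact Or.inr rfl
        · exact Or.inl rfl
      split_ifs with h1 h2
      · refine ⟨?_, Or.inl hw⟩
        right; right
        have : t = 3 * (t / 3) ∨ t = 3 * (t / 3) + 1 ∨ t = 3 * (t / 3) + 2 := by omega
        rcases this with h | h | h
        · left; rw [← h]
        · right; left; rw [← h]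
        · right; right; rw [← h]
      · exact ⟨Or.inl rfl, Or.inr (Or.inl rfl)⟩
      · exact ⟨Or.inr (Or.inl rfl), Or.inr (Or.inr rfl)⟩
  · intro p q q' he he' heq
    rcases mem_E.mp he with ⟨x, u, hx, hu, rfl, rfl⟩ | ⟨t, ht, rfl, rfl⟩
    · rcases mem_E.mp he' with ⟨x', u', hx', hu', hxx, rfl⟩ | ⟨t, ht, hxx, rfl⟩
      · injection hxx with hxx
        subst hxx
        rw [hχX, hχX] at heq
        split_ifs at heq with h1
        · injection heq with _ heq
          rw [heq]
        · injection heq with _ heq
          have : u = u' := by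
            by_cases a : u + 1 < 6 * m <;> by_cases b : u' + 1 < 6 * m
            · rw [Nat.mod_eq_of_lt a, Nat.mod_eq_of_lt b] at heq; omega
            · have : u' + 1 = 6 * m := by omega
              rw [Nat.mod_eq_of_lt a, this, Nat.mod_self] at heq; omega
            · have : u + 1 = 6 * m := by omega
              rw [Nat.mod_eq_of_lt b, this, Nat.mod_self] at heq; omega
            · omega
          rw [this]
      · exact absurd hxx (by simp)
    · rcases mem_E.mp he' with ⟨x', u', hx', hu', hxx, rfl⟩ | ⟨t', ht', hxx, rfl⟩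
      · exact absurd hxx (by simp)
      · injection hxx with hxx
        have key : t = t' := by
          have e' := hχc t'
          rw [← hxx] at e'
          rw [hχc, e'] at heq
          have hι3 := (hι (t / 3) (by omega)).1
          split_ifs at heq with h1 h2 h3 h4 h5 h6 h7 h8
          · omega
          · exact absurd heq (by simp [w])
          · exact absurd heq (by simp [w])
          · exact absurd heq (by simp [w])
          · omega
          · exact absurd heq (by simp [w])
          · omega
        rw [key]
  · intro p p' q he he' heq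
    rcases mem_E.mp he with ⟨x, u, hx, hu, rfl, rfl⟩ | ⟨t, ht, rfl, rfl⟩
    · rcases mem_E.mp he' with ⟨x', u', hx', hu', rfl, hxx⟩ | ⟨t, ht, rfl, hxx⟩
      · injection hxx with hxx _
        rw [hxx]
      · exfalso
        injection hxx with hxx huu
        subst hxx huu
        have hm : (2 * t + 1) % (6 * m) = 2 * t + 1 := Nat.mod_eq_of_lt (by omega)
        rw [hχX, hχc, hm] at heq
        split_ifs at heq with h1 h2 h3 h4 h5
        · have := (hι (t / 3) (by omega)).2
          rw [← h2] at this
          have e : 3 * (t / 3) + t % 3 = t := by omega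
          rw [e, h1] at this
          unfold w at heq
          rw [← this] at heq
          simp at heq
        · have := (hι (t / 3) (by omega)).2
          rw [← h4] at this
          have e : 3 * (t / 3) + t % 3 = t := by omega
          rw [e] at this
          unfold w at heq
          rw [← this] at heq
          simp [h1] at heq
    · rcases mem_E.mp he' with ⟨x', u', hx', hu', rfl, hxx⟩ | ⟨t', ht', rfl, hxx⟩
      · exfalso
        injection hxx with hxx huu
        subst hxx huu
        have hm : (2 * t + 1) % (6 * m) = 2 * t + 1 := Nat.mod_eq_of_lt (by omega)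
        rw [hχX, hχc, hm] at heq
        split_ifs at heq with h1 h2 h3 h4 h5
        · have := (hι (t / 3) (by omega)).2
          rw [← h1] at this
          have e : 3 * (t / 3) + t % 3 = t := by omega
          rw [e, h2] at this
          unfold w at heq
          rw [← this] at heq
          simp at heq
        · have := (hι (t / 3) (by omega)).2
          rw [← h1] at this
          have e : 3 * (t / 3) + t % 3 = t := by omega
          rw [e] at this
          unfold w at heq
          rw [← this] at heq
          simp [h2] at heq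
      · injection hxx with _ huu
        have : t = t' := by omega
        rw [this]

end

end Pool.Agent.H63.SatCol
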