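import Mathlib
import Pool.Agent.H63.Code
import Pool.Agent.H63.SatCol

set_option autoImplicit false

/-!
# The explicit list of elements of the reduction
-/

namespace Pool.Agent.H63.Elems

open Pool.Agent.H63.TriGeom Pool.Agent.H63.TriPart Pool.Agent.H63.Tight Pool.Agent.H63.SatCol
open Pool.Agent.H63.Code

/-- elements of the variable part -/
def S1 (x y y' : ℕ) : List El :=
  [.A (12 * x) (12 * y + 8), .A (12 * x + 2) (12 * y + 10),
   .A (12 * y + 9) (12 * x + 1), .A (12 * y + 11) (12 * x + 3),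
   .A (12 * y + 9) (12 * y + 8), .A (12 * y + 11) (12 * y + 10),
   .B (12 * x) (y + 2), .B (12 * x + 2) (y + 2),
   .B (12 * y + 9) (y + 2), .B (12 * y + 11) (y + 2),
   .B (12 * y + 9) (y' + 2), .B (12 * y + 11) (y' + 2),
   .C (12 * x + 1) (y + 2), .C (12 * x + 3) (y + 2),
   .C (12 * y + 8) (y + 2), .C (12 * y + 10) (y + 2),
   .C (12 * y + 8) (y' + 2), .C (12 * y + 10) (y' + 2)]

/-- elements of the literal part: `j` is the clause, `y` the position, `s` the sign -/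
def S2 (j y s : ℕ) : List El :=
  [.A (12 * j + 4) (12 * y + 8), .A (12 * j + 6) (12 * y + 10),
   .A (12 * y + 9) (12 * j + 5), .A (12 * y + 11) (12 * j + 7),
   .A (12 * y + 9) (12 * y + 10), .A (12 * y + 11) (12 * y + 8),
   .B (12 * y + 9) 0, .B (12 * y + 9) 1, .B (12 * y + 11) 0, .B (12 * y + 11) 1,
   .C (12 * y + 8) 0, .C (12 * y + 8) 1, .C (12 * y + 10) 0, .C (12 * y + 10) 1,
   .B (12 * j + 4) (y + s + 2), .B (12 * j + 6) (y + s + 2),
   .C (12 * j + 5) (y + s + 2), .C (12 * j + 7) (y + s + 2)]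

/-- elements of the clause part -/
def S3 (j : ℕ) : List El :=
  [.A (12 * j + 4) (12 * j + 5), .A (12 * j + 6) (12 * j + 7),
   .A (12 * j + 4) (12 * j + 7), .A (12 * j + 6) (12 * j + 5),
   .B (12 * j + 4) 0, .B (12 * j + 4) 1, .B (12 * j + 6) 0, .B (12 * j + 6) 1,
   .C (12 * j + 5) 0, .C (12 * j + 5) 1, .C (12 * j + 7) 0, .C (12 * j + 7) 1]

/-- The list of all elements; `N = 3 m` is the number of literals. -/
def elems (N : ℕ) (var : ℕ → ℕ) (sg : ℕ → Bool) : List El :=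
  ((List.range N).flatMap fun x => (List.range (2 * N)).flatMap fun u =>
      S1 x (2 * N * x + u) (2 * N * x + (u + 1) % (2 * N))) ++
  ((List.range N).flatMap fun t => S2 (t / 3) (2 * N * var t + 2 * t) (if sg t then 1 else 0)) ++
  (List.range (N / 3)).flatMap S3

/-- codes of vertices -/
def cdV (m : ℕ) : Vx → ℕ
  | .X x => 3 * x
  | .c j => 3 * j + 1
  | .v x u => 3 * (6 * m * x + u) + 2

/-- codes of vertices of the cover -/
def cd (m : ℕ) (w : Vx × Fin 4) : ℕ := 4 * cdV m w.1 + w.2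

/-- codes of colours -/
def cc (m : ℕ) : Col → ℕ
  | .β => 0
  | .γ => 1
  | .a x u => 6 * m * x + u + 2

/-- valid colours -/
def VC (m : ℕ) : Set Col := {c | match c with | .a _ u => u < 6 * m | _ => True}

lemma inj_aux {k x u x' u' : ℕ} (hu : u < k) (hu' : u' < k) (h : k * x + u = k * x' + u') :
    x = x' ∧ u = u' := by
  have h1 : (k * x + u) / k = (k * x' + u') / k := by rw [h]
  have hk : 0 < k := by omega
  rw [Nat.mul_add_div hk, Nat.mul_add_div hk, Nat.div_eq_of_lt hu, Nat.div_eq_of_lt hu'] at h1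
  have hx : x = x' := by omega
  subst hx
  exact ⟨rfl, by omega⟩

variable {n m : ℕ} {var : ℕ → ℕ} {sg : ℕ → Bool}

lemma cd_inj : Set.InjOn (cd m) {w | w.1 ∈ (inst n m var sg).VV} := by
  rintro ⟨v, b⟩ hv ⟨v', b'⟩ hv' heq
  have hb := b.isLt
  have hb' := b'.isLt
  simp only [Set.mem_ofPred_eq] at hv hv'
  unfold cd at heq
  simp only at heq
  have h1 : cdV m v = cdV m v' := by omega
  have h2 : b = b' := by
    apply Fin.ext
    omega
  subst h2
  rcases mem_VV.mp hv with ⟨x, hx, rfl⟩ | ⟨j, hj, rfl⟩ | ⟨x, u, hx, hu, rfl⟩ <;>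
    rcases mem_VV.mp hv' with ⟨x', hx', rfl⟩ | ⟨j', hj', rfl⟩ | ⟨x', u', hx', hu', rfl⟩ <;>
    simp only [cdV] at h1
  · have : x = x' := by omega
    rw [this]
  · omega
  · omega
  · omega
  · have : j = j' := by omega
    rw [this]
  · omega
  · omega
  · omega
  · obtain ⟨rfl, rfl⟩ := inj_aux hu hu' (by omega : 6 * m * x + u = 6 * m * x' + u')
    rfl

lemma cc_inj : Set.InjOn (cc m) (VC m) := by
  intro c hc c' hc' heq
  cases c <;> cases c' <;> simp only [cc] at heq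
  · rfl
  · omega
  · omega
  · omega
  · rfl
  · omega
  · omega
  · omega
  · rename_i x u x' u'
    have h3 : 6 * m * x + u = 6 * m * x' + u' := by omega
    obtain ⟨rfl, rfl⟩ := inj_aux (k := 6 * m) hc hc' h3
    rfl

lemma mem_elems {e : El} : e ∈ elems (3 * m) var sg ↔
    (∃ x < 3 * m, ∃ u < 6 * m, e ∈ S1 x (6 * m * x + u) (6 * m * x + (u + 1) % (6 * m))) ∨
    (∃ t < 3 * m, e ∈ S2 (t / 3) (6 * m * var t + 2 * t) (if sg t then 1 else 0)) ∨
    (∃ j < m, e ∈ S3 j) := by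
  have h1 : 2 * (3 * m) = 6 * m := by ring
  have h2 : 3 * m / 3 = m := by omega
  simp only [elems, h1, h2, List.mem_append, List.mem_flatMap, List.mem_range]
  exact or_assoc

lemma mem_A_of {w w' : Vx × Fin 4} (h : (w, w') ∈ (inst (3 * m) m var sg).A) :
    El.A (cd m w) (cd m w') ∈ elems (3 * m) var sg := by
  obtain ⟨v, b⟩ := w
  obtain ⟨v', b'⟩ := w'
  obtain ⟨hp, hadj⟩ := h
  rw [mem_elems]
  unfold Inst.PSide at hp
  simp only at hp
  rcases hadj with ⟨hb, he | he⟩ | ⟨hv, hV, i, hi, hb⟩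
  · simp only at hb he
    subst hb
    rcases mem_E.mp he with ⟨x, u, hx, hu, rfl, rfl⟩ | ⟨t, ht, rfl, rfl⟩
    · left
      refine ⟨x, hx, u, hu, ?_⟩
      simp only [inst] at hp
      fin_cases b
      · simp [S1, cd, cdV]; omega
      · simp [par] at hp
      · simp [S1, cd, cdV]; omega
      · simp [par] at hp
    · right; left
      refine ⟨t, ht, ?_⟩
      simp only [inst] at hp
      fin_cases b
      · simp [S2, cd, cdV]; omega
      · simp [par] at hp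
      · simp [S2, cd, cdV]; omega
      · simp [par] at hp
  · simp only at hb he
    subst hb
    rcases mem_E.mp he with ⟨x, u, hx, hu, rfl, rfl⟩ | ⟨t, ht, rfl, rfl⟩
    · left
      refine ⟨x, hx, u, hu, ?_⟩
      simp only [inst] at hp
      fin_cases b
      · simp [par] at hp
      · simp [S1, cd, cdV]; omega
      · simp [par] at hp
      · simp [S1, cd, cdV]; omega
    · right; left
      refine ⟨t, ht, ?_⟩
      simp only [inst] at hp
      fin_cases b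
      · simp [par] at hp
      · simp [S2, cd, cdV]; omega
      · simp [par] at hp
      · simp [S2, cd, cdV]; omega
  · simp only at hv hV hi hb
    subst hv hb
    rcases mem_VV.mp hV with ⟨x, hx, rfl⟩ | ⟨j, hj, rfl⟩ | ⟨x, u, hx, hu, rfl⟩
    · simp [inst] at hi
    · right; right
      refine ⟨j, hj, ?_⟩
      simp only [inst] at hp hi
      interval_cases i
      · fin_cases b
        · simp [S3, cd, cdV, f]; omega
        · simp [par] at hp
        · simp [S3, cd, cdV, f]; omega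
        · simp [par] at hp
      · fin_cases b
        · simp [S3, cd, cdV, f]; omega
        · simp [par] at hp
        · simp [S3, cd, cdV, f]; omega
        · simp [par] at hp
    · simp only [inst] at hp hi
      have hi' : i = 0 ∨ (i = 1 ∧ occ var x u) := by
        split_ifs at hi with ho
        · interval_cases i
          · exact Or.inl rfl
          · exact Or.inr ⟨rfl, ho⟩
        · left; omega
      rcases hi' with rfl | ⟨rfl, ho⟩
      · left
        refine ⟨x, hx, u, hu, ?_⟩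
        fin_cases b
        · simp [par] at hp
        · simp [S1, cd, cdV, f]; omega
        · simp [par] at hp
        · simp [S1, cd, cdV, f]; omega
      · right; left
        obtain ⟨h1, h2⟩ := ho
        refine ⟨u / 2, by omega, ?_⟩
        have hu2 : 2 * (u / 2) = u := by omega
        rw [h2, hu2]
        fin_cases b
        · simp [par] at hp
        · simp [S2, cd, cdV, f]; omega
        · simp [par] at hp
        · simp [S2, cd, cdV, f]; omega

lemma A_of_mem (hvar : ∀ t < 3 * m, var t < 3 * m) {p q : ℕ}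
    (h : El.A p q ∈ elems (3 * m) var sg) :
    ∃ w w', (w, w') ∈ (inst (3 * m) m var sg).A ∧ cd m w = p ∧ cd m w' = q := by
  rcases mem_elems.mp h with ⟨x, hx, u, hu, h⟩ | ⟨t, ht, h⟩ | ⟨j, hj, h⟩
  · have hE : (Vx.X x, Vx.v x u) ∈ (inst (3 * m) m var sg).E :=
      mem_E.mpr (Or.inl ⟨x, u, hx, hu, rfl, rfl⟩)
    have hV : Vx.v x u ∈ (inst (3 * m) m var sg).VV :=
      mem_VV.mpr (Or.inr (Or.inr ⟨x, u, hx, hu, rfl⟩))
    have hφ : 0 < (inst (3 * m) m var sg).φ (Vx.v x u) := by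
      simp only [inst]; split_ifs <;> omega
    simp only [S1, List.mem_cons, El.A.injEq, reduceCtorEq, List.not_mem_nil,
      or_false] at h
    rcases h with ⟨rfl, rfl⟩ | ⟨rfl, rfl⟩ | ⟨rfl, rfl⟩ | ⟨rfl, rfl⟩ | ⟨rfl, rfl⟩ | ⟨rfl, rfl⟩
    · exact ⟨(.X x, 0), (.v x u, 0), ⟨rfl, Or.inl ⟨rfl, Or.inl hE⟩⟩,
        by simp [cd, cdV]; omega, by simp [cd, cdV]; omega⟩
    · exact ⟨(.X x, 2), (.v x u, 2), ⟨rfl, Or.inl ⟨rfl, Or.inl hE⟩⟩,
        by simp [cd, cdV]; omega, by simp [cd, cdV]; omega⟩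
    · exact ⟨(.v x u, 1), (.X x, 1), ⟨rfl, Or.inl ⟨rfl, Or.inr hE⟩⟩,
        by simp [cd, cdV]; omega, by simp [cd, cdV]; omega⟩
    · exact ⟨(.v x u, 3), (.X x, 3), ⟨rfl, Or.inl ⟨rfl, Or.inr hE⟩⟩,
        by simp [cd, cdV]; omega, by simp [cd, cdV]; omega⟩
    · exact ⟨(.v x u, 1), (.v x u, 0), ⟨rfl, Or.inr ⟨rfl, hV, 0, hφ, rfl⟩⟩,
        by simp [cd, cdV]; omega, by simp [cd, cdV]; omega⟩
    · exact ⟨(.v x u, 3), (.v x u, 2), ⟨rfl, Or.inr ⟨rfl, hV, 0, hφ, rfl⟩⟩,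
        by simp [cd, cdV]; omega, by simp [cd, cdV]; omega⟩
  · have hE : (Vx.c (t / 3), Vx.v (var t) (2 * t)) ∈ (inst (3 * m) m var sg).E :=
      mem_E.mpr (Or.inr ⟨t, ht, rfl, rfl⟩)
    have hV : Vx.v (var t) (2 * t) ∈ (inst (3 * m) m var sg).VV :=
      mem_VV.mpr (Or.inr (Or.inr ⟨var t, 2 * t, hvar t ht, by omega, rfl⟩))
    have hocc : occ var (var t) (2 * t) := by
      refine ⟨by omega, ?_⟩
      have : 2 * t / 2 = t := by omega
      rw [this]
    have hφ : 1 < (inst (3 * m) m var sg).φ (Vx.v (var t) (2 * t)) := by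
      simp only [inst, if_pos hocc]; omega
    simp only [S2, List.mem_cons, El.A.injEq, reduceCtorEq, List.not_mem_nil,
      or_false] at h
    rcases h with ⟨rfl, rfl⟩ | ⟨rfl, rfl⟩ | ⟨rfl, rfl⟩ | ⟨rfl, rfl⟩ | ⟨rfl, rfl⟩ | ⟨rfl, rfl⟩
    · exact ⟨(.c (t / 3), 0), (.v (var t) (2 * t), 0), ⟨rfl, Or.inl ⟨rfl, Or.inl hE⟩⟩,
        by simp [cd, cdV]; omega, by simp [cd, cdV]; omega⟩
    · exact ⟨(.c (t / 3), 2), (.v (var t) (2 * t), 2), ⟨rfl, Or.inl ⟨rfl, Or.inl hE⟩⟩,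
        by simp [cd, cdV]; omega, by simp [cd, cdV]; omega⟩
    · exact ⟨(.v (var t) (2 * t), 1), (.c (t / 3), 1), ⟨rfl, Or.inl ⟨rfl, Or.inr hE⟩⟩,
        by simp [cd, cdV]; omega, by simp [cd, cdV]; omega⟩
    · exact ⟨(.v (var t) (2 * t), 3), (.c (t / 3), 3), ⟨rfl, Or.inl ⟨rfl, Or.inr hE⟩⟩,
        by simp [cd, cdV]; omega, by simp [cd, cdV]; omega⟩
    · exact ⟨(.v (var t) (2 * t), 1), (.v (var t) (2 * t), 2),
        ⟨rfl, Or.inr ⟨rfl, hV, 1, hφ, rfl⟩⟩,
        by simp [cd, cdV]; omega, by simp [cd, cdV]; omega⟩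
    · exact ⟨(.v (var t) (2 * t), 3), (.v (var t) (2 * t), 0),
        ⟨rfl, Or.inr ⟨rfl, hV, 1, hφ, rfl⟩⟩,
        by simp [cd, cdV]; omega, by simp [cd, cdV]; omega⟩
  · have hV : Vx.c j ∈ (inst (3 * m) m var sg).VV :=
      mem_VV.mpr (Or.inr (Or.inl ⟨j, hj, rfl⟩))
    have hφ0 : 0 < (inst (3 * m) m var sg).φ (Vx.c j) := by simp [inst]
    have hφ1 : 1 < (inst (3 * m) m var sg).φ (Vx.c j) := by simp [inst]
    simp only [S3, List.mem_cons, El.A.injEq, reduceCtorEq, List.not_mem_nil,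
      or_false] at h
    rcases h with ⟨rfl, rfl⟩ | ⟨rfl, rfl⟩ | ⟨rfl, rfl⟩ | ⟨rfl, rfl⟩
    · exact ⟨(.c j, 0), (.c j, 1), ⟨rfl, Or.inr ⟨rfl, hV, 0, hφ0, rfl⟩⟩,
        by simp [cd, cdV]; omega, by simp [cd, cdV]; omega⟩
    · exact ⟨(.c j, 2), (.c j, 3), ⟨rfl, Or.inr ⟨rfl, hV, 0, hφ0, rfl⟩⟩,
        by simp [cd, cdV]; omega, by simp [cd, cdV]; omega⟩
    · exact ⟨(.c j, 0), (.c j, 3), ⟨rfl, Or.inr ⟨rfl, hV, 1, hφ1, rfl⟩⟩,
        by simp [cd, cdV]; omega, by simp [cd, cdV]; omega⟩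
    · exact ⟨(.c j, 2), (.c j, 1), ⟨rfl, Or.inr ⟨rfl, hV, 1, hφ1, rfl⟩⟩,
        by simp [cd, cdV]; omega, by simp [cd, cdV]; omega⟩

/-- The colour lists, as codes -/
lemma mem_L_X {x : ℕ} {c : Col} : c ∈ (inst n m var sg).L (.X x) ↔ ∃ u < 6 * m, c = .a x u := by
  simp only [inst, Finset.mem_image, Finset.mem_range]
  constructor
  · rintro ⟨u, hu, rfl⟩; exact ⟨u, hu, rfl⟩
  · rintro ⟨u, hu, rfl⟩; exact ⟨u, hu, rfl⟩

lemma mem_L_c {j : ℕ} {c : Col} : c ∈ (inst n m var sg).L (.c j) ↔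
    c = .β ∨ c = .γ ∨ ∃ t, t / 3 = j ∧ c = w var sg t := by
  simp only [inst, Finset.mem_insert, Finset.mem_singleton]
  constructor
  · rintro (h | h | h | h | h)
    · exact Or.inl h
    · exact Or.inr (Or.inl h)
    · exact Or.inr (Or.inr ⟨3 * j, by omega, h⟩)
    · exact Or.inr (Or.inr ⟨3 * j + 1, by omega, h⟩)
    · exact Or.inr (Or.inr ⟨3 * j + 2, by omega, h⟩)
  · rintro (h | h | ⟨t, ht, h⟩)
    · exact Or.inl h
    · exact Or.inr (Or.inl h)
    · right; right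
      have : t = 3 * j ∨ t = 3 * j + 1 ∨ t = 3 * j + 2 := by omega
      rcases this with rfl | rfl | rfl
      · exact Or.inl h
      · exact Or.inr (Or.inl h)
      · exact Or.inr (Or.inr h)

lemma mem_L_v {x u : ℕ} {c : Col} : c ∈ (inst n m var sg).L (.v x u) ↔
    c = .a x u ∨ c = .a x ((u + 1) % (6 * m)) ∨ (occ var x u ∧ (c = .β ∨ c = .γ)) := by
  simp only [inst, Finset.mem_union, Finset.mem_insert, Finset.mem_singleton]
  split_ifs with ho
  · simp [ho, or_assoc]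
  · simp [ho]

lemma cc_w (t : ℕ) : cc m (w var sg t) = 6 * m * var t + 2 * t + (if sg t then 1 else 0) + 2 := by
  simp only [w, cc]
  omega

lemma mem_B_of {w : Vx × Fin 4} {c : Col} (h : (w, c) ∈ (inst (3 * m) m var sg).B) :
    El.B (cd m w) (cc m c) ∈ elems (3 * m) var sg := by
  obtain ⟨v, b⟩ := w
  obtain ⟨hV, hp, hc⟩ := h
  rw [mem_elems]
  unfold Inst.PSide at hp
  simp only at hp hV hc
  rcases mem_VV.mp hV with ⟨x, hx, rfl⟩ | ⟨j, hj, rfl⟩ | ⟨x, u, hx, hu, rfl⟩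
  · obtain ⟨u, hu, rfl⟩ := mem_L_X.mp hc
    left
    refine ⟨x, hx, u, hu, ?_⟩
    simp only [inst] at hp
    fin_cases b
    · simp [S1, cd, cdV, cc]; omega
    · simp [par] at hp
    · simp [S1, cd, cdV, cc]; omega
    · simp [par] at hp
  · simp only [inst] at hp
    rcases mem_L_c.mp hc with rfl | rfl | ⟨t, ht, rfl⟩
    · right; right
      refine ⟨j, hj, ?_⟩
      fin_cases b
      · simp [S3, cd, cdV, cc]; omega
      · simp [par] at hp
      · simp [S3, cd, cdV, cc]; omega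
      · simp [par] at hp
    · right; right
      refine ⟨j, hj, ?_⟩
      fin_cases b
      · simp [S3, cd, cdV, cc]; omega
      · simp [par] at hp
      · simp [S3, cd, cdV, cc]; omega
      · simp [par] at hp
    · right; left
      refine ⟨t, by omega, ?_⟩
      rw [cc_w, ht]
      generalize (if sg t = true then 1 else 0) = s
      fin_cases b
      · simp [S2, cd, cdV]; omega
      · simp [par] at hp
      · simp [S2, cd, cdV]; omega
      · simp [par] at hp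
  · simp only [inst] at hp
    rcases mem_L_v.mp hc with rfl | rfl | ⟨ho, rfl | rfl⟩
    · left
      refine ⟨x, hx, u, hu, ?_⟩
      fin_cases b
      · simp [par] at hp
      · simp [S1, cd, cdV, cc]; omega
      · simp [par] at hp
      · simp [S1, cd, cdV, cc]; omega
    · left
      refine ⟨x, hx, u, hu, ?_⟩
      fin_cases b
      · simp [par] at hp
      · simp [S1, cd, cdV, cc]; omega
      · simp [par] at hp
      · simp [S1, cd, cdV, cc]; omega
    · right; left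
      obtain ⟨h1, h2⟩ := ho
      refine ⟨u / 2, by omega, ?_⟩
      have hu2 : 2 * (u / 2) = u := by omega
      rw [h2, hu2]
      fin_cases b
      · simp [par] at hp
      · simp [S2, cd, cdV, cc]; omega
      · simp [par] at hp
      · simp [S2, cd, cdV, cc]; omega
    · right; left
      obtain ⟨h1, h2⟩ := ho
      refine ⟨u / 2, by omega, ?_⟩
      have hu2 : 2 * (u / 2) = u := by omega
      rw [h2, hu2]
      fin_cases b
      · simp [par] at hp
      · simp [S2, cd, cdV, cc]; omega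
      · simp [par] at hp
      · simp [S2, cd, cdV, cc]; omega

lemma mem_C_of {w : Vx × Fin 4} {c : Col} (h : (w, c) ∈ (inst (3 * m) m var sg).C) :
    El.C (cd m w) (cc m c) ∈ elems (3 * m) var sg := by
  obtain ⟨v, b⟩ := w
  obtain ⟨hV, hp, hc⟩ := h
  rw [mem_elems]
  unfold Inst.PSide at hp
  simp only at hp hV hc
  rcases mem_VV.mp hV with ⟨x, hx, rfl⟩ | ⟨j, hj, rfl⟩ | ⟨x, u, hx, hu, rfl⟩
  · obtain ⟨u, hu, rfl⟩ := mem_L_X.mp hc
    left
    refine ⟨x, hx, u, hu, ?_⟩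
    simp only [inst] at hp
    fin_cases b
    · simp [par] at hp
    · simp [S1, cd, cdV, cc]; omega
    · simp [par] at hp
    · simp [S1, cd, cdV, cc]; omega
  · simp only [inst] at hp
    rcases mem_L_c.mp hc with rfl | rfl | ⟨t, ht, rfl⟩
    · right; right
      refine ⟨j, hj, ?_⟩
      fin_cases b
      · simp [par] at hp
      · simp [S3, cd, cdV, cc]; omega
      · simp [par] at hp
      · simp [S3, cd, cdV, cc]; omega
    · right; right
      refine ⟨j, hj, ?_⟩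
      fin_cases b
      · simp [par] at hp
      · simp [S3, cd, cdV, cc]; omega
      · simp [par] at hp
      · simp [S3, cd, cdV, cc]; omega
    · right; left
      refine ⟨t, by omega, ?_⟩
      rw [cc_w, ht]
      generalize (if sg t = true then 1 else 0) = s
      fin_cases b
      · simp [par] at hp
      · simp [S2, cd, cdV]; omega
      · simp [par] at hp
      · simp [S2, cd, cdV]; omega
  · simp only [inst] at hp
    rcases mem_L_v.mp hc with rfl | rfl | ⟨ho, rfl | rfl⟩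
    · left
      refine ⟨x, hx, u, hu, ?_⟩
      fin_cases b
      · simp [S1, cd, cdV, cc]; omega
      · simp [par] at hp
      · simp [S1, cd, cdV, cc]; omega
      · simp [par] at hp
    · left
      refine ⟨x, hx, u, hu, ?_⟩
      fin_cases b
      · simp [S1, cd, cdV, cc]; omega
      · simp [par] at hp
      · simp [S1, cd, cdV, cc]; omega
      · simp [par] at hp
    · right; left
      obtain ⟨h1, h2⟩ := ho
      refine ⟨u / 2, by omega, ?_⟩
      have hu2 : 2 * (u / 2) = u := by omega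
      rw [h2, hu2]
      fin_cases b
      · simp [S2, cd, cdV, cc]; omega
      · simp [par] at hp
      · simp [S2, cd, cdV, cc]; omega
      · simp [par] at hp
    · right; left
      obtain ⟨h1, h2⟩ := ho
      refine ⟨u / 2, by omega, ?_⟩
      have hu2 : 2 * (u / 2) = u := by omega
      rw [h2, hu2]
      fin_cases b
      · simp [S2, cd, cdV, cc]; omega
      · simp [par] at hp
      · simp [S2, cd, cdV, cc]; omega
      · simp [par] at hp

lemma B_of_mem (hvar : ∀ t < 3 * m, var t < 3 * m) {p r : ℕ}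
    (h : El.B p r ∈ elems (3 * m) var sg) :
    ∃ w c, (w, c) ∈ (inst (3 * m) m var sg).B ∧ cd m w = p ∧ cc m c = r := by
  rcases mem_elems.mp h with ⟨x, hx, u, hu, h⟩ | ⟨t, ht, h⟩ | ⟨j, hj, h⟩
  · have hX : Vx.X x ∈ (inst (3 * m) m var sg).VV := mem_VV.mpr (Or.inl ⟨x, hx, rfl⟩)
    have hV : Vx.v x u ∈ (inst (3 * m) m var sg).VV :=
      mem_VV.mpr (Or.inr (Or.inr ⟨x, u, hx, hu, rfl⟩))
    have c0 : Col.a x u ∈ (inst (3 * m) m var sg).L (.X x) := mem_L_X.mpr ⟨u, hu, rfl⟩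
    have c1 : Col.a x u ∈ (inst (3 * m) m var sg).L (.v x u) := mem_L_v.mpr (Or.inl rfl)
    have c2 : Col.a x ((u + 1) % (6 * m)) ∈ (inst (3 * m) m var sg).L (.v x u) :=
      mem_L_v.mpr (Or.inr (Or.inl rfl))
    simp only [S1, List.mem_cons, El.B.injEq, reduceCtorEq, List.not_mem_nil, false_or,
      or_false] at h
    rcases h with ⟨rfl, rfl⟩ | ⟨rfl, rfl⟩ | ⟨rfl, rfl⟩ | ⟨rfl, rfl⟩ | ⟨rfl, rfl⟩ | ⟨rfl, rfl⟩
    · exact ⟨(.X x, 0), .a x u, ⟨hX, rfl, c0⟩,
        by simp [cd, cdV]; omega, by simp [cc]⟩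
    · exact ⟨(.X x, 2), .a x u, ⟨hX, rfl, c0⟩,
        by simp [cd, cdV]; omega, by simp [cc]⟩
    · exact ⟨(.v x u, 1), .a x u, ⟨hV, rfl, c1⟩,
        by simp [cd, cdV]; omega, by simp [cc]⟩
    · exact ⟨(.v x u, 3), .a x u, ⟨hV, rfl, c1⟩,
        by simp [cd, cdV]; omega, by simp [cc]⟩
    · exact ⟨(.v x u, 1), .a x ((u + 1) % (6 * m)), ⟨hV, rfl, c2⟩,
        by simp [cd, cdV]; omega, by simp [cc]⟩
    · exact ⟨(.v x u, 3), .a x ((u + 1) % (6 * m)), ⟨hV, rfl, c2⟩,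
        by simp [cd, cdV]; omega, by simp [cc]⟩
  · have hV : Vx.v (var t) (2 * t) ∈ (inst (3 * m) m var sg).VV :=
      mem_VV.mpr (Or.inr (Or.inr ⟨var t, 2 * t, hvar t ht, by omega, rfl⟩))
    have hc : Vx.c (t / 3) ∈ (inst (3 * m) m var sg).VV :=
      mem_VV.mpr (Or.inr (Or.inl ⟨t / 3, by omega, rfl⟩))
    have hocc : occ var (var t) (2 * t) := by
      refine ⟨by omega, ?_⟩
      have : 2 * t / 2 = t := by omega
      rw [this]
    have c1 : Col.β ∈ (inst (3 * m) m var sg).L (.v (var t) (2 * t)) :=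
      mem_L_v.mpr (Or.inr (Or.inr ⟨hocc, Or.inl rfl⟩))
    have c2 : Col.γ ∈ (inst (3 * m) m var sg).L (.v (var t) (2 * t)) :=
      mem_L_v.mpr (Or.inr (Or.inr ⟨hocc, Or.inr rfl⟩))
    have c3 : w var sg t ∈ (inst (3 * m) m var sg).L (.c (t / 3)) :=
      mem_L_c.mpr (Or.inr (Or.inr ⟨t, rfl, rfl⟩))
    simp only [S2, List.mem_cons, El.B.injEq, reduceCtorEq, List.not_mem_nil, false_or,
      or_false] at h
    rcases h with ⟨rfl, rfl⟩ | ⟨rfl, rfl⟩ | ⟨rfl, rfl⟩ | ⟨rfl, rfl⟩ | ⟨rfl, rfl⟩ | ⟨rfl, rfl⟩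
    · exact ⟨(.v (var t) (2 * t), 1), .β, ⟨hV, rfl, c1⟩,
        by simp [cd, cdV]; omega, by simp [cc]⟩
    · exact ⟨(.v (var t) (2 * t), 1), .γ, ⟨hV, rfl, c2⟩,
        by simp [cd, cdV]; omega, by simp [cc]⟩
    · exact ⟨(.v (var t) (2 * t), 3), .β, ⟨hV, rfl, c1⟩,
        by simp [cd, cdV]; omega, by simp [cc]⟩
    · exact ⟨(.v (var t) (2 * t), 3), .γ, ⟨hV, rfl, c2⟩,
        by simp [cd, cdV]; omega, by simp [cc]⟩
    · exact ⟨(.c (t / 3), 0), w var sg t, ⟨hc, rfl, c3⟩,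
        by simp [cd, cdV]; omega, cc_w t⟩
    · exact ⟨(.c (t / 3), 2), w var sg t, ⟨hc, rfl, c3⟩,
        by simp [cd, cdV]; omega, cc_w t⟩
  · have hV : Vx.c j ∈ (inst (3 * m) m var sg).VV :=
      mem_VV.mpr (Or.inr (Or.inl ⟨j, hj, rfl⟩))
    have c1 : Col.β ∈ (inst (3 * m) m var sg).L (.c j) := mem_L_c.mpr (Or.inl rfl)
    have c2 : Col.γ ∈ (inst (3 * m) m var sg).L (.c j) := mem_L_c.mpr (Or.inr (Or.inl rfl))
    simp only [S3, List.mem_cons, El.B.injEq, reduceCtorEq, List.not_mem_nil, false_or,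
      or_false] at h
    rcases h with ⟨rfl, rfl⟩ | ⟨rfl, rfl⟩ | ⟨rfl, rfl⟩ | ⟨rfl, rfl⟩
    · exact ⟨(.c j, 0), .β, ⟨hV, rfl, c1⟩, by simp [cd, cdV]; omega, by simp [cc]⟩
    · exact ⟨(.c j, 0), .γ, ⟨hV, rfl, c2⟩, by simp [cd, cdV]; omega, by simp [cc]⟩
    · exact ⟨(.c j, 2), .β, ⟨hV, rfl, c1⟩, by simp [cd, cdV]; omega, by simp [cc]⟩
    · exact ⟨(.c j, 2), .γ, ⟨hV, rfl, c2⟩, by simp [cd, cdV]; omega, by simp [cc]⟩

lemma C_of_mem (hvar : ∀ t < 3 * m, var t < 3 * m) {p r : ℕ}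
    (h : El.C p r ∈ elems (3 * m) var sg) :
    ∃ w c, (w, c) ∈ (inst (3 * m) m var sg).C ∧ cd m w = p ∧ cc m c = r := by
  have np : ∀ (v : Vx) (b : Fin 4), (inst (3 * m) m var sg).side v ≠ par b →
      ¬ (inst (3 * m) m var sg).PSide (v, b) := fun v b h => h
  rcases mem_elems.mp h with ⟨x, hx, u, hu, h⟩ | ⟨t, ht, h⟩ | ⟨j, hj, h⟩
  · have hX : Vx.X x ∈ (inst (3 * m) m var sg).VV := mem_VV.mpr (Or.inl ⟨x, hx, rfl⟩)
    have hV : Vx.v x u ∈ (inst (3 * m) m var sg).VV :=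
      mem_VV.mpr (Or.inr (Or.inr ⟨x, u, hx, hu, rfl⟩))
    have c0 : Col.a x u ∈ (inst (3 * m) m var sg).L (.X x) := mem_L_X.mpr ⟨u, hu, rfl⟩
    have c1 : Col.a x u ∈ (inst (3 * m) m var sg).L (.v x u) := mem_L_v.mpr (Or.inl rfl)
    have c2 : Col.a x ((u + 1) % (6 * m)) ∈ (inst (3 * m) m var sg).L (.v x u) :=
      mem_L_v.mpr (Or.inr (Or.inl rfl))
    simp only [S1, List.mem_cons, El.C.injEq, reduceCtorEq, List.not_mem_nil, false_or,
      or_false] at h
    rcases h with ⟨rfl, rfl⟩ | ⟨rfl, rfl⟩ | ⟨rfl, rfl⟩ | ⟨rfl, rfl⟩ | ⟨rfl, rfl⟩ | ⟨rfl, rfl⟩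
    · exact ⟨(.X x, 1), .a x u, ⟨hX, np _ _ (by simp [inst, par]), c0⟩,
        by simp [cd, cdV]; omega, by simp [cc]⟩
    · exact ⟨(.X x, 3), .a x u, ⟨hX, np _ _ (by simp [inst, par]), c0⟩,
        by simp [cd, cdV]; omega, by simp [cc]⟩
    · exact ⟨(.v x u, 0), .a x u, ⟨hV, np _ _ (by simp [inst, par]), c1⟩,
        by simp [cd, cdV]; omega, by simp [cc]⟩
    · exact ⟨(.v x u, 2), .a x u, ⟨hV, np _ _ (by simp [inst, par]), c1⟩,
        by simp [cd, cdV]; omega, by simp [cc]⟩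
    · exact ⟨(.v x u, 0), .a x ((u + 1) % (6 * m)), ⟨hV, np _ _ (by simp [inst, par]), c2⟩,
        by simp [cd, cdV]; omega, by simp [cc]⟩
    · exact ⟨(.v x u, 2), .a x ((u + 1) % (6 * m)), ⟨hV, np _ _ (by simp [inst, par]), c2⟩,
        by simp [cd, cdV]; omega, by simp [cc]⟩
  · have hV : Vx.v (var t) (2 * t) ∈ (inst (3 * m) m var sg).VV :=
      mem_VV.mpr (Or.inr (Or.inr ⟨var t, 2 * t, hvar t ht, by omega, rfl⟩))
    have hc : Vx.c (t / 3) ∈ (inst (3 * m) m var sg).VV :=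
      mem_VV.mpr (Or.inr (Or.inl ⟨t / 3, by omega, rfl⟩))
    have hocc : occ var (var t) (2 * t) := by
      refine ⟨by omega, ?_⟩
      have : 2 * t / 2 = t := by omega
      rw [this]
    have c1 : Col.β ∈ (inst (3 * m) m var sg).L (.v (var t) (2 * t)) :=
      mem_L_v.mpr (Or.inr (Or.inr ⟨hocc, Or.inl rfl⟩))
    have c2 : Col.γ ∈ (inst (3 * m) m var sg).L (.v (var t) (2 * t)) :=
      mem_L_v.mpr (Or.inr (Or.inr ⟨hocc, Or.inr rfl⟩))
    have c3 : w var sg t ∈ (inst (3 * m) m var sg).L (.c (t / 3)) :=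
      mem_L_c.mpr (Or.inr (Or.inr ⟨t, rfl, rfl⟩))
    simp only [S2, List.mem_cons, El.C.injEq, reduceCtorEq, List.not_mem_nil, false_or,
      or_false] at h
    rcases h with ⟨rfl, rfl⟩ | ⟨rfl, rfl⟩ | ⟨rfl, rfl⟩ | ⟨rfl, rfl⟩ | ⟨rfl, rfl⟩ | ⟨rfl, rfl⟩
    · exact ⟨(.v (var t) (2 * t), 0), .β, ⟨hV, np _ _ (by simp [inst, par]), c1⟩,
        by simp [cd, cdV]; omega, by simp [cc]⟩
    · exact ⟨(.v (var t) (2 * t), 0), .γ, ⟨hV, np _ _ (by simp [inst, par]), c2⟩,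
        by simp [cd, cdV]; omega, by simp [cc]⟩
    · exact ⟨(.v (var t) (2 * t), 2), .β, ⟨hV, np _ _ (by simp [inst, par]), c1⟩,
        by simp [cd, cdV]; omega, by simp [cc]⟩
    · exact ⟨(.v (var t) (2 * t), 2), .γ, ⟨hV, np _ _ (by simp [inst, par]), c2⟩,
        by simp [cd, cdV]; omega, by simp [cc]⟩
    · exact ⟨(.c (t / 3), 1), w var sg t, ⟨hc, np _ _ (by simp [inst, par]), c3⟩,
        by simp [cd, cdV]; omega, cc_w t⟩
    · exact ⟨(.c (t / 3), 3), w var sg t, ⟨hc, np _ _ (by simp [inst, par]), c3⟩,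
        by simp [cd, cdV]; omega, cc_w t⟩
  · have hV : Vx.c j ∈ (inst (3 * m) m var sg).VV :=
      mem_VV.mpr (Or.inr (Or.inl ⟨j, hj, rfl⟩))
    have c1 : Col.β ∈ (inst (3 * m) m var sg).L (.c j) := mem_L_c.mpr (Or.inl rfl)
    have c2 : Col.γ ∈ (inst (3 * m) m var sg).L (.c j) := mem_L_c.mpr (Or.inr (Or.inl rfl))
    simp only [S3, List.mem_cons, El.C.injEq, reduceCtorEq, List.not_mem_nil, false_or,
      or_false] at h
    rcases h with ⟨rfl, rfl⟩ | ⟨rfl, rfl⟩ | ⟨rfl, rfl⟩ | ⟨rfl, rfl⟩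
    · exact ⟨(.c j, 1), .β, ⟨hV, np _ _ (by simp [inst, par]), c1⟩,
        by simp [cd, cdV]; omega, by simp [cc]⟩
    · exact ⟨(.c j, 1), .γ, ⟨hV, np _ _ (by simp [inst, par]), c2⟩,
        by simp [cd, cdV]; omega, by simp [cc]⟩
    · exact ⟨(.c j, 3), .β, ⟨hV, np _ _ (by simp [inst, par]), c1⟩,
        by simp [cd, cdV]; omega, by simp [cc]⟩
    · exact ⟨(.c j, 3), .γ, ⟨hV, np _ _ (by simp [inst, par]), c2⟩,
        by simp [cd, cdV]; omega, by simp [cc]⟩

/-- **Combinatorial part of the reduction.** -/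
theorem sat_iff_partition (hvar : ∀ t < 3 * m, var t < 3 * m) :
    Sat m var sg ↔
      ∃ T : Finset (Finset El), IsTriPartition (elems (3 * m) var sg).toFinset T ∧
        ∀ t ∈ T, Good t := by
  have hwf := wf (sg := sg) hvar
  have h1 : Sat m var sg ↔ ∃ χ, (inst (3 * m) m var sg).Proper χ :=
    ⟨fun h => proper_of_sat h, fun ⟨χ, h⟩ => sat_of_proper hvar h⟩
  have h2 : (∃ χ, (inst (3 * m) m var sg).Proper χ) ↔
      Decomp (inst (3 * m) m var sg).A (inst (3 * m) m var sg).B (inst (3 * m) m var sg).C :=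
    ⟨fun ⟨χ, h⟩ => Inst.complete _ hwf χ h, fun h => Inst.sound _ hwf h⟩
  rw [h1, h2]
  have hadjV : ∀ w w', (inst (3 * m) m var sg).Adj w w' →
      w.1 ∈ (inst (3 * m) m var sg).VV ∧ w'.1 ∈ (inst (3 * m) m var sg).VV := by
    rintro w w' (⟨_, he | he⟩ | ⟨hv, hV, _⟩)
    · exact ⟨hwf.mem1 _ _ he, hwf.mem2 _ _ he⟩
    · exact ⟨hwf.mem2 _ _ he, hwf.mem1 _ _ he⟩
    · exact ⟨hV, hv ▸ hV⟩
  have hLV : ∀ v ∈ (inst (3 * m) m var sg).VV, ∀ c ∈ (inst (3 * m) m var sg).L v,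
      c ∈ VC m := by
    intro v hv c hc
    rcases mem_VV.mp hv with ⟨x, hx, rfl⟩ | ⟨j, hj, rfl⟩ | ⟨x, u, hx, hu, rfl⟩
    · obtain ⟨u, hu, rfl⟩ := mem_L_X.mp hc
      exact hu
    · rcases mem_L_c.mp hc with rfl | rfl | ⟨t, ht, rfl⟩
      · trivial
      · trivial
      · show 2 * t + (if sg t then 1 else 0) < 6 * m
        split_ifs <;> omega
    · rcases mem_L_v.mp hc with rfl | rfl | ⟨ho, rfl | rfl⟩
      · exact hu
      · exact Nat.mod_lt _ (by omega)
      · trivial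
      · trivial
  apply decomp_iff _ _ _ (cd m) (cc m) {w | w.1 ∈ (inst (3 * m) m var sg).VV} (VC m) cd_inj cc_inj
  · rintro w w' ⟨_, h⟩
    exact hadjV w w' h
  · rintro w c ⟨h, _, hc⟩
    exact ⟨h, hLV _ h _ hc⟩
  · rintro w c ⟨h, _, hc⟩
    exact ⟨h, hLV _ h _ hc⟩
  · intro p q
    rw [List.mem_toFinset]
    constructor
    · exact A_of_mem hvar
    · rintro ⟨w, w', h, rfl, rfl⟩
      exact mem_A_of h
  · intro p q
    rw [List.mem_toFinset]
    constructor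
    · exact B_of_mem hvar
    · rintro ⟨w, w', h, rfl, rfl⟩
      exact mem_B_of h
  · intro p q
    rw [List.mem_toFinset]
    constructor
    · exact C_of_mem hvar
    · rintro ⟨w, w', h, rfl, rfl⟩
      exact mem_C_of h

end Pool.Agent.H63.Elems
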