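import Mathlib
import Pool.Agent.H63.Elems

set_option autoImplicit false

/-!
# The list of elements has no duplicates; bounds
-/

namespace Pool.Agent.H63.Elems

open Pool.Agent.H63.TriGeom Pool.Agent.H63.TriPart

/-- part of the list to which an element belongs -/
def cls : El → ℕ
  | .A p q => if (p % 12 = 4 ∨ p % 12 = 6) ∧ (q % 12 = 5 ∨ q % 12 = 7) then 3
      else if (p % 12 = 0 ∨ p % 12 = 2 ∨ q % 12 = 1 ∨ q % 12 = 3 ∨ (p % 12 = 9 ∧ q % 12 = 8) ∨
        (p % 12 = 11 ∧ q % 12 = 10)) then 1 else 2
  | .B p r => if p % 12 = 0 ∨ p % 12 = 2 then 1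
      else if p % 12 = 9 ∨ p % 12 = 11 then (if r < 2 then 2 else 1)
      else (if r < 2 then 3 else 2)
  | .C q r => if q % 12 = 1 ∨ q % 12 = 3 then 1
      else if q % 12 = 8 ∨ q % 12 = 10 then (if r < 2 then 2 else 1)
      else (if r < 2 then 3 else 2)

/-- position key -/
def key : El → ℕ
  | .A p q => if q % 12 = 8 ∨ q % 12 = 10 then q / 12 else p / 12
  | .B p r => if p % 12 = 9 ∨ p % 12 = 11 then p / 12 else r - 2
  | .C q r => if q % 12 = 8 ∨ q % 12 = 10 then q / 12 else r - 2

/-- clause key -/
def key3 : El → ℕ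
  | .A p _ => p / 12
  | .B p _ => p / 12
  | .C q _ => q / 12

lemma S1_props {x y y' : ℕ} {e : El} (h : e ∈ S1 x y y') : cls e = 1 ∧ key e = y := by
  simp only [S1, List.mem_cons, List.not_mem_nil, or_false] at h
  rcases h with rfl | rfl | rfl | rfl | rfl | rfl | rfl | rfl | rfl | rfl | rfl | rfl | rfl |
    rfl | rfl | rfl | rfl | rfl <;> simp only [cls, key] <;> constructor <;> split_ifs <;> omega

lemma S2_props {j y s : ℕ} {e : El} (h : e ∈ S2 j y s) :
    cls e = 2 ∧ (key e = y ∨ key e = y + s) := by
  simp only [S2, List.mem_cons, List.not_mem_nil, or_false] at h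
  rcases h with rfl | rfl | rfl | rfl | rfl | rfl | rfl | rfl | rfl | rfl | rfl | rfl | rfl |
    rfl | rfl | rfl | rfl | rfl <;> simp only [cls, key] <;> constructor <;> split_ifs <;> omega

lemma S3_props {j : ℕ} {e : El} (h : e ∈ S3 j) : cls e = 3 ∧ key3 e = j := by
  simp only [S3, List.mem_cons, List.not_mem_nil, or_false] at h
  rcases h with rfl | rfl | rfl | rfl | rfl | rfl | rfl | rfl | rfl | rfl | rfl | rfl <;>
    simp only [cls, key3] <;> constructor <;> (try split_ifs) <;> omega

lemma S1_nodup {x y y' : ℕ} (h : y ≠ y') : (S1 x y y').Nodup := by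
  simp [S1]
  omega

lemma S2_nodup (j y s : ℕ) : (S2 j y s).Nodup := by
  simp [S2]
  omega

lemma S3_nodup (j : ℕ) : (S3 j).Nodup := by
  simp [S3]

lemma flatMap_nodup {N : ℕ} {f : ℕ → List El} (k : El → ℕ) (h1 : ∀ i < N, (f i).Nodup)
    (h2 : ∀ i < N, ∀ e ∈ f i, k e = i) : ((List.range N).flatMap f).Nodup := by
  rw [List.nodup_flatMap]
  refine ⟨fun i hi => h1 i (List.mem_range.mp hi), ?_⟩
  rw [List.pairwise_iff_getElem]
  intro i j hi hj hij
  simp only [List.length_range] at hi hj
  simp only [List.getElem_range, Function.onFun]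
  intro e he he'
  have := h2 i hi e he
  have := h2 j hj e he'
  omega

lemma elems_nodup {m : ℕ} (hm : 0 < m) (var : ℕ → ℕ) (sg : ℕ → Bool) :
    (elems (3 * m) var sg).Nodup := by
  have h1 : 2 * (3 * m) = 6 * m := by ring
  have h2 : 3 * m / 3 = m := by omega
  unfold elems
  rw [h1, h2]
  have hmod : ∀ u < 6 * m, (u + 1) % (6 * m) ≠ u := by
    intro u hu h
    by_cases h' : u + 1 < 6 * m
    · rw [Nat.mod_eq_of_lt h'] at h; omega
    · have : u + 1 = 6 * m := by omega
      rw [this, Nat.mod_self] at h
      omega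
  have hdiv : ∀ x u, u < 6 * m → (6 * m * x + u) / (6 * m) = x ∧ (6 * m * x + u) % (6 * m) = u := by
    intro x u hu
    rw [Nat.mul_add_div (by omega), Nat.div_eq_of_lt hu, Nat.mul_add_mod, Nat.mod_eq_of_lt hu]
    exact ⟨by omega, rfl⟩
  apply List.Nodup.append
  · apply List.Nodup.append
    · apply flatMap_nodup (fun e => key e / (6 * m))
      · intro x hx
        apply flatMap_nodup (fun e => key e % (6 * m))
        · intro u hu
          apply S1_nodup
          have := hmod u hu
          omega
        · intro u hu e he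
          rw [(S1_props he).2]
          exact (hdiv x u hu).2
      · intro x hx e he
        obtain ⟨u, hu, he⟩ := List.mem_flatMap.mp he
        rw [(S1_props he).2]
        exact (hdiv x u (List.mem_range.mp hu)).1
    · apply flatMap_nodup (fun e => key e % (6 * m) / 2)
      · intro t _
        exact S2_nodup _ _ _
      · intro t ht e he
        have hs : (if sg t = true then 1 else 0) < 2 := by split_ifs <;> omega
        rcases (S2_props he).2 with h | h
        · rw [h, (hdiv (var t) (2 * t) (by omega)).2]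
          omega
        · rw [h, Nat.add_assoc, (hdiv (var t) (2 * t + _) (by omega)).2]
          omega
    · intro e he he'
      obtain ⟨x, _, he⟩ := List.mem_flatMap.mp he
      obtain ⟨u, _, he⟩ := List.mem_flatMap.mp he
      obtain ⟨t, _, he'⟩ := List.mem_flatMap.mp he'
      have h1 := (S1_props he).1
      have h2 := (S2_props he').1
      omega
  · apply flatMap_nodup key3
    · intro j _
      exact S3_nodup j
    · intro j _ e he
      exact (S3_props he).2
  · intro e he he'
    obtain ⟨j, _, he'⟩ := List.mem_flatMap.mp he'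
    have h3 := (S3_props he').1
    rcases List.mem_append.mp he with he | he
    · obtain ⟨x, _, he⟩ := List.mem_flatMap.mp he
      obtain ⟨u, _, he⟩ := List.mem_flatMap.mp he
      have h1 := (S1_props he).1
      omega
    · obtain ⟨t, _, he⟩ := List.mem_flatMap.mp he
      have h1 := (S2_props he).1
      omega

end Pool.Agent.H63.Elems
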