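import Mathlib

set_option autoImplicit false

/-!
# Euclidean Max-3DM: maximum perimeter partition of a point set into triangles
-/

namespace Pool.Agent.H63.Max3DM

/-- The point of Euclidean space `ℝˢ` with the given rational coordinates. -/
noncomputable def toPoint {s : ℕ} (v : Fin s → ℚ) : EuclideanSpace ℝ (Fin s) :=
  WithLp.toLp 2 (fun i => ((v i : ℚ) : ℝ))

/-- The perimeter of a triangle `t` (a set of three points): half of the sum of the distances over
all ordered pairs of points of `t`. -/
noncomputable def perimeter {E : Type*} [PseudoMetricSpace E] (t : Finset E) : ℝ :=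
  (∑ x ∈ t, ∑ y ∈ t, dist x y) / 2

/-- `π` is a partition of the point set `P` into triples: all members of `π` are three-element
subsets of `P`, and each point of `P` lies in exactly one of them. -/
def IsTrianglePartition {E : Type*} (P : Set E) (π : Finset (Finset E)) : Prop :=
  (∀ t ∈ π, t.card = 3 ∧ (t : Set E) ⊆ P) ∧ ∀ x ∈ P, ∃! t, t ∈ π ∧ x ∈ t

/-- The decision problem Euclidean Max-3DM in `ℝˢ`. An instance is a list of distinct points of
`ℝˢ` with rational coordinates and a rational threshold `K`; the question is whether the point set
has a partition into triangles with total perimeter at least `K`. -/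
def MaxPerimeter (s : ℕ) (I : List (Fin s → ℚ) × ℚ) : Prop :=
  I.1.Nodup ∧ ∃ π : Finset (Finset (EuclideanSpace ℝ (Fin s))),
    IsTrianglePartition {x | ∃ v ∈ I.1, toPoint v = x} π ∧ ((I.2 : ℚ) : ℝ) ≤ ∑ t ∈ π, perimeter t

end Pool.Agent.H63.Max3DM
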