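import Mathlib
import Pool.Agent.H63.ElemsNodup
import Pool.Agent.H63.Max3DMDefs

set_option autoImplicit false

/-!
# The reduction from 3SAT to Euclidean Max-3DM and its correctness
-/

namespace Pool.Agent.H63.Red

open Pool.Agent.H63.TriGeom Pool.Agent.H63.TriPart Pool.Agent.H63.SatCol
open Pool.Agent.H63.Elems Pool.Agent.H63.Max3DM

/-- The scale of the construction; `N` is the number of literals. -/
def bigM (N : ℕ) : ℕ := 400000 * (24 * N ^ 2 + 24) ^ 4

/-- The first coordinate, the second coordinate and the weight of an element. -/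
def rec (M : ℕ) : El → ℕ × ℕ × ℕ
  | .A p q => (5 * M * (M + 12 * q), 5 * M * (M + 12 * p),
      5 * M * (4 * M - 12 * p - 12 * q) + 180 * p ^ 2 + 240 * q ^ 2)
  | .B p r => (5 * M * (5 * M + 16 * p + 20 * r), 5 * M * (M - 12 * p),
      5 * M * (4 * M + 36 * p + 36 * r) + 180 * p ^ 2 + 144 * r ^ 2)
  | .C q r => (5 * M * (M - 12 * q), 5 * M * (4 * M + 9 * q - 15 * r),
      5 * M * (4 * M + 24 * q - 24 * r) + 240 * q ^ 2 + 144 * r ^ 2)

/-- The vector `(x, y, 0, …, 0)`. -/
def vec (s : ℕ) (x y : ℕ) : Fin s → ℚ := fun i =>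
  if (i : ℕ) = 0 then (x : ℚ) else if (i : ℕ) = 1 then (y : ℚ) else 0

/-- The instance of Max-3DM belonging to a list of elements. -/
def toInst (s : ℕ) (l : List (ℕ × ℕ × ℕ)) : List (Fin s → ℚ) × ℚ :=
  (l.map (fun r => vec s r.1 r.2.1), (((l.map (fun r => r.2.2)).sum - 35 : ℕ) : ℚ))

lemma elems_bd {m : ℕ} (hm : 0 < m) {var : ℕ → ℕ} {sg : ℕ → Bool}
    (hvar : ∀ t < 3 * m, var t < 3 * m) (e : El) (he : e ∈ elems (3 * m) var sg) :
    Bd ((24 * (3 * m) ^ 2 + 24 : ℕ) : ℝ) e := by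
  have key : ∀ x u : ℕ, x < 3 * m → u < 6 * m → 6 * m * x + u < 18 * m ^ 2 := by
    intro x u hx hu
    have : 6 * m * x ≤ 6 * m * (3 * m - 1) := Nat.mul_le_mul_left _ (by omega)
    have h2 : 6 * m * (3 * m - 1) + 6 * m = 18 * m ^ 2 := by
      obtain ⟨k, rfl⟩ : ∃ k, m = k + 1 := ⟨m - 1, by omega⟩
      have : 3 * (k + 1) - 1 = 3 * k + 2 := by omega
      rw [this]; ring
    omega
  have hm2 : m ≤ m ^ 2 := by nlinarith
  have hW : 24 * (3 * m) ^ 2 + 24 = 216 * m ^ 2 + 24 := by ring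
  rw [hW]
  have goal : ∀ a b : ℕ, a ≤ 216 * m ^ 2 + 24 → b ≤ 216 * m ^ 2 + 24 →
      (a : ℝ) ≤ ((216 * m ^ 2 + 24 : ℕ) : ℝ) ∧ (b : ℝ) ≤ ((216 * m ^ 2 + 24 : ℕ) : ℝ) :=
    fun a b ha hb => ⟨by exact_mod_cast ha, by exact_mod_cast hb⟩
  rcases mem_elems.mp he with ⟨x, hx, u, hu, he⟩ | ⟨t, ht, he⟩ | ⟨j, hj, he⟩
  · have k1 := key x u hx hu
    have k2 := key x ((u + 1) % (6 * m)) hx (Nat.mod_lt _ (by omega))
    simp only [S1, List.mem_cons, List.not_mem_nil, or_false] at he
    rcases he with rfl | rfl | rfl | rfl | rfl | rfl | rfl | rfl | rfl | rfl | rfl | rfl | rfl |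
      rfl | rfl | rfl | rfl | rfl <;> apply goal <;> omega
  · have k1 := key (var t) (2 * t) (hvar t ht) (by omega)
    have hs : (if sg t = true then 1 else 0) < 2 := by split_ifs <;> omega
    generalize (if sg t = true then 1 else 0) = s at hs he
    simp only [S2, List.mem_cons, List.not_mem_nil, or_false] at he
    rcases he with rfl | rfl | rfl | rfl | rfl | rfl | rfl | rfl | rfl | rfl | rfl | rfl | rfl |
      rfl | rfl | rfl | rfl | rfl <;> apply goal <;> omega
  · simp only [S3, List.mem_cons, List.not_mem_nil, or_false] at he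
    rcases he with rfl | rfl | rfl | rfl | rfl | rfl | rfl | rfl | rfl | rfl | rfl | rfl <;>
      apply goal <;> omega

lemma elems_length (m : ℕ) (var : ℕ → ℕ) (sg : ℕ → Bool) :
    (elems (3 * m) var sg).length ≤ 3 * (24 * (3 * m) ^ 2 + 24) := by
  have h1 : 2 * (3 * m) = 6 * m := by ring
  have h2 : 3 * m / 3 = m := by omega
  simp only [elems, List.length_append, List.length_flatMap, S1, S2, S3, List.length_cons,
    List.length_nil, List.map_const', List.length_range, List.sum_replicate, smul_eq_mul, h1, h2]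
  nlinarith [sq_nonneg ((m : ℤ) - 1), Nat.zero_le m]

/-- Real coordinates of an element. -/
lemma rec_cast {M : ℕ} {W : ℕ} (hM : 1000 * W ≤ M) {e : El} (he : Bd (W : ℝ) e) :
    ((rec M e).1 : ℝ) = 5 * M * (M + cx M e) ∧ ((rec M e).2.1 : ℝ) = 5 * M * (M + cy M e) ∧
      ((rec M e).2.2 : ℝ) = 5 * M * ψ M e ∨ M = 0 := by
  by_cases hM0 : M = 0
  · exact Or.inr hM0
  left
  have hMr : (M : ℝ) ≠ 0 := by exact_mod_cast hM0
  cases e with
  | A p q =>
    obtain ⟨h1, h2⟩ := he
    have h1 : p ≤ W := by exact_mod_cast h1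
    have h2 : q ≤ W := by exact_mod_cast h2
    have e1 : 4 * M - 12 * p - 12 * q = 4 * M - (12 * p + 12 * q) := by omega
    simp only [rec, cx, cy, ψ]
    refine ⟨by push_cast; ring, by push_cast; ring, ?_⟩
    rw [e1]
    push_cast [Nat.cast_sub (show 12 * p + 12 * q ≤ 4 * M by omega)]
    field_simp
    ring
  | B p r =>
    obtain ⟨h1, h2⟩ := he
    have h1 : p ≤ W := by exact_mod_cast h1
    simp only [rec, cx, cy, ψ]
    refine ⟨by push_cast; ring, ?_, ?_⟩
    · push_cast [Nat.cast_sub (show 12 * p ≤ M by omega)]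
      ring
    · push_cast
      field_simp
      ring
  | C q r =>
    obtain ⟨h1, h2⟩ := he
    have h1 : q ≤ W := by exact_mod_cast h1
    have h2 : r ≤ W := by exact_mod_cast h2
    simp only [rec, cx, cy, ψ]
    refine ⟨?_, ?_, ?_⟩
    · push_cast [Nat.cast_sub (show 12 * q ≤ M by omega)]
      ring
    · push_cast [Nat.cast_sub (show 15 * r ≤ 4 * M + 9 * q by omega)]
      ring
    · push_cast [Nat.cast_sub (show 24 * r ≤ 4 * M + 24 * q by omega)]
      field_simp
      ring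

lemma dist_toPoint_vec {s : ℕ} (hs : 2 ≤ s) (x y x' y' : ℕ) :
    dist (toPoint (vec s x y)) (toPoint (vec s x' y'))
      = Real.sqrt (((x : ℝ) - x') ^ 2 + ((y : ℝ) - y') ^ 2) := by
  obtain ⟨k, rfl⟩ : ∃ k, s = k + 2 := ⟨s - 2, by omega⟩
  rw [EuclideanSpace.dist_eq, Fin.sum_univ_succ, Fin.sum_univ_succ]
  congr 1
  simp [toPoint, vec, Real.dist_eq, sq_abs]

lemma vec_inj {s : ℕ} (hs : 2 ≤ s) {x y x' y' : ℕ} (h : vec s x y = vec s x' y') :
    x = x' ∧ y = y' := by
  have h0 := congrFun h ⟨0, by omega⟩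
  have h1 := congrFun h ⟨1, by omega⟩
  simp only [vec] at h0 h1
  norm_num at h0 h1
  exact ⟨h0, h1⟩

lemma perimeter_eq {E : Type*} [PseudoMetricSpace E] (t : Finset E) :
    Max3DM.perimeter t = TriPart.perimeter t := rfl

lemma partition_iff {E : Type*} (P : Finset E) (π : Finset (Finset E)) :
    IsTrianglePartition (P : Set E) π ↔ IsTriPartition P π := by
  unfold IsTrianglePartition IsTriPartition
  simp only [Finset.coe_subset, Finset.mem_coe]

lemma bigM_bounds (m : ℕ) (var : ℕ → ℕ) (sg : ℕ → Bool) :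
    1000 * (24 * (3 * m) ^ 2 + 24) ≤ bigM (3 * m) ∧
    (elems (3 * m) var sg).toFinset.card * (51 * (24 * (3 * m) ^ 2 + 24)) ^ 3 ≤ bigM (3 * m) := by
  have hc := (List.toFinset_card_le (elems (3 * m) var sg)).trans (elems_length m var sg)
  unfold bigM
  set W := 24 * (3 * m) ^ 2 + 24 with hW
  have hW1 : 1 ≤ W := by omega
  constructor
  · have h3 : 1 ≤ W ^ 3 := Nat.one_le_pow _ _ hW1
    calc 1000 * W = 1000 * W * 1 := by ring
      _ ≤ 400000 * W * W ^ 3 := Nat.mul_le_mul (by omega) h3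
      _ = 400000 * W ^ 4 := by ring
  · calc (elems (3 * m) var sg).toFinset.card * (51 * W) ^ 3 ≤ (3 * W) * (51 * W) ^ 3 :=
          Nat.mul_le_mul_right _ hc
      _ = 397953 * W ^ 4 := by ring
      _ ≤ 400000 * W ^ 4 := Nat.mul_le_mul_right _ (by norm_num)

/-- **Correctness of the reduction.** -/
theorem correct {s : ℕ} (hs : 2 ≤ s) (m : ℕ) (var : ℕ → ℕ) (sg : ℕ → Bool)
    (hvar : ∀ t < 3 * m, var t < 3 * m) :
    Sat m var sg ↔
      MaxPerimeter s (toInst s ((elems (3 * m) var sg).map (rec (bigM (3 * m))))) := by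
  classical
  rcases Nat.eq_zero_or_pos m with rfl | hm
  · constructor
    · intro _
      refine ⟨by simp [toInst, elems], ∅, ⟨by simp, ?_⟩, ?_⟩
      · rintro x ⟨v, hv, _⟩
        simp [toInst, elems] at hv
      · simp [toInst, elems]
    · intro _
      exact ⟨fun _ => true, fun j hj => absurd hj (Nat.not_lt_zero j)⟩
  rw [sat_iff_partition hvar]
  set U := (elems (3 * m) var sg).toFinset with hU
  set M := bigM (3 * m) with hM
  obtain ⟨hM1, hM2⟩ := bigM_bounds m var sg
  rw [← hM, ← hU] at hM2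
  rw [← hM] at hM1
  set W := 24 * (3 * m) ^ 2 + 24 with hW
  have hM0 : M ≠ 0 := by omega
  have hbd : ∀ e ∈ U, Bd (W : ℝ) e := fun e he => elems_bd hm hvar e (List.mem_toFinset.mp he)
  have hrec : ∀ e ∈ U, ((rec M e).1 : ℝ) = 5 * M * (M + cx M e) ∧
      ((rec M e).2.1 : ℝ) = 5 * M * (M + cy M e) ∧ ((rec M e).2.2 : ℝ) = 5 * M * ψ M e := by
    intro e he
    rcases rec_cast hM1 (hbd e he) with h | h
    · exact h
    · exact absurd h hM0
  let f : El → EuclideanSpace ℝ (Fin s) := fun e => toPoint (vec s (rec M e).1 (rec M e).2.1)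
  have hMpos : (0 : ℝ) < M := by exact_mod_cast Nat.pos_of_ne_zero hM0
  have hf : ∀ e ∈ U, ∀ e' ∈ U, dist (f e) (f e') = 5 * M * dd M e e' := by
    intro e he e' he'
    obtain ⟨a1, a2, _⟩ := hrec e he
    obtain ⟨b1, b2, _⟩ := hrec e' he'
    show dist (toPoint _) (toPoint _) = _
    rw [dist_toPoint_vec hs, a1, a2, b1, b2]
    unfold dd
    rw [show (5 * (M : ℝ) * (M + cx M e) - 5 * M * (M + cx M e')) ^ 2
          + (5 * (M : ℝ) * (M + cy M e) - 5 * M * (M + cy M e')) ^ 2
        = (5 * M) ^ 2 * ((cx M e - cx M e') ^ 2 + (cy M e - cy M e') ^ 2) by ring,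
      Real.sqrt_mul (by positivity), Real.sqrt_sq (by positivity)]
  have hW1 : (1 : ℝ) ≤ (W : ℝ) := by
    have : 1 ≤ W := by omega
    exact_mod_cast this
  have hMr : 1000 * (W : ℝ) ≤ (M : ℝ) := by exact_mod_cast hM1
  have hcr : (U.card : ℝ) * (51 * W) ^ 3 ≤ (M : ℝ) := by exact_mod_cast hM2
  have hg := geom f (by positivity : (0 : ℝ) < 5 * M) hW1 hMr U hf hbd hcr
  rw [← hg]
  have hinj : Set.InjOn f U := by
    intro e he e' he' heq
    have h1 := hf e he e' he'
    rw [heq, dist_self] at h1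
    have h2 : dd M e e' = 0 := by
      rcases mul_eq_zero.mp h1.symm with h | h
      · exact absurd h (by positivity)
      · exact h
    exact dd_inj hW1 hMr (hbd e he) (hbd e' he') h2
  have hnd := elems_nodup hm var sg
  -- the set of points
  have hP : {x | ∃ v ∈ (toInst s ((elems (3 * m) var sg).map (rec M))).1, toPoint v = x}
      = ((U.image f : Finset (EuclideanSpace ℝ (Fin s))) : Set (EuclideanSpace ℝ (Fin s))) := by
    ext x
    simp only [toInst, List.mem_map, Finset.coe_image, Set.mem_image, Set.mem_ofPred_eq,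
      List.map_map, Finset.mem_coe, hU, List.mem_toFinset]
    constructor
    · rintro ⟨v, ⟨e, he, rfl⟩, rfl⟩
      exact ⟨e, he, rfl⟩
    · rintro ⟨e, he, rfl⟩
      exact ⟨_, ⟨e, he, rfl⟩, rfl⟩
  -- the threshold
  have hsum : (((((elems (3 * m) var sg).map (rec M)).map (fun r => r.2.2)).sum : ℕ) : ℝ)
      = 5 * M * ∑ e ∈ U, ψ M e := by
    rw [List.map_map, Nat.cast_list_sum, List.map_map, Finset.mul_sum, hU,
      List.sum_toFinset _ hnd]
    apply congrArg List.sum
    apply List.map_congr_left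
    intro e he
    exact (hrec e (List.mem_toFinset.mpr he)).2.2
  have hpos : 35 ≤ (((elems (3 * m) var sg).map (rec M)).map (fun r => r.2.2)).sum := by
    have h0 : El.A 0 8 ∈ elems (3 * m) var sg := by
      rw [mem_elems]
      left
      exact ⟨0, by omega, 0, by omega, by simp [S1]⟩
    have h1 : (rec M (El.A 0 8)).2.2 ∈ ((elems (3 * m) var sg).map (rec M)).map (fun r => r.2.2) := by
      rw [List.map_map]
      exact List.mem_map.mpr ⟨_, h0, rfl⟩
    refine le_trans ?_ (List.le_sum_of_mem h1)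
    have h2 : 35 ≤ 240 * 8 ^ 2 := by norm_num
    exact h2.trans (Nat.le_add_left _ _)
  have hK : (((toInst s ((elems (3 * m) var sg).map (rec M))).2 : ℚ) : ℝ)
      = 5 * M * (∑ e ∈ U, ψ M e - 7 / M) := by
    simp only [toInst]
    rw [Rat.cast_natCast, Nat.cast_sub hpos, hsum]
    push_cast
    field_simp
    ring
  unfold MaxPerimeter
  rw [hP, hK]
  constructor
  · rintro ⟨π, hπ, hval⟩
    refine ⟨?_, π, (partition_iff _ _).mpr hπ, hval⟩
    simp only [toInst, List.map_map]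
    apply List.Nodup.map_on _ hnd
    intro e he e' he' heq
    apply hinj (by rw [hU]; exact_mod_cast List.mem_toFinset.mpr he)
      (by rw [hU]; exact_mod_cast List.mem_toFinset.mpr he')
    show toPoint _ = toPoint _
    exact congrArg toPoint heq
  · rintro ⟨_, π, hπ, hval⟩
    exact ⟨π, (partition_iff _ _).mp hπ, hval⟩

end Pool.Agent.H63.Red
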