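import Mathlib
import Pool.Agent.H63.Red

set_option autoImplicit false

/-!
# Structure of the maximum partitions of the instances of the reduction
-/

namespace Pool.Agent.H63.Opt

open Pool.Agent.H63.TriGeom Pool.Agent.H63.TriPart Pool.Agent.H63.SatCol
open Pool.Agent.H63.Elems Pool.Agent.H63.Max3DM Pool.Agent.H63.Red

/-- The value of a partition reaches the threshold if and only if all its triangles are good. -/
theorem geom_core {E : Type*} [MetricSpace E] [DecidableEq E] (f : El → E) {c M W : ℝ} (hc : 0 < c)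
    (hW : 1 ≤ W) (hM : 1000 * W ≤ M) (U : Finset El)
    (hf : ∀ e ∈ U, ∀ e' ∈ U, dist (f e) (f e') = c * dd M e e')
    (hU : ∀ e ∈ U, Bd W e) (hcard : (U.card : ℝ) * (51 * W) ^ 3 ≤ M)
    (T : Finset (Finset El)) (hT : IsTriPartition U T) :
    c * (∑ e ∈ U, ψ M e - 7 / M) ≤ ∑ t ∈ T.image (fun t => t.image f), TriPart.perimeter t ↔
      ∀ t ∈ T, Good t := by
  have hMpos : 0 < M := by linarith
  have hinj : Set.InjOn f U := by
    intro e he e' he' heq
    have h1 := hf e he e' he'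
    rw [heq, dist_self] at h1
    have h2 : dd M e e' = 0 := by
      rcases mul_eq_zero.mp h1.symm with h | h
      · exact absurd h hc.ne'
      · exact h
    exact dd_inj hW hM (hU e he) (hU e' he') h2
  have herr : (T.card : ℝ) * (3 * ((51 * W) ^ 3 / (10 * M ^ 2))) ≤ 1 / 10 / M := by
    have hc : (U.card : ℝ) = 3 * T.card := by exact_mod_cast hT.card_eq
    rw [show (T.card : ℝ) * (3 * ((51 * W) ^ 3 / (10 * M ^ 2)))
        = (3 * T.card * (51 * W) ^ 3) / (10 * M ^ 2) by ring, ← hc,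
      show (1 : ℝ) / 10 / M = M / (10 * M ^ 2) by field_simp]
    exact div_le_div_of_nonneg_right hcard (by positivity)
  have hper : ∑ t ∈ T.image (fun t => t.image f), TriPart.perimeter t = c * ∑ t ∈ T, per M t := by
    rw [image_sum hinj hT, Finset.mul_sum]
    apply Finset.sum_congr rfl
    intro t ht
    have hsub := (hT.1 t ht).2
    exact perimeter_image (hinj.mono (by exact_mod_cast hsub))
      (fun e he e' he' => hf e (hsub he) e' (hsub he'))
  have hbd : ∀ t ∈ T, ∀ e ∈ t, Bd W e :=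
    fun t ht e he => hU e ((hT.1 t ht).2 he)
  rw [hper, ← hT.sum_eq]
  constructor
  · intro hval
    by_contra hcon
    push Not at hcon
    obtain ⟨t₀, ht₀, hbad⟩ := hcon
    have hval := le_of_mul_le_mul_left hval hc
    have h1 : ∑ t ∈ T, per M t
        ≤ ∑ t ∈ T, (∑ e ∈ t, ψ M e + 3 * ((51 * W) ^ 3 / (10 * M ^ 2))
            - if t = t₀ then 72 / 5 / M else 0) := by
      apply Finset.sum_le_sum
      intro t ht
      by_cases hg : Good t
      · have hne : t ≠ t₀ := by
          rintro rfl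
          exact hbad hg
        rw [if_neg hne, sub_zero]
        exact per_good_upper hM hW (hbd t ht) hg
      · have := per_upper hM hW (hT.1 t ht).1 (hbd t ht) hg
        have hp : 0 ≤ 72 / 5 / M := by positivity
        split_ifs <;> linarith
    rw [Finset.sum_sub_distrib, Finset.sum_add_distrib, Finset.sum_const,
      Finset.sum_ite_eq' T t₀ (fun _ => 72 / 5 / M), if_pos ht₀, nsmul_eq_mul] at h1
    have h3 : 0 < 1 / M := by positivity
    have e1 : 72 / 5 / M = 72 / 5 * (1 / M) := by ring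
    have e2 : 7 / M = 7 * (1 / M) := by ring
    have e3 : 1 / 10 / M = 1 / 10 * (1 / M) := by ring
    rw [e1] at h1
    rw [e2] at hval
    rw [e3] at herr
    linarith
  · intro hgood
    apply mul_le_mul_of_nonneg_left _ hc.le
    have h1 : ∑ t ∈ T, (∑ e ∈ t, ψ M e - 3 * ((51 * W) ^ 3 / (10 * M ^ 2)))
        ≤ ∑ t ∈ T, per M t := by
      apply Finset.sum_le_sum
      intro t ht
      exact per_good_lower hM hW (hbd t ht) (hgood t ht)
    rw [Finset.sum_sub_distrib, Finset.sum_const, nsmul_eq_mul] at h1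
    have h3 : 0 < 1 / M := by positivity
    have e2 : 7 / M = 7 * (1 / M) := by ring
    have e3 : 1 / 10 / M = 1 / 10 * (1 / M) := by ring
    rw [e2]
    rw [e3] at herr
    linarith

/-- The rational vector of an element. -/
def rv (s M : ℕ) (e : El) : Fin s → ℚ := vec s (rec M e).1 (rec M e).2.1

open Classical in
/-- Good triangles of points. -/
def GoodPt (s M W : ℕ) (t : Finset (EuclideanSpace ℝ (Fin s))) : Prop :=
  ∃ p ≤ W, ∃ q ≤ W, ∃ r ≤ W, t = {toPoint (rv s M (.A p q)), toPoint (rv s M (.B p r)),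
    toPoint (rv s M (.C q r))}

/-- The parameter `W` of an instance with `m` clauses. -/
def bigW (m : ℕ) : ℕ := 24 * (3 * m) ^ 2 + 24

lemma dist_rv {s : ℕ} (hs : 2 ≤ s) {m : ℕ} {e e' : El} (he : Bd (bigW m : ℝ) e)
    (he' : Bd (bigW m : ℝ) e') :
    dist (toPoint (rv s (bigM (3 * m)) e)) (toPoint (rv s (bigM (3 * m)) e')) =
      5 * (bigM (3 * m) : ℝ) * dd (bigM (3 * m) : ℝ) e e' := by
  obtain ⟨hM1, _⟩ := bigM_bounds m (fun _ => 0) (fun _ => true)
  set M := bigM (3 * m) with hM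
  have hM0 : M ≠ 0 := by
    have : 0 < 24 * (3 * m) ^ 2 + 24 := by omega
    omega
  have hMpos : (0 : ℝ) < M := by exact_mod_cast Nat.pos_of_ne_zero hM0
  have hrec : ∀ e, Bd (bigW m : ℝ) e → ((rec M e).1 : ℝ) = 5 * M * (M + cx M e) ∧
      ((rec M e).2.1 : ℝ) = 5 * M * (M + cy M e) ∧ ((rec M e).2.2 : ℝ) = 5 * M * ψ M e := by
    intro e he
    rcases rec_cast (W := bigW m) hM1 he with h | h
    · exact h
    · exact absurd h hM0
  obtain ⟨a1, a2, _⟩ := hrec e he
  obtain ⟨b1, b2, _⟩ := hrec e' he'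
  unfold rv
  rw [dist_toPoint_vec hs, a1, a2, b1, b2]
  unfold dd
  rw [show (5 * (M : ℝ) * (M + cx M e) - 5 * M * (M + cx M e')) ^ 2
        + (5 * (M : ℝ) * (M + cy M e) - 5 * M * (M + cy M e')) ^ 2
      = (5 * M) ^ 2 * ((cx M e - cx M e') ^ 2 + (cy M e - cy M e') ^ 2) by ring,
    Real.sqrt_mul (by positivity), Real.sqrt_sq (by positivity)]

lemma rv_inj {s : ℕ} (hs : 2 ≤ s) {m : ℕ} {e e' : El} (he : Bd (bigW m : ℝ) e)
    (he' : Bd (bigW m : ℝ) e')
    (h : toPoint (rv s (bigM (3 * m)) e) = toPoint (rv s (bigM (3 * m)) e')) : e = e' := by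
  obtain ⟨hM1, _⟩ := bigM_bounds m (fun _ => 0) (fun _ => true)
  have h1 := dist_rv hs he he'
  rw [h, dist_self] at h1
  have hW1 : (1 : ℝ) ≤ (bigW m : ℝ) := by
    have : 1 ≤ bigW m := by unfold bigW; omega
    exact_mod_cast this
  have hMr : 1000 * (bigW m : ℝ) ≤ (bigM (3 * m) : ℝ) := by exact_mod_cast hM1
  have h2 : dd (bigM (3 * m) : ℝ) e e' = 0 := by
    rcases mul_eq_zero.mp h1.symm with h | h
    · exfalso
      have : (0 : ℝ) < 5 * (bigM (3 * m) : ℝ) := by linarith
      linarith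
    · exact h
  exact dd_inj hW1 hMr he he' h2

/-- The points of the instance. -/
def pts (s m : ℕ) (var : ℕ → ℕ) (sg : ℕ → Bool) : List (Fin s → ℚ) :=
  (elems (3 * m) var sg).map (rv s (bigM (3 * m)))

/-- **Structure of the instances.** There is a threshold such that a triangle partition reaches it
if and only if all triangles are good, and such a partition exists if and only if the formula is
satisfiable. -/
theorem struct {s : ℕ} (hs : 2 ≤ s) {m : ℕ} (hm : 0 < m) (var : ℕ → ℕ) (sg : ℕ → Bool)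
    (hvar : ∀ t < 3 * m, var t < 3 * m) :
    (pts s m var sg).Nodup ∧ (∃ K : ℝ, ∀ π : Finset (Finset (EuclideanSpace ℝ (Fin s))),
      IsTrianglePartition {x | ∃ v ∈ pts s m var sg, toPoint v = x} π →
      (K ≤ ∑ t ∈ π, Max3DM.perimeter t ↔ ∀ t ∈ π, GoodPt s (bigM (3 * m)) (bigW m) t)) ∧
    (Sat m var sg ↔ ∃ π : Finset (Finset (EuclideanSpace ℝ (Fin s))),
      IsTrianglePartition {x | ∃ v ∈ pts s m var sg, toPoint v = x} π ∧
      ∀ t ∈ π, GoodPt s (bigM (3 * m)) (bigW m) t) := by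
  classical
  set U := (elems (3 * m) var sg).toFinset with hU
  obtain ⟨hM1, hM2⟩ := bigM_bounds m var sg
  rw [← hU] at hM2
  have hbd : ∀ e ∈ U, Bd (bigW m : ℝ) e :=
    fun e he => elems_bd hm hvar e (List.mem_toFinset.mp he)
  let f : El → EuclideanSpace ℝ (Fin s) := fun e => toPoint (rv s (bigM (3 * m)) e)
  have hf : ∀ e ∈ U, ∀ e' ∈ U, dist (f e) (f e') =
      5 * (bigM (3 * m) : ℝ) * dd (bigM (3 * m) : ℝ) e e' :=
    fun e he e' he' => dist_rv hs (hbd e he) (hbd e' he')
  have hW1 : (1 : ℝ) ≤ (bigW m : ℝ) := by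
    have : 1 ≤ bigW m := by unfold bigW; omega
    exact_mod_cast this
  have hMr : 1000 * (bigW m : ℝ) ≤ (bigM (3 * m) : ℝ) := by exact_mod_cast hM1
  have hcr : (U.card : ℝ) * (51 * bigW m) ^ 3 ≤ (bigM (3 * m) : ℝ) := by exact_mod_cast hM2
  have hMpos : (0 : ℝ) < (bigM (3 * m) : ℝ) := by linarith
  have hinj : Set.InjOn f U := fun e he e' he' heq =>
    rv_inj hs (hbd e (by exact_mod_cast he)) (hbd e' (by exact_mod_cast he')) heq
  have hnd := elems_nodup hm var sg
  have hP : {x | ∃ v ∈ pts s m var sg, toPoint v = x}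
      = ((U.image f : Finset (EuclideanSpace ℝ (Fin s))) : Set (EuclideanSpace ℝ (Fin s))) := by
    ext x
    simp only [pts, List.mem_map, Finset.coe_image, Set.mem_image, Set.mem_ofPred_eq,
      Finset.mem_coe, hU, List.mem_toFinset]
    constructor
    · rintro ⟨v, ⟨e, he, rfl⟩, rfl⟩
      exact ⟨e, he, rfl⟩
    · rintro ⟨e, he, rfl⟩
      exact ⟨_, ⟨e, he, rfl⟩, rfl⟩
  -- good triangles
  have hgood : ∀ T : Finset (Finset El), IsTriPartition U T → ((∀ t ∈ T, Good t) ↔
      ∀ t ∈ T.image (fun t => t.image f), GoodPt s (bigM (3 * m)) (bigW m) t) := by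
    intro T hT
    constructor
    · intro h t' ht'
      obtain ⟨t, ht, rfl⟩ := Finset.mem_image.mp ht'
      obtain ⟨p, q, r, rfl⟩ := h t ht
      have b1 : Bd (bigW m : ℝ) (.A p q) := hbd _ ((hT.1 _ ht).2 (by simp))
      have b2 : Bd (bigW m : ℝ) (.B p r) := hbd _ ((hT.1 _ ht).2 (by simp))
      obtain ⟨c1, c2⟩ := b1
      obtain ⟨c3, c4⟩ := b2
      refine ⟨p, by exact_mod_cast c1, q, by exact_mod_cast c2, r, by exact_mod_cast c4, ?_⟩
      simp only [Finset.image_insert, Finset.image_singleton, f]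
    · intro h t ht
      obtain ⟨p, hp, q, hq, r, hr, heq⟩ := h _ (Finset.mem_image_of_mem _ ht)
      refine ⟨p, q, r, ?_⟩
      have b1 : Bd (bigW m : ℝ) (.A p q) := ⟨by exact_mod_cast hp, by exact_mod_cast hq⟩
      have b2 : Bd (bigW m : ℝ) (.B p r) := ⟨by exact_mod_cast hp, by exact_mod_cast hr⟩
      have b3 : Bd (bigW m : ℝ) (.C q r) := ⟨by exact_mod_cast hq, by exact_mod_cast hr⟩
      apply Finset.eq_of_subset_of_card_le
      · intro e he
        have hbe := hbd e ((hT.1 t ht).2 he)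
        have : f e ∈ t.image f := Finset.mem_image_of_mem _ he
        rw [heq] at this
        simp only [Finset.mem_insert, Finset.mem_singleton] at this ⊢
        rcases this with h | h | h
        · exact Or.inl (rv_inj hs hbe b1 h)
        · exact Or.inr (Or.inl (rv_inj hs hbe b2 h))
        · exact Or.inr (Or.inr (rv_inj hs hbe b3 h))
      · rw [(hT.1 t ht).1]
        exact Finset.card_le_three
  refine ⟨?_, ⟨5 * (bigM (3 * m) : ℝ) * (∑ e ∈ U, ψ (bigM (3 * m) : ℝ) e
      - 7 / (bigM (3 * m) : ℝ)), ?_⟩, ?_⟩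
  · apply List.Nodup.map_on _ hnd
    intro e he e' he' heq
    exact hinj (by rw [hU]; exact_mod_cast List.mem_toFinset.mpr he)
      (by rw [hU]; exact_mod_cast List.mem_toFinset.mpr he') (congrArg toPoint heq)
  · intro π hπ
    rw [hP] at hπ
    obtain ⟨T, hT, rfl⟩ := exists_preimage_partition hinj ((partition_iff _ _).mp hπ)
    rw [← hgood T hT]
    exact geom_core f (by positivity) hW1 hMr U hf hbd hcr T hT
  · rw [sat_iff_partition hvar, hP]
    constructor
    · rintro ⟨T, hT, h⟩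
      exact ⟨_, (partition_iff _ _).mpr (image_partition hinj hT), (hgood T hT).mp h⟩
    · rintro ⟨π, hπ, h⟩
      obtain ⟨T, hT, rfl⟩ := exists_preimage_partition hinj ((partition_iff _ _).mp hπ)
      exact ⟨T, hT, (hgood T hT).mpr h⟩

end Pool.Agent.H63.Opt
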