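import Mathlib
import Pool.Agent.H63.Red
import Pool.Agent.H80.Poly.More

set_option autoImplicit false

/-!
# The reduction is computable in polynomial time
-/

namespace Pool.Agent.H63.RedPoly

open Pool.Agent.H63.TriGeom Pool.Agent.H63.Elems Pool.Agent.H63.Red Pool.Agent.H80.Poly

variable {α : Type} [BEnc α]

theorem polyA {M p q : α → ℕ} (hM : PolyTime M) (hp : PolyTime p) (hq : PolyTime q) :
    PolyTime (fun a => rec (M a) (El.A (p a) (q a))) := by
  have c : ∀ k : ℕ, PolyTime (fun _ : α => k) := fun k => PolyTime.const k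
  have h5 := (c 5).mul hM
  exact (h5.mul (hM.add ((c 12).mul hq))).pair ((h5.mul (hM.add ((c 12).mul hp))).pair
    (((h5.mul ((((c 4).mul hM).sub ((c 12).mul hp)).sub ((c 12).mul hq))).add
      ((c 180).mul (hp.pow 2))).add ((c 240).mul (hq.pow 2))))

theorem polyB {M p q : α → ℕ} (hM : PolyTime M) (hp : PolyTime p) (hq : PolyTime q) :
    PolyTime (fun a => rec (M a) (El.B (p a) (q a))) := by
  have c : ∀ k : ℕ, PolyTime (fun _ : α => k) := fun k => PolyTime.const k
  have h5 := (c 5).mul hM
  exact (h5.mul ((h5.add ((c 16).mul hp)).add ((c 20).mul hq))).pair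
    ((h5.mul (hM.sub ((c 12).mul hp))).pair
    (((h5.mul ((((c 4).mul hM).add ((c 36).mul hp)).add ((c 36).mul hq))).add
      ((c 180).mul (hp.pow 2))).add ((c 144).mul (hq.pow 2))))

theorem polyC {M p q : α → ℕ} (hM : PolyTime M) (hp : PolyTime p) (hq : PolyTime q) :
    PolyTime (fun a => rec (M a) (El.C (p a) (q a))) := by
  have c : ∀ k : ℕ, PolyTime (fun _ : α => k) := fun k => PolyTime.const k
  have h5 := (c 5).mul hM
  exact (h5.mul (hM.sub ((c 12).mul hp))).pair
    ((h5.mul ((((c 4).mul hM).add ((c 9).mul hp)).sub ((c 15).mul hq))).pair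
    (((h5.mul ((((c 4).mul hM).add ((c 24).mul hp)).sub ((c 24).mul hq))).add
      ((c 240).mul (hp.pow 2))).add ((c 144).mul (hq.pow 2))))

theorem polyS1 {M x y y' : α → ℕ} (hM : PolyTime M) (hx : PolyTime x) (hy : PolyTime y)
    (hy' : PolyTime y') : PolyTime (fun a => (S1 (x a) (y a) (y' a)).map (rec (M a))) := by
  have c : ∀ k : ℕ, PolyTime (fun _ : α => k) := fun k => PolyTime.const k
  have X := (c 12).mul hx
  have Y := (c 12).mul hy
  have Z := hy.add (c 2)
  have Z' := hy'.add (c 2)
  have nil : PolyTime (fun _ : α => ([] : List (ℕ × ℕ × ℕ))) := PolyTime.const _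
  exact (polyA hM X (Y.add (c 8))).cons <| (polyA hM (X.add (c 2)) (Y.add (c 10))).cons <|
    (polyA hM (Y.add (c 9)) (X.add (c 1))).cons <|
    (polyA hM (Y.add (c 11)) (X.add (c 3))).cons <|
    (polyA hM (Y.add (c 9)) (Y.add (c 8))).cons <|
    (polyA hM (Y.add (c 11)) (Y.add (c 10))).cons <|
    (polyB hM X Z).cons <| (polyB hM (X.add (c 2)) Z).cons <|
    (polyB hM (Y.add (c 9)) Z).cons <| (polyB hM (Y.add (c 11)) Z).cons <|
    (polyB hM (Y.add (c 9)) Z').cons <| (polyB hM (Y.add (c 11)) Z').cons <|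
    (polyC hM (X.add (c 1)) Z).cons <| (polyC hM (X.add (c 3)) Z).cons <|
    (polyC hM (Y.add (c 8)) Z).cons <| (polyC hM (Y.add (c 10)) Z).cons <|
    (polyC hM (Y.add (c 8)) Z').cons <| (polyC hM (Y.add (c 10)) Z').cons nil

theorem polyS2 {M j y s : α → ℕ} (hM : PolyTime M) (hj : PolyTime j) (hy : PolyTime y)
    (hs : PolyTime s) : PolyTime (fun a => (S2 (j a) (y a) (s a)).map (rec (M a))) := by
  have c : ∀ k : ℕ, PolyTime (fun _ : α => k) := fun k => PolyTime.const k
  have J := (c 12).mul hj
  have Y := (c 12).mul hy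
  have Z := (hy.add hs).add (c 2)
  have nil : PolyTime (fun _ : α => ([] : List (ℕ × ℕ × ℕ))) := PolyTime.const _
  exact (polyA hM (J.add (c 4)) (Y.add (c 8))).cons <|
    (polyA hM (J.add (c 6)) (Y.add (c 10))).cons <|
    (polyA hM (Y.add (c 9)) (J.add (c 5))).cons <|
    (polyA hM (Y.add (c 11)) (J.add (c 7))).cons <|
    (polyA hM (Y.add (c 9)) (Y.add (c 10))).cons <|
    (polyA hM (Y.add (c 11)) (Y.add (c 8))).cons <|
    (polyB hM (Y.add (c 9)) (c 0)).cons <| (polyB hM (Y.add (c 9)) (c 1)).cons <|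
    (polyB hM (Y.add (c 11)) (c 0)).cons <| (polyB hM (Y.add (c 11)) (c 1)).cons <|
    (polyC hM (Y.add (c 8)) (c 0)).cons <| (polyC hM (Y.add (c 8)) (c 1)).cons <|
    (polyC hM (Y.add (c 10)) (c 0)).cons <| (polyC hM (Y.add (c 10)) (c 1)).cons <|
    (polyB hM (J.add (c 4)) Z).cons <| (polyB hM (J.add (c 6)) Z).cons <|
    (polyC hM (J.add (c 5)) Z).cons <| (polyC hM (J.add (c 7)) Z).cons nil

theorem polyS3 {M j : α → ℕ} (hM : PolyTime M) (hj : PolyTime j) :
    PolyTime (fun a => (S3 (j a)).map (rec (M a))) := by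
  have c : ∀ k : ℕ, PolyTime (fun _ : α => k) := fun k => PolyTime.const k
  have J := (c 12).mul hj
  have nil : PolyTime (fun _ : α => ([] : List (ℕ × ℕ × ℕ))) := PolyTime.const _
  exact (polyA hM (J.add (c 4)) (J.add (c 5))).cons <|
    (polyA hM (J.add (c 6)) (J.add (c 7))).cons <|
    (polyA hM (J.add (c 4)) (J.add (c 7))).cons <|
    (polyA hM (J.add (c 6)) (J.add (c 5))).cons <|
    (polyB hM (J.add (c 4)) (c 0)).cons <| (polyB hM (J.add (c 4)) (c 1)).cons <|
    (polyB hM (J.add (c 6)) (c 0)).cons <| (polyB hM (J.add (c 6)) (c 1)).cons <|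
    (polyC hM (J.add (c 5)) (c 0)).cons <| (polyC hM (J.add (c 5)) (c 1)).cons <|
    (polyC hM (J.add (c 7)) (c 0)).cons <| (polyC hM (J.add (c 7)) (c 1)).cons nil

/-- a literal: variable and sign -/
abbrev Lit := ℕ × Bool

/-- The list of literals of a formula in 3-CNF. -/
def lits (ψ : List (Lit × Lit × Lit)) : List Lit := ψ.flatMap fun c => [c.1, c.2.1, c.2.2]

theorem polyLits : PolyTime lits := by
  have hw : PolyTime (fun w : List (Lit × Lit × Lit) × (Lit × Lit × Lit) => w.2) :=
    PolyTime.id.snd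
  have nil : PolyTime (fun _ : List (Lit × Lit × Lit) × (Lit × Lit × Lit) => ([] : List Lit)) :=
    PolyTime.const _
  exact PolyTime.flatMap PolyTime.id
    (g := fun w : List (Lit × Lit × Lit) × (Lit × Lit × Lit) => [w.2.1, w.2.2.1, w.2.2.2])
    (hw.fst.cons (hw.snd.fst.cons (hw.snd.snd.cons nil)))

/-- the variable of the literal number `t` -/
def varOf (L : List Lit) (t : ℕ) : ℕ := (L.getD t (0, false)).1

/-- the sign of the literal number `t` -/
def sgOf (L : List Lit) (t : ℕ) : Bool := (L.getD t (0, false)).2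

/-- the list of all records -/
def redList (L : List Lit) : List (ℕ × ℕ × ℕ) :=
  (elems L.length (varOf L) (sgOf L)).map (rec (bigM L.length))

theorem polyBigM {N : α → ℕ} (hN : PolyTime N) : PolyTime (fun a => bigM (N a)) := by
  have c : ∀ k : ℕ, PolyTime (fun _ : α => k) := fun k => PolyTime.const k
  exact (c 400000).mul ((((c 24).mul (hN.pow 2)).add (c 24)).pow 4)

theorem polyRedList : PolyTime redList := by
  -- lengths are polynomially bounded
  have hlen : PolyTime (fun L : List Lit => L.length) := PolyTime.id.length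
  have bdlen : ∃ b, PB b ∧ ∀ L : List Lit, L.length ≤ b (size L) :=
    ⟨fun n => n, PB.id, fun L => length_le_size L⟩
  -- first part
  have p1 : PolyTime (fun L : List Lit => (List.range L.length).flatMap fun x =>
      (List.range (2 * L.length)).flatMap fun u =>
        (S1 x (2 * L.length * x + u) (2 * L.length * x + (u + 1) % (2 * L.length))).map
          (rec (bigM L.length))) := by
    have hw : PolyTime (fun w : (List Lit × ℕ) × ℕ => w) := PolyTime.id
    have c : ∀ k : ℕ, PolyTime (fun _ : (List Lit × ℕ) × ℕ => k) := fun k => PolyTime.const k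
    have hN := hw.fst.fst.length
    have hx := hw.fst.snd
    have hu := hw.snd
    have h2 := (c 2).mul hN
    have inner : PolyTime (fun w : (List Lit × ℕ) × ℕ =>
        (S1 w.1.2 (2 * w.1.1.length * w.1.2 + w.2)
          (2 * w.1.1.length * w.1.2 + (w.2 + 1) % (2 * w.1.1.length))).map
            (rec (bigM w.1.1.length))) :=
      polyS1 (polyBigM hN) hx ((h2.mul hx).add hu) ((h2.mul hx).add ((hu.add (c 1)).mod h2))
    have hv : PolyTime (fun w : List Lit × ℕ => w) := PolyTime.id
    have c' : ∀ k : ℕ, PolyTime (fun _ : List Lit × ℕ => k) := fun k => PolyTime.const k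
    have hr : PolyTime (fun w : List Lit × ℕ => List.range (2 * w.1.length)) :=
      PolyTime.range ((c' 2).mul hv.fst.length) ⟨fun n => 2 * n, (PB.const 2).mul PB.id, fun w => by
        have := length_le_size w.1
        have h3 := size_prod w
        show 2 * w.1.length ≤ 2 * size w
        omega⟩
    exact PolyTime.flatMap (PolyTime.range hlen bdlen)
      (g := fun w : List Lit × ℕ => (List.range (2 * w.1.length)).flatMap fun u =>
        (S1 w.2 (2 * w.1.length * w.2 + u)
          (2 * w.1.length * w.2 + (u + 1) % (2 * w.1.length))).map (rec (bigM w.1.length)))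
      (PolyTime.flatMap hr inner)
  -- second part
  have p2 : PolyTime (fun L : List Lit => (List.range L.length).flatMap fun t =>
      (S2 (t / 3) (2 * L.length * varOf L t + 2 * t) (if sgOf L t then 1 else 0)).map
        (rec (bigM L.length))) := by
    have hw : PolyTime (fun w : List Lit × ℕ => w) := PolyTime.id
    have c : ∀ k : ℕ, PolyTime (fun _ : List Lit × ℕ => k) := fun k => PolyTime.const k
    have hN := hw.fst.length
    have ht := hw.snd
    have hl : PolyTime (fun w : List Lit × ℕ => w.1.getD w.2 (0, false)) :=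
      PolyTime.list_getD hw.fst ht (PolyTime.const _)
    have hs : PolyTime (fun w : List Lit × ℕ => if sgOf w.1 w.2 then 1 else 0) :=
      (PolyTime.cond hl.snd (c 1) (c 0)).congr (fun w => by
        unfold sgOf
        cases (w.1.getD w.2 (0, false)).2 <;> rfl)
    exact PolyTime.flatMap (PolyTime.range hlen bdlen)
      (g := fun w : List Lit × ℕ =>
        (S2 (w.2 / 3) (2 * w.1.length * varOf w.1 w.2 + 2 * w.2) (if sgOf w.1 w.2 then 1 else 0)).map
          (rec (bigM w.1.length)))
      (polyS2 (polyBigM hN) (ht.div (c 3)) ((((c 2).mul hN).mul hl.fst).add ((c 2).mul ht)) hs)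
  -- third part
  have p3 : PolyTime (fun L : List Lit => (List.range (L.length / 3)).flatMap fun j =>
      (S3 j).map (rec (bigM L.length))) := by
    have hw : PolyTime (fun w : List Lit × ℕ => w) := PolyTime.id
    have hr : PolyTime (fun L : List Lit => List.range (L.length / 3)) :=
      PolyTime.range (hlen.div (PolyTime.const 3)) ⟨fun n => n, PB.id, fun L => by
        have := length_le_size L
        show L.length / 3 ≤ size L
        omega⟩
    exact PolyTime.flatMap hr
      (g := fun w : List Lit × ℕ => (S3 w.2).map (rec (bigM w.1.length)))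
      (polyS3 (polyBigM hw.fst.length) hw.snd)
  refine ((p1.append p2).append p3).congr (fun L => ?_)
  simp only [redList, elems, List.map_append, List.map_flatMap]

/-! ### the instance -/

instance instBEncRat : BEnc ℚ := ⟨fun q => enc (q.num, q.den), fun p q h => by
  have := BEnc.enc_inj h
  simp only [Prod.mk.injEq] at this
  exact Rat.ext this.1 this.2⟩

instance instBEncVec (s : ℕ) : BEnc (Fin s → ℚ) := ⟨fun v => enc (List.ofFn v), fun v w h => by
  exact List.ofFn_injective (BEnc.enc_inj h)⟩

theorem polyNatRat {f : α → ℕ} (hf : PolyTime f) : PolyTime (fun a => ((f a : ℕ) : ℚ)) := by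
  have h : PolyTime (fun a => (((f a : ℕ) : ℤ), 1)) := hf.natCast.pair (PolyTime.const 1)
  exact h.transfer (fun a => rfl)

theorem polyVec (s : ℕ) {x y : α → ℕ} (hx : PolyTime x) (hy : PolyTime y) :
    PolyTime (fun a => vec s (x a) (y a)) := by
  have key : ∀ (k : ℕ) (g : Fin k → α → ℚ), (∀ i, PolyTime (g i)) →
      PolyTime (fun a => (fun i => g i a : Fin k → ℚ)) := by
    intro k
    induction k with
    | zero =>
      intro g _
      exact (PolyTime.const (β := Fin 0 → ℚ) (fun i => i.elim0)).congr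
        (fun a => by funext i; exact i.elim0)
    | succ k ih =>
      intro g hg
      have h1 := ih (fun i => g i.succ) (fun i => hg i.succ)
      have h2 : PolyTime (fun a => List.ofFn (fun i => g i.succ a)) := h1.transfer (fun a => rfl)
      refine ((hg 0).cons h2).transfer (fun a => ?_)
      show enc (List.ofFn fun i => g i a) = _
      rw [List.ofFn_succ]
  apply key s (fun i a => vec s (x a) (y a) i)
  intro i
  unfold vec
  by_cases h0 : (i : ℕ) = 0
  · simp only [h0, if_true]
    exact polyNatRat hx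
  · by_cases h1 : (i : ℕ) = 1
    · simp only [h1, if_true, one_ne_zero, if_false]
      exact polyNatRat hy
    · simp only [h0, h1, if_false]
      exact PolyTime.const _

theorem polyToInst (s : ℕ) : PolyTime (toInst s) := by
  have hw : PolyTime (fun w : List (ℕ × ℕ × ℕ) × (ℕ × ℕ × ℕ) => w.2) := PolyTime.id.snd
  have h1 : PolyTime (fun l : List (ℕ × ℕ × ℕ) => l.map (fun r => vec s r.1 r.2.1)) :=
    PolyTime.map PolyTime.id
      (g := fun w : List (ℕ × ℕ × ℕ) × (ℕ × ℕ × ℕ) => vec s w.2.1 w.2.2.1)
      (polyVec s hw.fst hw.snd.fst)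
  have h2 : PolyTime (fun l : List (ℕ × ℕ × ℕ) => l.map (fun r => r.2.2)) :=
    PolyTime.map PolyTime.id (g := fun w : List (ℕ × ℕ × ℕ) × (ℕ × ℕ × ℕ) => w.2.2.2) hw.snd.snd
  exact h1.pair (polyNatRat (h2.sum.sub (PolyTime.const 35)))

/-- The reduction. -/
def red (s : ℕ) (ψ : List (Lit × Lit × Lit)) : List (Fin s → ℚ) × ℚ :=
  toInst s (redList (lits ψ))

theorem polyRed (s : ℕ) : PolyTime (red s) :=
  (polyToInst s).comp (polyRedList.comp polyLits)

end Pool.Agent.H63.RedPoly
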