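import Mathlib
import Pool.Agent.H63.RedPoly

set_option autoImplicit false

/-!
# The reduction applied to 3-CNF formulas
-/

namespace Pool.Agent.H63.RedSat

open Pool.Agent.H63.RedPoly Pool.Agent.H63.SatCol Pool.Agent.H63.Red Pool.Agent.H63.Max3DM

lemma lits_cons (c : Lit × Lit × Lit) (ψ : List (Lit × Lit × Lit)) :
    lits (c :: ψ) = c.1 :: c.2.1 :: c.2.2 :: lits ψ := rfl

lemma lits_length (ψ : List (Lit × Lit × Lit)) : (lits ψ).length = 3 * ψ.length := by
  induction ψ with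
  | nil => rfl
  | cons c ψ ih =>
    rw [lits_cons]
    simp only [List.length_cons, ih]
    ring

lemma getD_lits (ψ : List (Lit × Lit × Lit)) : ∀ j, (h : j < ψ.length) →
    (lits ψ).getD (3 * j) (0, false) = (ψ[j]).1 ∧
    (lits ψ).getD (3 * j + 1) (0, false) = (ψ[j]).2.1 ∧
    (lits ψ).getD (3 * j + 2) (0, false) = (ψ[j]).2.2 := by
  induction ψ with
  | nil => intro j h; exact absurd h (Nat.not_lt_zero j)
  | cons c ψ ih =>
    intro j h
    rw [lits_cons]
    cases j with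
    | zero => exact ⟨rfl, rfl, rfl⟩
    | succ j =>
      have hj : j < ψ.length := by simpa using h
      obtain ⟨h1, h2, h3⟩ := ih j hj
      have e1 : 3 * (j + 1) = 3 * j + 1 + 1 + 1 := by ring
      have e2 : 3 * (j + 1) + 1 = 3 * j + 1 + 1 + 1 + 1 := by ring
      have e3 : 3 * (j + 1) + 2 = 3 * j + 2 + 1 + 1 + 1 := by ring
      refine ⟨?_, ?_, ?_⟩
      · rw [e1, List.getD_cons_succ, List.getD_cons_succ, List.getD_cons_succ, h1]
        rfl
      · rw [e2, List.getD_cons_succ, List.getD_cons_succ, List.getD_cons_succ, h2]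
        rfl
      · rw [e3, List.getD_cons_succ, List.getD_cons_succ, List.getD_cons_succ, h3]
        rfl

/-- Satisfiability of a 3-CNF formula. -/
def Sat3' (ψ : List (Lit × Lit × Lit)) : Prop :=
  ∃ v : ℕ → Bool, ∀ c ∈ ψ, v c.1.1 = c.1.2 ∨ v c.2.1.1 = c.2.1.2 ∨ v c.2.2.1 = c.2.2.2

lemma sat_iff (ψ : List (Lit × Lit × Lit)) :
    Sat3' ψ ↔ Sat ψ.length (varOf (lits ψ)) (sgOf (lits ψ)) := by
  unfold Sat3' Sat
  apply exists_congr
  intro v
  constructor
  · intro h j hj
    obtain ⟨h1, h2, h3⟩ := getD_lits ψ j hj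
    rcases h ψ[j] (List.getElem_mem hj) with h | h | h
    · refine ⟨0, by norm_num, ?_⟩
      unfold varOf sgOf
      rw [Nat.add_zero, h1]
      exact h
    · refine ⟨1, by norm_num, ?_⟩
      unfold varOf sgOf
      rw [h2]
      exact h
    · refine ⟨2, by norm_num, ?_⟩
      unfold varOf sgOf
      rw [h3]
      exact h
  · intro h c hc
    obtain ⟨j, hj, rfl⟩ := List.getElem_of_mem hc
    obtain ⟨h1, h2, h3⟩ := getD_lits ψ j hj
    obtain ⟨i, hi, h⟩ := h j hj
    unfold varOf sgOf at h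
    interval_cases i
    · rw [Nat.add_zero, h1] at h; exact Or.inl h
    · rw [h2] at h; exact Or.inr (Or.inl h)
    · rw [h3] at h; exact Or.inr (Or.inr h)

theorem red_correct {s : ℕ} (hs : 2 ≤ s) (ψ : List (Lit × Lit × Lit))
    (hψ : ∀ c ∈ ψ, c.1.1 < 3 * ψ.length ∧ c.2.1.1 < 3 * ψ.length ∧ c.2.2.1 < 3 * ψ.length) :
    Sat3' ψ ↔ MaxPerimeter s (red s ψ) := by
  rw [sat_iff]
  have hlen := lits_length ψ
  have hvar : ∀ t < 3 * ψ.length, varOf (lits ψ) t < 3 * ψ.length := by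
    intro t ht
    have hj : t / 3 < ψ.length := by omega
    obtain ⟨h1, h2, h3⟩ := getD_lits ψ (t / 3) hj
    obtain ⟨k1, k2, k3⟩ := hψ _ (List.getElem_mem hj)
    unfold varOf
    have : t = 3 * (t / 3) ∨ t = 3 * (t / 3) + 1 ∨ t = 3 * (t / 3) + 2 := by omega
    rcases this with h | h | h
    · rw [h, h1]; exact k1
    · rw [h, h2]; exact k2
    · rw [h, h3]; exact k3
  have := correct hs ψ.length (varOf (lits ψ)) (sgOf (lits ψ)) hvar
  rw [this]
  unfold red redList
  rw [hlen]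

end Pool.Agent.H63.RedSat
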