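import Mathlib
import Pool.Agent.H63.Opt
import Pool.Agent.H63.RedSat

set_option autoImplicit false

/-!
# Recovering satisfiability from an optimal partition, in polynomial time
-/

namespace Pool.Agent.H63.Max3DM

/-- The set of triangles given by a list of triples of rational points. -/
noncomputable def triangles {s : ℕ} (out : List ((Fin s → ℚ) × (Fin s → ℚ) × (Fin s → ℚ))) :
    Finset (Finset (EuclideanSpace ℝ (Fin s))) := by
  classical
  exact (out.map (fun t => {toPoint t.1, toPoint t.2.1, toPoint t.2.2})).toFinset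

/-- `π` is a partition of the points in the list `P` into triangles, of maximum total perimeter. -/
def IsMaximum {s : ℕ} (P : List (Fin s → ℚ)) (π : Finset (Finset (EuclideanSpace ℝ (Fin s)))) :
    Prop :=
  IsTrianglePartition {x | ∃ v ∈ P, toPoint v = x} π ∧
    ∀ π' : Finset (Finset (EuclideanSpace ℝ (Fin s))),
      IsTrianglePartition {x | ∃ v ∈ P, toPoint v = x} π' →
        ∑ t ∈ π', perimeter t ≤ ∑ t ∈ π, perimeter t

/-- The function `opt` solves the optimisation problem Euclidean Max-3DM in `ℝˢ`: for each list `P`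
of `3 n` distinct points of `ℝˢ` with rational coordinates, `opt P` is a list of `n` triples which
form a partition of `P` into triangles with maximum total perimeter. -/
def Solves (s : ℕ) (opt : List (Fin s → ℚ) → List ((Fin s → ℚ) × (Fin s → ℚ) × (Fin s → ℚ))) :
    Prop :=
  ∀ P : List (Fin s → ℚ), P.Nodup → 3 ∣ P.length →
    3 * (opt P).length = P.length ∧ IsMaximum P (triangles (opt P))

end Pool.Agent.H63.Max3DM

namespace Pool.Agent.H63.Check

open Pool.Agent.H80.Poly
open Pool.Agent.H63.TriGeom Pool.Agent.H63.SatCol Pool.Agent.H63.RedPoly Pool.Agent.H63.RedSat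
open Pool.Agent.H63.Elems Pool.Agent.H63.Max3DM Pool.Agent.H63.Red Pool.Agent.H63.Opt

/-- bound for the indices -/
def R (n m : ℕ) : ℕ := min (bigW m) (2 * n + 24) + 1

/-- the points of a good triangle -/
def cand (s m p q r : ℕ) : List (Fin s → ℚ) :=
  [rv s (bigM (3 * m)) (.A p q), rv s (bigM (3 * m)) (.B p r), rv s (bigM (3 * m)) (.C q r)]

/-- check of a single triangle -/
def chk3 (s n m : ℕ) (t : (Fin s → ℚ) × (Fin s → ℚ) × (Fin s → ℚ)) : Bool :=
  (List.range (R n m)).any fun p => (List.range (R n m)).any fun q =>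
    (List.range (R n m)).any fun r =>
      decide (t.1 ∈ cand s m p q r) &&
        (decide (t.2.1 ∈ cand s m p q r) && decide (t.2.2 ∈ cand s m p q r))

/-- check of a list of triangles -/
def check (s : ℕ) (out : List ((Fin s → ℚ) × (Fin s → ℚ) × (Fin s → ℚ))) : Bool :=
  (List.range (out.length + 1)).any fun m =>
    decide (108 * m ^ 2 + 22 * m = out.length) && out.all (fun t => chk3 s out.length m t)

/-! ### polynomial time -/

section poly

variable {α : Type} [BEnc α]

theorem polyCand (s : ℕ) {m p q r : α → ℕ} (hm : PolyTime m) (hp : PolyTime p) (hq : PolyTime q)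
    (hr : PolyTime r) : PolyTime (fun a => cand s (m a) (p a) (q a) (r a)) := by
  have hM : PolyTime (fun a => bigM (3 * m a)) := polyBigM ((PolyTime.const 3).mul hm)
  have h1 := polyA hM hp hq
  have h2 := polyB hM hp hr
  have h3 := polyC hM hq hr
  have nil : PolyTime (fun _ : α => ([] : List (Fin s → ℚ))) := PolyTime.const _
  exact (polyVec s h1.fst h1.snd.fst).cons
    ((polyVec s h2.fst h2.snd.fst).cons ((polyVec s h3.fst h3.snd.fst).cons nil))

theorem polyRange {n m : α → ℕ} (hn : PolyTime n) (hm : PolyTime m)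
    (bd : ∃ b, PB b ∧ ∀ a, n a ≤ b (size a)) :
    PolyTime (fun a => List.range (R (n a) (m a))) := by
  have c : ∀ k : ℕ, PolyTime (fun _ : α => k) := fun k => PolyTime.const k
  obtain ⟨b, hb, hbd⟩ := bd
  have hW : PolyTime (fun a => bigW (m a)) :=
    ((c 24).mul ((((c 3).mul hm)).pow 2)).add (c 24)
  refine PolyTime.range ((hW.min (((c 2).mul hn).add (c 24))).add (c 1))
    ⟨fun x => 2 * b x + 25, ((PB.const 2).mul hb).add (PB.const 25), fun a => ?_⟩
  have h1 := hbd a
  have h2 : min (bigW (m a)) (2 * n a + 24) ≤ 2 * n a + 24 := min_le_right _ _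
  show min (bigW (m a)) (2 * n a + 24) + 1 ≤ 2 * b (size a) + 25
  omega

theorem polyCheck (s : ℕ) : PolyTime (check s) := by
  have hw : PolyTime (fun w : List ((Fin s → ℚ) × (Fin s → ℚ) × (Fin s → ℚ)) => w) := PolyTime.id
  -- length bounds
  have b1 : ∀ w : List ((Fin s → ℚ) × (Fin s → ℚ) × (Fin s → ℚ)) × ℕ,
      w.1.length ≤ size w := by
    intro w
    have h1 := length_le_size w.1
    have h2 := size_prod w
    omega
  have b2 : ∀ w : (List ((Fin s → ℚ) × (Fin s → ℚ) × (Fin s → ℚ)) × ℕ) ×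
      ((Fin s → ℚ) × (Fin s → ℚ) × (Fin s → ℚ)), w.1.1.length ≤ size w := by
    intro w
    have h1 := b1 w.1
    have h2 := size_prod w
    omega
  have b3 : ∀ w : ((List ((Fin s → ℚ) × (Fin s → ℚ) × (Fin s → ℚ)) × ℕ) ×
      ((Fin s → ℚ) × (Fin s → ℚ) × (Fin s → ℚ))) × ℕ, w.1.1.1.length ≤ size w := by
    intro w
    have h1 := b2 w.1
    have h2 := size_prod w
    omega
  have b4 : ∀ w : (((List ((Fin s → ℚ) × (Fin s → ℚ) × (Fin s → ℚ)) × ℕ) ×
      ((Fin s → ℚ) × (Fin s → ℚ) × (Fin s → ℚ))) × ℕ) × ℕ, w.1.1.1.1.length ≤ size w := by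
    intro w
    have h1 := b3 w.1
    have h2 := size_prod w
    omega
  have i1 : PolyTime (fun w : List ((Fin s → ℚ) × (Fin s → ℚ) × (Fin s → ℚ)) × ℕ => w) :=
    PolyTime.id
  have i2 : PolyTime (fun w : (List ((Fin s → ℚ) × (Fin s → ℚ) × (Fin s → ℚ)) × ℕ) ×
      ((Fin s → ℚ) × (Fin s → ℚ) × (Fin s → ℚ)) => w) := PolyTime.id
  have i3 : PolyTime (fun w : ((List ((Fin s → ℚ) × (Fin s → ℚ) × (Fin s → ℚ)) × ℕ) ×
      ((Fin s → ℚ) × (Fin s → ℚ) × (Fin s → ℚ))) × ℕ => w) := PolyTime.id
  have i4 : PolyTime (fun w : (((List ((Fin s → ℚ) × (Fin s → ℚ) × (Fin s → ℚ)) × ℕ) ×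
      ((Fin s → ℚ) × (Fin s → ℚ) × (Fin s → ℚ))) × ℕ) × ℕ => w) := PolyTime.id
  have i5 : PolyTime (fun w : ((((List ((Fin s → ℚ) × (Fin s → ℚ) × (Fin s → ℚ)) × ℕ) ×
      ((Fin s → ℚ) × (Fin s → ℚ) × (Fin s → ℚ))) × ℕ) × ℕ) × ℕ => w) := PolyTime.id
  -- innermost
  have c5 := polyCand s i5.fst.fst.fst.fst.snd i5.fst.fst.snd i5.fst.snd i5.snd
  have t5 := i5.fst.fst.fst.snd
  have e5 := (PolyTime.mem t5.fst c5).and ((PolyTime.mem t5.snd.fst c5).and
    (PolyTime.mem t5.snd.snd c5))
  have e4 := PolyTime.any (polyRange i4.fst.fst.fst.fst.length i4.fst.fst.fst.snd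
    ⟨fun n => n, PB.id, b4⟩) e5
  have e3 := PolyTime.any (polyRange i3.fst.fst.fst.length i3.fst.fst.snd
    ⟨fun n => n, PB.id, b3⟩) e4
  have e2 := PolyTime.any (polyRange i2.fst.fst.length i2.fst.snd
    ⟨fun n => n, PB.id, b2⟩) e3
  have e1 := PolyTime.all i1.fst e2
  have c : ∀ k : ℕ, PolyTime (fun _ : List ((Fin s → ℚ) × (Fin s → ℚ) × (Fin s → ℚ)) × ℕ => k) :=
    fun k => PolyTime.const k
  have d1 := PolyTime.eq (((c 108).mul (i1.snd.pow 2)).add ((c 22).mul i1.snd)) i1.fst.length
  have e0 := PolyTime.any (PolyTime.range (hw.length.add (PolyTime.const 1))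
    ⟨fun n => n + 1, PB.id.add (PB.const 1), fun a => Nat.add_le_add_right (length_le_size a) 1⟩)
    (d1.and e1)
  exact e0

end poly

/-! ### correctness -/

lemma toPoint_inj {s : ℕ} {v w : Fin s → ℚ} (h : toPoint v = toPoint w) : v = w := by
  funext i
  have := congrArg (fun u : EuclideanSpace ℝ (Fin s) => u i) h
  simpa [toPoint] using this

open Classical in
lemma good_iff (s n m : ℕ) (hn : bigW m ≤ 2 * n + 24) (t : (Fin s → ℚ) × (Fin s → ℚ) × (Fin s → ℚ))
    (hc : ({toPoint t.1, toPoint t.2.1, toPoint t.2.2} :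
      Finset (EuclideanSpace ℝ (Fin s))).card = 3) :
    chk3 s n m t = true ↔
      GoodPt s (bigM (3 * m)) (bigW m) {toPoint t.1, toPoint t.2.1, toPoint t.2.2} := by
  have hR : R n m = bigW m + 1 := by unfold R; rw [min_eq_left hn]
  unfold chk3 GoodPt
  simp only [hR, List.any_eq_true, List.mem_range, Bool.and_eq_true, decide_eq_true_eq]
  constructor
  · rintro ⟨p, hp, q, hq, r, hr, h1, h2, h3⟩
    refine ⟨p, by omega, q, by omega, r, by omega, ?_⟩
    apply Finset.eq_of_subset_of_card_le
    · have key : ∀ v ∈ cand s m p q r, toPoint v ∈ ({toPoint (rv s (bigM (3 * m)) (.A p q)),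
          toPoint (rv s (bigM (3 * m)) (.B p r)), toPoint (rv s (bigM (3 * m)) (.C q r))} :
            Finset (EuclideanSpace ℝ (Fin s))) := by
        intro v hv
        simp only [cand, List.mem_cons, List.not_mem_nil, or_false] at hv
        simp only [Finset.mem_insert, Finset.mem_singleton]
        rcases hv with rfl | rfl | rfl
        · exact Or.inl rfl
        · exact Or.inr (Or.inl rfl)
        · exact Or.inr (Or.inr rfl)
      intro x hx
      simp only [Finset.mem_insert, Finset.mem_singleton] at hx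
      rcases hx with rfl | rfl | rfl
      · exact key _ h1
      · exact key _ h2
      · exact key _ h3
    · rw [hc]
      exact Finset.card_le_three
  · rintro ⟨p, hp, q, hq, r, hr, heq⟩
    have key : ∀ v, toPoint v ∈ ({toPoint t.1, toPoint t.2.1, toPoint t.2.2} :
        Finset (EuclideanSpace ℝ (Fin s))) → v ∈ cand s m p q r := by
      intro v hv
      rw [heq] at hv
      simp only [Finset.mem_insert, Finset.mem_singleton] at hv
      simp only [cand, List.mem_cons, List.not_mem_nil, or_false]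
      rcases hv with h | h | h
      · exact Or.inl (toPoint_inj h)
      · exact Or.inr (Or.inl (toPoint_inj h))
      · exact Or.inr (Or.inr (toPoint_inj h))
    exact ⟨p, by omega, q, by omega, r, by omega, key _ (by simp), key _ (by simp),
      key _ (by simp)⟩

lemma elems_length' (m : ℕ) (var : ℕ → ℕ) (sg : ℕ → Bool) :
    (elems (3 * m) var sg).length = 3 * (108 * m ^ 2 + 22 * m) := by
  have h1 : 2 * (3 * m) = 6 * m := by ring
  have h2 : 3 * m / 3 = m := by omega
  simp only [elems, List.length_append, List.length_flatMap, S1, S2, S3, List.length_cons,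
    List.length_nil, List.map_const', List.length_range, List.sum_replicate, smul_eq_mul, h1, h2]
  ring

lemma red_fst (s : ℕ) (ψ : List (Lit × Lit × Lit)) :
    (red s ψ).1 = pts s ψ.length (varOf (lits ψ)) (sgOf (lits ψ)) := by
  unfold red redList toInst pts
  rw [lits_length, List.map_map]
  rfl

lemma var_lt (ψ : List (Lit × Lit × Lit))
    (hψ : ∀ c ∈ ψ, c.1.1 < 3 * ψ.length ∧ c.2.1.1 < 3 * ψ.length ∧ c.2.2.1 < 3 * ψ.length) :
    ∀ t < 3 * ψ.length, varOf (lits ψ) t < 3 * ψ.length := by
  intro t ht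
  have hj : t / 3 < ψ.length := by omega
  obtain ⟨h1, h2, h3⟩ := getD_lits ψ (t / 3) hj
  obtain ⟨k1, k2, k3⟩ := hψ _ (List.getElem_mem hj)
  unfold varOf
  have : t = 3 * (t / 3) ∨ t = 3 * (t / 3) + 1 ∨ t = 3 * (t / 3) + 2 := by omega
  rcases this with h | h | h
  · rw [h, h1]; exact k1
  · rw [h, h2]; exact k2
  · rw [h, h3]; exact k3

lemma m_unique {m m' : ℕ} (h : 108 * m' ^ 2 + 22 * m' = 108 * m ^ 2 + 22 * m) : m' = m := by
  rcases lt_trichotomy m' m with h1 | h1 | h1
  · exfalso; nlinarith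
  · exact h1
  · exfalso; nlinarith

/-- **From an optimal partition to satisfiability.** -/
theorem check_correct {s : ℕ} (hs : 2 ≤ s) (ψ : List (Lit × Lit × Lit))
    (hψ : ∀ c ∈ ψ, c.1.1 < 3 * ψ.length ∧ c.2.1.1 < 3 * ψ.length ∧ c.2.2.1 < 3 * ψ.length)
    (out : List ((Fin s → ℚ) × (Fin s → ℚ) × (Fin s → ℚ)))
    (h1 : 3 * out.length = (red s ψ).1.length) (h2 : IsMaximum (red s ψ).1 (triangles out)) :
    Sat3' ψ ↔ check s out = true := by
  classical
  have hvar := var_lt ψ hψ
  rw [red_fst] at h1 h2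
  rw [sat_iff]
  rcases Nat.eq_zero_or_pos ψ.length with h0 | hm
  · rw [h0] at h1 ⊢
    have hout : out = [] := by
      apply List.eq_nil_of_length_eq_zero
      have : (pts s 0 (varOf (lits ψ)) (sgOf (lits ψ))).length = 0 := by
        simp [pts, elems]
      omega
    rw [hout]
    constructor
    · intro _
      rfl
    · intro _
      exact ⟨fun _ => true, fun j hj => absurd hj (Nat.not_lt_zero j)⟩
  obtain ⟨_, ⟨K, hK⟩, hsat⟩ := struct hs hm (varOf (lits ψ)) (sgOf (lits ψ)) hvar
  generalize ψ.length = m at *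
  generalize varOf (lits ψ) = var at *
  generalize sgOf (lits ψ) = sg at *
  have hlen : out.length = 108 * m ^ 2 + 22 * m := by
    have : (pts s m var sg).length = 3 * (108 * m ^ 2 + 22 * m) := by
      unfold pts
      rw [List.length_map, elems_length']
    omega
  have hW : bigW m ≤ 2 * out.length + 24 := by
    rw [hlen]
    unfold bigW
    nlinarith
  have hmem : ∀ t ∈ out, ({toPoint t.1, toPoint t.2.1, toPoint t.2.2} :
      Finset (EuclideanSpace ℝ (Fin s))) ∈ triangles out := by
    intro t ht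
    unfold triangles
    rw [List.mem_toFinset, List.mem_map]
    exact ⟨t, ht, rfl⟩
  have hmem' : ∀ t ∈ triangles out, ∃ u ∈ out, t = ({toPoint u.1, toPoint u.2.1, toPoint u.2.2} :
      Finset (EuclideanSpace ℝ (Fin s))) := by
    intro t ht
    unfold triangles at ht
    rw [List.mem_toFinset, List.mem_map] at ht
    obtain ⟨u, hu, rfl⟩ := ht
    exact ⟨u, hu, rfl⟩
  have hgood : (∀ t ∈ triangles out, GoodPt s (bigM (3 * m)) (bigW m) t) ↔
      out.all (fun t => chk3 s out.length m t) = true := by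
    rw [List.all_eq_true]
    constructor
    · intro h t ht
      have := hmem t ht
      exact (good_iff s out.length m hW t (h2.1.1 _ this).1).mpr (h _ this)
    · intro h t ht
      obtain ⟨u, hu, rfl⟩ := hmem' t ht
      exact (good_iff s out.length m hW u (h2.1.1 _ ht).1).mp (h u hu)
  have hcheck : check s out = true ↔ out.all (fun t => chk3 s out.length m t) = true := by
    unfold check
    rw [List.any_eq_true]
    simp only [List.mem_range, Bool.and_eq_true, decide_eq_true_eq]
    constructor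
    · rintro ⟨m', _, hm', h⟩
      rw [hlen] at hm'
      rwa [m_unique hm'] at h
    · intro h
      refine ⟨m, ?_, hlen.symm, h⟩
      rw [hlen]
      nlinarith
  rw [hcheck, ← hgood, hsat]
  constructor
  · rintro ⟨π, hπ, hg⟩
    have := (hK π hπ).mpr hg
    exact (hK _ h2.1).mp (this.trans (h2.2 π hπ))
  · intro h
    exact ⟨_, h2.1, h⟩

end Pool.Agent.H63.Check
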