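import Mathlib

set_option autoImplicit false

/-!
# Global solutions of autonomous ordinary differential equations and a first exit lemma
-/

namespace Pool.Agent.H63.OdeGlobal

open Set Metric Filter Topology
open scoped NNReal

section existence

variable {E : Type*} [NormedAddCommGroup E] [NormedSpace ℝ E] [CompleteSpace E]

lemma exists_on {f : E → E} {K L : ℝ≥0} (hL : ∀ x, ‖f x‖ ≤ L) (hK : LipschitzWith K f) (x₀ : E)
    (n : ℕ) : ∃ α : ℝ → E, α 0 = x₀ ∧
      ∀ t ∈ Icc (0 : ℝ) n, HasDerivWithinAt α (f (α t)) (Icc (0 : ℝ) n) t := by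
  have h : IsPicardLindelof (fun _ ↦ f) (⟨0, by simp⟩ : Icc (0 : ℝ) n) x₀ (L * n) 0 L K :=
    IsPicardLindelof.of_time_independent (fun x _ => hL x) (hK.lipschitzOnWith) (by simp)
  exact h.exists_eq_forall_mem_Icc_hasDerivWithinAt₀

/-- A bounded Lipschitz vector field has global forward solutions. -/
theorem exists_global {f : E → E} {K L : ℝ≥0} (hL : ∀ x, ‖f x‖ ≤ L) (hK : LipschitzWith K f)
    (x₀ : E) : ∃ α : ℝ → E, α 0 = x₀ ∧ ∀ t, 0 ≤ t → HasDerivWithinAt α (f (α t)) (Ici 0) t := by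
  choose β hβ0 hβ using exists_on hL hK x₀
  have hmem : ∀ (n : ℕ) (t : ℝ), 0 ≤ t → t < n → Icc (0 : ℝ) n ∈ 𝓝[Ici 0] t := by
    intro n t _ h1
    have : Ici (0 : ℝ) ∩ Iio (n : ℝ) ⊆ Icc 0 n := fun x hx => ⟨hx.1, le_of_lt hx.2⟩
    exact mem_of_superset (inter_mem self_mem_nhdsWithin
      (mem_nhdsWithin_of_mem_nhds (Iio_mem_nhds h1))) this
  have hder : ∀ (n : ℕ) (t : ℝ), 0 ≤ t → t < n →
      HasDerivWithinAt (β n) (f (β n t)) (Ici 0) t := fun n t h0 h1 =>
    (hβ n t ⟨h0, h1.le⟩).mono_of_mem_nhdsWithin (hmem n t h0 h1)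
  have hcons : ∀ m n : ℕ, m ≤ n → EqOn (β m) (β n) (Icc (0 : ℝ) m) := by
    intro m n hmn
    have hmn' : (m : ℝ) ≤ n := by exact_mod_cast hmn
    refine ODE_solution_unique (v := fun _ => f) (K := K) (fun _ => hK)
      (fun t ht => (hβ m t ht).continuousWithinAt)
      (fun t ht => (hder m t ht.1 ht.2).mono (Ici_subset_Ici.mpr ht.1))
      (fun t ht => ((hβ n t ⟨ht.1, ht.2.trans hmn'⟩).continuousWithinAt).mono
        (Icc_subset_Icc_right hmn'))
      (fun t ht => (hder n t ht.1 (ht.2.trans_le hmn')).mono (Ici_subset_Ici.mpr ht.1)) ?_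
    rw [hβ0, hβ0]
  refine ⟨fun t => β (⌈t⌉₊ + 1) t, ?_, ?_⟩
  · simp [hβ0]
  · intro t ht
    have hlt : ∀ s : ℝ, s < ((⌈s⌉₊ + 1 : ℕ) : ℝ) := by
      intro s
      have := Nat.le_ceil s
      push_cast
      linarith
    have key : ∀ s, 0 ≤ s → s < t + 1 → β (⌈s⌉₊ + 1) s = β (⌈t⌉₊ + 1 + 1) s := by
      intro s hs hst
      apply hcons
      · have : ⌈s⌉₊ ≤ ⌈t⌉₊ + 1 := by
          apply Nat.ceil_le.mpr
          have := Nat.le_ceil t
          push_cast
          linarith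
        omega
      · exact ⟨hs, (hlt s).le⟩
    have h2 : t < ((⌈t⌉₊ + 1 + 1 : ℕ) : ℝ) := by
      have := hlt t
      push_cast at this ⊢
      linarith
    have h1 := hder (⌈t⌉₊ + 1 + 1) t ht h2
    simp only
    rw [key t ht (by linarith)]
    refine h1.congr_of_eventuallyEq ?_ (key t ht (by linarith))
    have : Ici (0 : ℝ) ∩ Iio (t + 1) ∈ 𝓝[Ici 0] t :=
      inter_mem self_mem_nhdsWithin (mem_nhdsWithin_of_mem_nhds (Iio_mem_nhds (by linarith)))
    filter_upwards [this] with s hs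
    exact key s hs.1 hs.2

end existence

/-- **First exit lemma.** A finite family of functions which starts inside the box `|g k| < M k`
and whose derivatives point inward on the boundary of the box stays inside the box. -/
theorem first_exit {ι : Type*} [Finite ι] (g g' : ι → ℝ → ℝ) (M : ι → ℝ)
    (hg : ∀ k, ∀ t, 0 ≤ t → HasDerivWithinAt (g k) (g' k t) (Ici 0) t)
    (h0 : ∀ k, |g k 0| < M k)
    (h : ∀ t, 0 ≤ t → (∀ k, |g k t| ≤ M k) → ∀ k, |g k t| = M k → g k t * g' k t < 0) :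
    ∀ t, 0 ≤ t → ∀ k, |g k t| < M k := by
  by_contra hcon
  push Not at hcon
  obtain ⟨t₀, ht₀, k₀, hk₀⟩ := hcon
  have hcont : ∀ k, ContinuousOn (fun t => |g k t|) (Icc 0 t₀) := by
    intro k t ht
    exact ((hg k t ht.1).continuousWithinAt.mono Icc_subset_Ici_self).abs
  set S : Set ℝ := ⋃ k, (Icc 0 t₀ ∩ (fun t => |g k t|) ⁻¹' (Ici (M k))) with hS
  have hSc : IsClosed S :=
    isClosed_iUnion_of_finite (fun k => (hcont k).preimage_isClosed_of_isClosed isClosed_Icc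
      isClosed_Ici)
  have hSsub : S ⊆ Icc 0 t₀ := iUnion_subset (fun k => inter_subset_left)
  have hSne : S.Nonempty := ⟨t₀, mem_iUnion.mpr ⟨k₀, ⟨ht₀, le_rfl⟩, hk₀⟩⟩
  have hScomp : IsCompact S := isCompact_Icc.of_isClosed_subset hSc hSsub
  obtain ⟨t₁, ht₁S, ht₁min⟩ := hScomp.exists_isLeast hSne
  obtain ⟨k, hk⟩ := mem_iUnion.mp ht₁S
  obtain ⟨ht₁, hkM⟩ := hk
  simp only [mem_preimage, mem_Ici] at hkM
  have ht₁pos : 0 < t₁ := by
    rcases eq_or_lt_of_le ht₁.1 with h1 | h1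
    · rw [← h1] at hkM
      exact absurd (h0 k) (not_lt.mpr hkM)
    · exact h1
  have hbefore : ∀ t, 0 ≤ t → t < t₁ → ∀ j, |g j t| < M j := by
    intro t ht htt j
    by_contra hcon
    have : t ∈ S := mem_iUnion.mpr ⟨j, ⟨ht, htt.le.trans ht₁.2⟩, not_lt.mp hcon⟩
    exact absurd (ht₁min this) (not_le.mpr htt)
  have hev : ∀ᶠ t in 𝓝[<] t₁, 0 ≤ t ∧ t < t₁ := by
    filter_upwards [self_mem_nhdsWithin, mem_nhdsWithin_of_mem_nhds (Ioi_mem_nhds ht₁pos)] with t h1 h2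
    exact ⟨le_of_lt h2, h1⟩
  have hda : ∀ j, HasDerivAt (g j) (g' j t₁) t₁ := fun j =>
    (hg j t₁ ht₁.1).hasDerivAt (Ici_mem_nhds ht₁pos)
  have hle : ∀ j, |g j t₁| ≤ M j := by
    intro j
    have h1 : Tendsto (fun t => |g j t|) (𝓝[<] t₁) (𝓝 |g j t₁|) :=
      ((hda j).continuousAt.abs.tendsto).mono_left nhdsWithin_le_nhds
    refine le_of_tendsto h1 ?_
    filter_upwards [hev] with t ht
    exact (hbefore t ht.1 ht.2 j).le
  have heq : |g k t₁| = M k := le_antisymm (hle k) hkM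
  have hneg := h t₁ ht₁.1 hle k heq
  have hsq : HasDerivAt (fun t => g k t * g k t) (2 * (g k t₁ * g' k t₁)) t₁ := by
    have h1 := (hda k).mul (hda k)
    have e : g' k t₁ * g k t₁ + g k t₁ * g' k t₁ = 2 * (g k t₁ * g' k t₁) := by ring
    rw [e] at h1
    exact h1
  have hsl : Tendsto (slope (fun t => g k t * g k t) t₁) (𝓝[<] t₁)
      (𝓝 (2 * (g k t₁ * g' k t₁))) :=
    (hasDerivWithinAt_iff_tendsto_slope' (s := Iio t₁) (by simp)).mp hsq.hasDerivWithinAt
  have hge : 0 ≤ 2 * (g k t₁ * g' k t₁) := by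
    refine ge_of_tendsto hsl ?_
    filter_upwards [hev] with t ht
    rw [slope_def_field]
    apply div_nonneg_of_nonpos
    · have h1 := (hbefore t ht.1 ht.2 k).le
      rw [← heq] at h1
      have := abs_le_iff_mul_self_le.mp h1
      linarith
    · linarith [ht.2]
  linarith

end Pool.Agent.H63.OdeGlobal
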