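import Mathlib
import Pool.Agent.H63.OdeGlobal

set_option autoImplicit false

/-!
# The Winfree model: estimates
-/

namespace Pool.Agent.H63.Winfree

open Real

variable {N : ℕ}

/-- The right-hand side of the sinusoidal Winfree model. -/
noncomputable def rhs (ω : Fin N → ℝ) (κ : ℝ) (θ : Fin N → ℝ) (i : Fin N) : ℝ :=
  ω i - κ / N * ∑ j, (1 + cos (θ j)) * sin (θ i)

/-- `Θ` is a solution on `[0, ∞)` of the Winfree model. -/
def IsSolution (ω : Fin N → ℝ) (κ : ℝ) (Θ : ℝ → Fin N → ℝ) : Prop :=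
  ∀ t, 0 ≤ t → ∀ i, HasDerivWithinAt (fun s => Θ s i) (rhs ω κ (Θ t) i) (Set.Ici 0) t

/-- the sum of the influence functions -/
noncomputable def S (θ : Fin N → ℝ) : ℝ := ∑ j, (1 + cos (θ j))

lemma rhs_eq (ω : Fin N → ℝ) (κ : ℝ) (θ : Fin N → ℝ) (i : Fin N) :
    rhs ω κ θ i = ω i - κ / N * (S θ * sin (θ i)) := by
  unfold rhs S
  rw [Finset.sum_mul]

lemma S_nonneg (θ : Fin N → ℝ) : 0 ≤ S θ :=
  Finset.sum_nonneg (fun j _ => by linarith [neg_one_le_cos (θ j)])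

lemma S_le (θ : Fin N → ℝ) : S θ ≤ 2 * N := by
  have : S θ ≤ ∑ _j : Fin N, (2 : ℝ) :=
    Finset.sum_le_sum (fun j _ => by linarith [cos_le_one (θ j)])
  simpa [mul_comm] using this

lemma S_sub_le (θ θ' : Fin N → ℝ) : |S θ - S θ'| ≤ N * dist θ θ' := by
  unfold S
  rw [← Finset.sum_sub_distrib]
  refine (Finset.abs_sum_le_sum_abs _ _).trans ?_
  have : ∑ j : Fin N, |1 + cos (θ j) - (1 + cos (θ' j))| ≤ ∑ _j : Fin N, dist θ θ' := by
    apply Finset.sum_le_sum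
    intro j _
    have h1 : 1 + cos (θ j) - (1 + cos (θ' j)) = cos (θ j) - cos (θ' j) := by ring
    rw [h1]
    exact (abs_cos_sub_cos_le _ _).trans (by rw [← Real.dist_eq]; exact dist_le_pi_dist θ θ' j)
  simpa using this

/-- existence of solutions -/
theorem exists_solution (ω : Fin N → ℝ) (κ : ℝ) (Θ₀ : Fin N → ℝ) :
    ∃ Θ : ℝ → Fin N → ℝ, IsSolution ω κ Θ ∧ Θ 0 = Θ₀ := by
  have hL0 : 0 ≤ ∑ j, |ω j| + 2 * |κ| := by positivity
  have hK0 : 0 ≤ 3 * |κ| := by positivity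
  have hL : ∀ θ : Fin N → ℝ, ‖(fun i => rhs ω κ θ i)‖ ≤ (⟨∑ j, |ω j| + 2 * |κ|, hL0⟩ : NNReal) := by
    intro θ
    refine (pi_norm_le_iff_of_nonneg hL0).mpr (fun i => ?_)
    have hN : (0 : ℝ) < N := by
      have := i.pos
      exact_mod_cast this
    rw [rhs_eq, Real.norm_eq_abs]
    have h1 : |ω i| ≤ ∑ j, |ω j| :=
      Finset.single_le_sum (f := fun j => |ω j|) (fun j _ => abs_nonneg _) (Finset.mem_univ i)
    have h2 : |κ / N * (S θ * sin (θ i))| ≤ 2 * |κ| := by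
      rw [abs_mul, abs_mul, abs_div, abs_of_nonneg (S_nonneg θ), abs_of_pos hN]
      have h3 : S θ * |sin (θ i)| ≤ 2 * N * 1 :=
        mul_le_mul (S_le θ) (abs_sin_le_one _) (abs_nonneg _) (by positivity)
      calc |κ| / N * (S θ * |sin (θ i)|) ≤ |κ| / N * (2 * N * 1) :=
            mul_le_mul_of_nonneg_left h3 (by positivity)
        _ = 2 * |κ| := by field_simp
    exact (abs_sub _ _).trans (add_le_add h1 h2)
  have hK : LipschitzWith ⟨3 * |κ|, hK0⟩ (fun θ : Fin N → ℝ => (fun i => rhs ω κ θ i)) := by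
    apply LipschitzWith.of_dist_le_mul
    intro θ θ'
    refine (dist_pi_le_iff (mul_nonneg hK0 dist_nonneg)).mpr (fun i => ?_)
    have hN : (0 : ℝ) < N := by
      have := i.pos
      exact_mod_cast this
    rw [Real.dist_eq, rhs_eq, rhs_eq]
    have e1 : ω i - κ / N * (S θ * sin (θ i)) - (ω i - κ / N * (S θ' * sin (θ' i)))
        = -(κ / N) * ((S θ - S θ') * sin (θ i) + S θ' * (sin (θ i) - sin (θ' i))) := by ring
    rw [e1, abs_mul, abs_neg, abs_div, abs_of_pos hN]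
    have h1 : |(S θ - S θ') * sin (θ i)| ≤ N * dist θ θ' * 1 := by
      rw [abs_mul]
      exact mul_le_mul (S_sub_le _ _) (abs_sin_le_one _) (abs_nonneg _) (by positivity)
    have h2 : |S θ' * (sin (θ i) - sin (θ' i))| ≤ 2 * N * dist θ θ' := by
      rw [abs_mul, abs_of_nonneg (S_nonneg θ')]
      refine mul_le_mul (S_le _) ?_ (abs_nonneg _) (by positivity)
      exact (abs_sin_sub_sin_le _ _).trans (by rw [← Real.dist_eq]; exact dist_le_pi_dist θ θ' i)
    have h3 : |(S θ - S θ') * sin (θ i) + S θ' * (sin (θ i) - sin (θ' i))|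
        ≤ 3 * N * dist θ θ' := (abs_add_le _ _).trans (by linarith)
    calc |κ| / N * |(S θ - S θ') * sin (θ i) + S θ' * (sin (θ i) - sin (θ' i))|
        ≤ |κ| / N * (3 * N * dist θ θ') := mul_le_mul_of_nonneg_left h3 (by positivity)
      _ = 3 * |κ| * dist θ θ' := by field_simp
  obtain ⟨α, hα0, hα⟩ := OdeGlobal.exists_global hL hK Θ₀
  refine ⟨α, fun t ht i => ?_, hα0⟩
  exact (hasDerivWithinAt_pi.mp (hα t ht)) i

/-- Estimate of the mean field. -/
lemma mean_est (hN : 0 < N) {θ : Fin N → ℝ} {B C : Finset (Fin N)} (hd : Disjoint B C)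
    {φ X δ : ℝ} (hB : ∀ j ∈ B, |θ j| ≤ δ) (hC : ∀ j ∈ C, |θ j - φ| ≤ X) :
    |S θ / N - (2 * (B.card / N) + C.card / N + C.card / N * cos φ)| ≤
      B.card / N * (δ ^ 2 / 2) + C.card / N * X + 2 * (1 - B.card / N - C.card / N) := by
  have hNr : (0 : ℝ) < N := by exact_mod_cast hN
  have hsplit : S θ = ∑ j ∈ B, (1 + cos (θ j)) + ∑ j ∈ C, (1 + cos (θ j)) +
      ∑ j ∈ (B ∪ C)ᶜ, (1 + cos (θ j)) := by
    unfold S
    rw [← Finset.sum_add_sum_compl (B ∪ C), Finset.sum_union hd]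
  have h1 : |∑ j ∈ B, (1 + cos (θ j)) - 2 * B.card| ≤ B.card * (δ ^ 2 / 2) := by
    have e : ∑ j ∈ B, (1 + cos (θ j)) - 2 * B.card = ∑ j ∈ B, (cos (θ j) - 1) := by
      rw [Finset.sum_add_distrib, Finset.sum_sub_distrib]
      simp
      ring
    rw [e]
    refine (Finset.abs_sum_le_sum_abs _ _).trans ?_
    rw [← nsmul_eq_mul]
    apply Finset.sum_le_card_nsmul
    intro j hj
    have k1 : 1 - (θ j) ^ 2 / 2 ≤ cos (θ j) := one_sub_sq_div_two_le_cos
    have k2 := cos_le_one (θ j)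
    have k3 : (θ j) ^ 2 ≤ δ ^ 2 := by
      rw [← sq_abs]
      exact pow_le_pow_left₀ (abs_nonneg _) (hB j hj) 2
    rw [abs_le]
    constructor <;> linarith
  have h2 : |∑ j ∈ C, (1 + cos (θ j)) - C.card * (1 + cos φ)| ≤ C.card * X := by
    have e : ∑ j ∈ C, (1 + cos (θ j)) - C.card * (1 + cos φ)
        = ∑ j ∈ C, (cos (θ j) - cos φ) := by
      rw [Finset.sum_add_distrib, Finset.sum_sub_distrib]
      simp
      ring
    rw [e]
    refine (Finset.abs_sum_le_sum_abs _ _).trans ?_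
    rw [← nsmul_eq_mul]
    apply Finset.sum_le_card_nsmul
    intro j hj
    exact (abs_cos_sub_cos_le _ _).trans (hC j hj)
  have hcard : (((B ∪ C)ᶜ.card : ℕ) : ℝ) = N - B.card - C.card := by
    rw [Finset.card_compl, Fintype.card_fin, Finset.card_union_of_disjoint hd]
    have : B.card + C.card ≤ N := by
      rw [← Finset.card_union_of_disjoint hd]
      simpa using Finset.card_le_univ (B ∪ C)
    rw [Nat.cast_sub this]
    push_cast
    ring
  have h3 : |∑ j ∈ (B ∪ C)ᶜ, (1 + cos (θ j))| ≤ (N - B.card - C.card) * 2 := by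
    rw [← hcard, ← nsmul_eq_mul]
    refine (Finset.abs_sum_le_sum_abs _ _).trans ?_
    apply Finset.sum_le_card_nsmul
    intro j _
    have k1 := neg_one_le_cos (θ j)
    have k2 := cos_le_one (θ j)
    rw [abs_le]
    constructor <;> linarith
  have e : S θ / N - (2 * (B.card / N) + C.card / N + C.card / N * cos φ)
      = ((∑ j ∈ B, (1 + cos (θ j)) - 2 * B.card) + (∑ j ∈ C, (1 + cos (θ j))
        - C.card * (1 + cos φ)) + ∑ j ∈ (B ∪ C)ᶜ, (1 + cos (θ j))) / N := by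
    rw [hsplit]
    field_simp
    ring
  have e' : B.card / N * (δ ^ 2 / 2) + C.card / N * X + 2 * (1 - B.card / N - C.card / N)
      = (B.card * (δ ^ 2 / 2) + C.card * X + (N - B.card - C.card) * 2) / N := by
    field_simp
  rw [e, e', abs_div, abs_of_pos hNr]
  apply div_le_div_of_nonneg_right _ hNr.le
  exact (abs_add_le _ _).trans (add_le_add ((abs_add_le _ _).trans (add_le_add h1 h2)) h3)

lemma sin_expand {φ x : ℝ} (hx : |x| ≤ 1) : |sin (φ + x) - sin φ - x * cos φ| ≤ |x| ^ 2 := by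
  have e : sin (φ + x) - sin φ - x * cos φ = sin φ * (cos x - 1) + cos φ * (sin x - x) := by
    rw [sin_add]; ring
  rw [e]
  have h1 : |sin φ * (cos x - 1)| ≤ |x| ^ 2 / 2 := by
    rw [abs_mul]
    have k1 : 1 - x ^ 2 / 2 ≤ cos x := one_sub_sq_div_two_le_cos
    have k2 := cos_le_one x
    have k3 : |cos x - 1| ≤ |x| ^ 2 / 2 := by
      rw [sq_abs, abs_le]
      constructor <;> nlinarith [sq_nonneg x]
    calc |sin φ| * |cos x - 1| ≤ 1 * (|x| ^ 2 / 2) :=
          mul_le_mul (abs_sin_le_one _) k3 (abs_nonneg _) zero_le_one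
      _ = |x| ^ 2 / 2 := one_mul _
  have h2 : |cos φ * (sin x - x)| ≤ |x| ^ 2 / 2 := by
    rw [abs_mul, abs_sub_comm (sin x) x]
    have k1 := abs_sub_sin_le x
    have k2 : |x| ^ 3 / 6 ≤ |x| ^ 2 / 2 := by
      have : |x| ^ 3 ≤ |x| ^ 2 := pow_le_pow_of_le_one (abs_nonneg _) hx (by norm_num)
      have h0 : 0 ≤ |x| ^ 2 := by positivity
      linarith
    calc |cos φ| * |x - sin x| ≤ 1 * (|x| ^ 2 / 2) :=
          mul_le_mul (abs_cos_le_one _) (k1.trans k2) (abs_nonneg _) zero_le_one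
      _ = |x| ^ 2 / 2 := one_mul _
  refine (abs_add_le _ _).trans ?_
  linarith

/-- The derivative of the corrected difference points inward. -/
lemma trap_C {b c R φ x Δ v : ℝ} (hb : 1 / 8 ≤ b) (hc : 3 / 4 ≤ c) (hbc : b + c ≤ 1)
    (hR0 : 0 ≤ R) (hR2 : R ≤ 2)
    (hR : |R - (2 * b + c + c * cos φ)| ≤
      b * ((1 / 10) ^ 2 / 2) + c * (52 / 10000) + 2 * (1 - b - c))
    (hv : |v - 1| ≤ 1 / 10 ^ 6 + 2 / 100) (hx : |x| ≤ 52 / 10000) (hx' : 49 / 10000 ≤ |x|)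
    (hΔ : |Δ| ≤ 2 / 10 ^ 6) :
    x * (Δ - 1 / 100 * (R * (sin (φ + x) - sin φ)) +
      1 / 100 * (x * (v * ((2 * b + c) * cos φ + c * cos φ ^ 2 - c / 2)))) < 0 := by
  set y := |x| with hy
  have hy0 : 0 ≤ y := abs_nonneg x
  have hxy : x ^ 2 = y ^ 2 := (sq_abs x).symm
  set s1 := sin (φ + x) - sin φ - x * cos φ with hs1
  have hs1' : |s1| ≤ y ^ 2 := sin_expand (by linarith)
  set e2 := R - (2 * b + c + c * cos φ) with he2
  set q := (2 * b + c) * cos φ + c * cos φ ^ 2 - c / 2 with hq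
  have hcos := abs_cos_le_one φ
  have hq' : |q| ≤ 2 := by
    have h1 := neg_one_le_cos φ
    have h2 := cos_le_one φ
    have h3 : 0 ≤ cos φ ^ 2 := sq_nonneg _
    have h4 : cos φ ^ 2 ≤ 1 := cos_sq_le_one φ
    rw [abs_le, hq]
    constructor <;> nlinarith
  have key : x * (Δ - 1 / 100 * (R * (sin (φ + x) - sin φ)) + 1 / 100 * (x * (v * q)))
      = x * Δ + 1 / 100 * (-(x ^ 2 * (c / 2)) + -(x ^ 2 * (cos φ * e2)) + -(R * (x * s1))
        + x ^ 2 * ((v - 1) * q)) := by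
    rw [hs1, he2, hq]
    ring
  rw [key]
  have h1 : x * Δ ≤ y * (2 / 10 ^ 6) := by
    refine (le_abs_self _).trans ?_
    rw [abs_mul]
    exact mul_le_mul_of_nonneg_left hΔ hy0
  have h2 : -(x ^ 2 * (cos φ * e2)) ≤ y ^ 2 * (b * ((1 / 10) ^ 2 / 2) + c * (52 / 10000)
      + 2 * (1 - b - c)) := by
    refine (neg_le_abs _).trans ?_
    rw [abs_mul, hxy, abs_of_nonneg (sq_nonneg y), abs_mul]
    apply mul_le_mul_of_nonneg_left _ (sq_nonneg y)
    calc |cos φ| * |e2| ≤ 1 * |e2| := mul_le_mul_of_nonneg_right hcos (abs_nonneg _)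
      _ = |e2| := one_mul _
      _ ≤ _ := hR
  have h3 : -(R * (x * s1)) ≤ y ^ 2 * (2 * y) := by
    refine (neg_le_abs _).trans ?_
    rw [abs_mul, abs_mul, abs_of_nonneg hR0]
    calc R * (|x| * |s1|) ≤ 2 * (y * y ^ 2) :=
          mul_le_mul hR2 (mul_le_mul_of_nonneg_left hs1' hy0) (by positivity) (by norm_num)
      _ = y ^ 2 * (2 * y) := by ring
  have h4 : x ^ 2 * ((v - 1) * q) ≤ y ^ 2 * ((1 / 10 ^ 6 + 2 / 100) * 2) := by
    rw [hxy]
    apply mul_le_mul_of_nonneg_left _ (sq_nonneg y)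
    refine (le_abs_self _).trans ?_
    rw [abs_mul]
    exact mul_le_mul hv hq' (abs_nonneg _) (by positivity)
  have h5 : -(x ^ 2 * (c / 2)) = -(y ^ 2 * (c / 2)) := by rw [hxy]
  rw [h5]
  have h6 : y ^ 2 * (b * ((1 / 10) ^ 2 / 2) + c * (52 / 10000) + 2 * (1 - b - c))
      + y ^ 2 * (2 * y) + y ^ 2 * ((1 / 10 ^ 6 + 2 / 100) * 2) - y ^ 2 * (c / 2)
      ≤ - (y ^ 2 * (6 / 100)) := by
    have h7 : b * ((1 / 10) ^ 2 / 2) + c * (52 / 10000) + 2 * (1 - b - c)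
      + 2 * y + (1 / 10 ^ 6 + 2 / 100) * 2 - c / 2 + 6 / 100 ≤ 0 := by
      linarith
    nlinarith [sq_nonneg y, mul_le_mul_of_nonneg_left h7 (sq_nonneg y)]
  have h8 : y * (2 / 10 ^ 6) - 1 / 100 * (y ^ 2 * (6 / 100)) < 0 := by
    have h9 : (2 : ℝ) / 10 ^ 6 - 1 / 100 * (y * (6 / 100)) < 0 := by linarith
    have h10 : 0 < y := by linarith
    have := mul_neg_of_pos_of_neg h10 h9
    linarith
  linarith

/-- The derivative of a slow phase points inward. -/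
lemma trap_B {R θ w : ℝ} (hR : 2 / 10 ≤ R) (hθ : |θ| = 1 / 10) (hw : |w| ≤ 1 / 10 ^ 6) :
    θ * (w - 1 / 100 * (R * sin θ)) < 0 := by
  have hs : 1 / 20 < sin (1 / 10 : ℝ) := by
    have := sin_gt_sub_cube (show (0 : ℝ) < 1 / 10 by norm_num)
    linarith
  have h1 : θ * sin θ = 1 / 10 * sin (1 / 10 : ℝ) := by
    rcases (abs_eq (by norm_num : (0 : ℝ) ≤ 1 / 10)).mp hθ with h | h
    · rw [h]
    · rw [h, sin_neg]; ring
  have h2 : θ * w ≤ 1 / 10 * (1 / 10 ^ 6) := by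
    refine (le_abs_self _).trans ?_
    rw [abs_mul, hθ]
    exact mul_le_mul_of_nonneg_left hw (by norm_num)
  have h3 : θ * (w - 1 / 100 * (R * sin θ)) = θ * w - 1 / 100 * (R * (θ * sin θ)) := by ring
  rw [h3, h1]
  have h4 : 2 / 10 * (1 / 10 * (1 / 20)) ≤ R * (1 / 10 * sin (1 / 10 : ℝ)) :=
    mul_le_mul hR (by linarith) (by norm_num) (by linarith)
  linarith

end Pool.Agent.H63.Winfree
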