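import Mathlib
import Pool.Agent.H63.Winfree

set_option autoImplicit false

/-!
# The Winfree model: partial death and partial locking
-/

namespace Pool.Agent.H63.Winfree

open Real Filter Topology

variable {N : ℕ}

/-- `B`-partial oscillator death: the phases of the oscillators in `B` stay bounded. -/
def PartialDeath (B : Finset (Fin N)) (Θ : ℝ → Fin N → ℝ) : Prop :=
  ∀ i ∈ B, ∃ K : ℝ, ∀ t, 0 ≤ t → |Θ t i| ≤ K

/-- `C`-partial oscillator locking: the phase differences in `C` stay bounded, and `θᵢ(t) / t` does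
not converge to `0` for any `i ∈ C`. -/
def PartialLocking (C : Finset (Fin N)) (Θ : ℝ → Fin N → ℝ) : Prop :=
  (∀ i ∈ C, ∀ j ∈ C, ∃ K : ℝ, ∀ t, 0 ≤ t → |Θ t i - Θ t j| ≤ K) ∧
    ∀ i ∈ C, ¬ Tendsto (fun t => Θ t i / t) atTop (𝓝 0)

/-- the correction factor -/
noncomputable def Ef (b c : ℝ) (φ : ℝ) : ℝ :=
  exp (1 / 100 * ((2 * b + c) * sin φ + c / 4 * sin (2 * φ)))

lemma Ef_deriv {b c : ℝ} {φ : ℝ → ℝ} {v t : ℝ} {s : Set ℝ} (h : HasDerivWithinAt φ v s t) :
    HasDerivWithinAt (fun u => Ef b c (φ u))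
      (Ef b c (φ t) * (1 / 100 * (v * ((2 * b + c) * cos (φ t) + c * cos (φ t) ^ 2 - c / 2)))) s t := by
  have h1 := h.sin.const_mul (2 * b + c)
  have h2 := ((h.const_mul 2).sin).const_mul (c / 4)
  have h3 := ((h1.add h2).const_mul (1 / 100)).exp
  unfold Ef
  refine h3.congr_deriv ?_
  rw [cos_two_mul]
  simp only [Pi.add_apply]
  ring

lemma Ef_bounds {b c : ℝ} (hb : 1 / 8 ≤ b) (hc : 3 / 4 ≤ c) (hbc : b + c ≤ 1) (φ : ℝ) :
    984 / 1000 ≤ Ef b c φ ∧ Ef b c φ * (984 / 1000) ≤ 1 := by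
  set u := 1 / 100 * ((2 * b + c) * sin φ + c / 4 * sin (2 * φ)) with hu
  have h1 := neg_one_le_sin φ
  have h2 := sin_le_one φ
  have h3 := neg_one_le_sin (2 * φ)
  have h4 := sin_le_one (2 * φ)
  have k1 : (2 * b + c) * sin φ ≤ (2 * b + c) * 1 := mul_le_mul_of_nonneg_left h2 (by linarith)
  have k2 : (2 * b + c) * (-1) ≤ (2 * b + c) * sin φ := mul_le_mul_of_nonneg_left h1 (by linarith)
  have k3 : c / 4 * sin (2 * φ) ≤ c / 4 * 1 := mul_le_mul_of_nonneg_left h4 (by linarith)
  have k4 : c / 4 * (-1) ≤ c / 4 * sin (2 * φ) := mul_le_mul_of_nonneg_left h3 (by linarith)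
  have hu1 : -(16 / 1000) ≤ u := by rw [hu]; linarith
  have hu2 : u ≤ 16 / 1000 := by rw [hu]; linarith
  have e : Ef b c φ = exp u := rfl
  rw [e]
  constructor
  · have := add_one_le_exp u
    linarith
  · have h5 := add_one_le_exp (-u)
    have h6 : exp u * exp (-u) = 1 := by rw [← exp_add]; simp
    have h7 : 984 / 1000 ≤ exp (-u) := by linarith
    calc exp u * (984 / 1000) ≤ exp u * exp (-u) :=
          mul_le_mul_of_nonneg_left h7 (exp_pos u).le
      _ = 1 := h6

/-- **Main theorem.** -/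
theorem main (hN : 0 < N) (ω : Fin N → ℝ) (B C : Finset (Fin N)) (hd : Disjoint B C)
    (hB : (1 / 8 : ℝ) * N ≤ B.card) (hC : (3 / 4 : ℝ) * N ≤ C.card)
    (hωB : ∀ i ∈ B, |ω i| ≤ 1 / 10 ^ 6) (hωC : ∀ i ∈ C, |ω i - 1| ≤ 1 / 10 ^ 6)
    (Θ : ℝ → Fin N → ℝ) (hΘ : IsSolution ω (1 / 100) Θ) (h0 : Θ 0 = 0) :
    PartialDeath B Θ ∧ PartialLocking C Θ := by
  classical
  have hNr : (0 : ℝ) < N := by exact_mod_cast hN
  set b : ℝ := B.card / N with hb
  set c : ℝ := C.card / N with hc
  have hb8 : 1 / 8 ≤ b := by rw [hb, le_div_iff₀ hNr]; exact hB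
  have hc4 : 3 / 4 ≤ c := by rw [hc, le_div_iff₀ hNr]; exact hC
  have hbc : b + c ≤ 1 := by
    rw [hb, hc, ← add_div, div_le_one hNr]
    have : B.card + C.card ≤ N := by
      rw [← Finset.card_union_of_disjoint hd]
      simpa using Finset.card_le_univ (B ∪ C)
    exact_mod_cast this
  -- reference oscillator
  have hCne : C.Nonempty := by
    rw [← Finset.card_pos]
    have : (0 : ℝ) < C.card := by nlinarith
    exact_mod_cast this
  obtain ⟨j₀, hj₀⟩ := hCne
  -- the mean field
  let R : ℝ → ℝ := fun t => S (Θ t) / N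
  have hR0 : ∀ t, 0 ≤ R t := fun t => div_nonneg (S_nonneg _) hNr.le
  have hR2 : ∀ t, R t ≤ 2 := fun t => by
    show S (Θ t) / N ≤ 2
    rw [div_le_iff₀ hNr]
    exact S_le _
  have hrhs : ∀ t i, rhs ω (1 / 100) (Θ t) i = ω i - 1 / 100 * (R t * sin (Θ t i)) := by
    intro t i
    rw [rhs_eq]
    show _ = ω i - 1 / 100 * (S (Θ t) / N * sin (Θ t i))
    field_simp
  have hder : ∀ i t, 0 ≤ t → HasDerivWithinAt (fun s => Θ s i)
      (ω i - 1 / 100 * (R t * sin (Θ t i))) (Set.Ici 0) t := by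
    intro i t ht
    rw [← hrhs]
    exact hΘ t ht i
  have hRsin : ∀ t i, |R t * sin (Θ t i)| ≤ 2 := by
    intro t i
    rw [abs_mul, abs_of_nonneg (hR0 t)]
    calc R t * |sin (Θ t i)| ≤ 2 * 1 :=
          mul_le_mul (hR2 t) (abs_sin_le_one _) (abs_nonneg _) (by norm_num)
      _ = 2 := by norm_num
  have hvel : ∀ i ∈ C, ∀ t, |ω i - 1 / 100 * (R t * sin (Θ t i)) - 1| ≤ 1 / 10 ^ 6 + 2 / 100 := by
    intro i hi t
    have h1 := hωC i hi
    have h2 := hRsin t i
    rw [abs_le] at h1 h2 ⊢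
    constructor <;> linarith [h1.1, h1.2, h2.1, h2.2]
  -- the functions for the exit lemma
  let φ : ℝ → ℝ := fun t => Θ t j₀
  let v : ℝ → ℝ := fun t => ω j₀ - 1 / 100 * (R t * sin (Θ t j₀))
  let g : Fin N → ℝ → ℝ := fun k t =>
    if k ∈ B then Θ t k else if k ∈ C then (Θ t k - φ t) * Ef b c (φ t) else 0
  let g' : Fin N → ℝ → ℝ := fun k t =>
    if k ∈ B then ω k - 1 / 100 * (R t * sin (Θ t k)) else if k ∈ C then
      ((ω k - 1 / 100 * (R t * sin (Θ t k))) - v t) * Ef b c (φ t) + (Θ t k - φ t) *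
        (Ef b c (φ t) * (1 / 100 * (v t * ((2 * b + c) * cos (φ t) + c * cos (φ t) ^ 2 - c / 2))))
      else 0
  let M : Fin N → ℝ := fun k => if k ∈ B then 1 / 10 else if k ∈ C then 1 / 200 else 1
  have hBC : ∀ k ∈ C, k ∉ B := fun k hk hk' => (Finset.disjoint_left.mp hd) hk' hk
  have gB : ∀ k ∈ B, ∀ t, g k t = Θ t k := fun k hk t => if_pos hk
  have gC : ∀ k ∈ C, ∀ t, g k t = (Θ t k - φ t) * Ef b c (φ t) := fun k hk t => by
    simp only [g, if_neg (hBC k hk), if_pos hk]
  have MB : ∀ k ∈ B, M k = 1 / 10 := fun k hk => if_pos hk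
  have MC : ∀ k ∈ C, M k = 1 / 200 := fun k hk => by
    simp only [M, if_neg (hBC k hk), if_pos hk]
  have exit := OdeGlobal.first_exit g g' M ?_ ?_ ?_
  rotate_left
  · -- derivatives
    intro k t ht
    by_cases hk : k ∈ B
    · have e1 : g k = fun s => Θ s k := by funext s; exact gB k hk s
      have e2 : g' k t = ω k - 1 / 100 * (R t * sin (Θ t k)) := if_pos hk
      rw [e1, e2]
      exact hder k t ht
    · by_cases hk' : k ∈ C
      · have e1 : g k = fun s => (Θ s k - φ s) * Ef b c (φ s) := by funext s; exact gC k hk' s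
        have e2 : g' k t = ((ω k - 1 / 100 * (R t * sin (Θ t k))) - v t) * Ef b c (φ t) +
            (Θ t k - φ t) * (Ef b c (φ t) * (1 / 100 * (v t * ((2 * b + c) * cos (φ t)
              + c * cos (φ t) ^ 2 - c / 2)))) := by
          simp only [g', if_neg hk, if_pos hk']
        rw [e1, e2]
        exact ((hder k t ht).sub (hder j₀ t ht)).mul (Ef_deriv (hder j₀ t ht))
      · have e1 : g k = fun _ => 0 := by funext s; simp only [g, if_neg hk, if_neg hk']
        have e2 : g' k t = 0 := by simp only [g', if_neg hk, if_neg hk']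
        rw [e1, e2]
        exact hasDerivWithinAt_const _ _ _
  · -- initial values
    intro k
    have h00 : ∀ j, Θ 0 j = 0 := fun j => by rw [h0]; rfl
    have : g k 0 = 0 := by
      show (if k ∈ B then Θ 0 k else if k ∈ C then (Θ 0 k - Θ 0 j₀) * _ else 0) = 0
      rw [h00, h00]
      simp
    rw [this, abs_zero]
    show (0 : ℝ) < if k ∈ B then 1 / 10 else if k ∈ C then 1 / 200 else 1
    split_ifs <;> norm_num
  · -- the field points inward
    intro t ht hall k hk
    have rB : ∀ j ∈ B, |Θ t j| ≤ 1 / 10 := by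
      intro j hj
      have := hall j
      rwa [gB j hj, MB j hj] at this
    obtain ⟨E1, E2⟩ := Ef_bounds hb8 hc4 hbc (φ t)
    have Epos : 0 < Ef b c (φ t) := exp_pos _
    have rC : ∀ j ∈ C, |Θ t j - φ t| ≤ 52 / 10000 := by
      intro j hj
      have := hall j
      rw [gC j hj, MC j hj, abs_mul, abs_of_pos Epos] at this
      have h1 : |Θ t j - φ t| * (984 / 1000) ≤ |Θ t j - φ t| * Ef b c (φ t) :=
        mul_le_mul_of_nonneg_left E1 (abs_nonneg _)
      linarith
    have hest := mean_est hN (θ := Θ t) hd rB rC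
    have hRt : |R t - (2 * b + c + c * cos (φ t))| ≤
        b * ((1 / 10) ^ 2 / 2) + c * (52 / 10000) + 2 * (1 - b - c) := hest
    by_cases hkB : k ∈ B
    · have e2 : g' k t = ω k - 1 / 100 * (R t * sin (Θ t k)) := if_pos hkB
      rw [gB k hkB, MB k hkB] at hk
      rw [gB k hkB, e2]
      refine trap_B ?_ hk (hωB k hkB)
      -- lower bound of the mean field
      have h1 : (B.card : ℝ) * (2 - (1 / 10) ^ 2 / 2) ≤ ∑ j ∈ B, (1 + cos (Θ t j)) := by
        rw [← nsmul_eq_mul]
        apply Finset.card_nsmul_le_sum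
        intro j hj
        have k1 : 1 - (Θ t j) ^ 2 / 2 ≤ cos (Θ t j) := one_sub_sq_div_two_le_cos
        have k3 : (Θ t j) ^ 2 ≤ (1 / 10) ^ 2 := by
          rw [← sq_abs]
          exact pow_le_pow_left₀ (abs_nonneg _) (rB j hj) 2
        linarith
      have h2 : ∑ j ∈ B, (1 + cos (Θ t j)) ≤ S (Θ t) :=
        Finset.sum_le_sum_of_subset_of_nonneg (Finset.subset_univ _)
          (fun j _ _ => by linarith [neg_one_le_cos (Θ t j)])
      show 2 / 10 ≤ S (Θ t) / N
      rw [le_div_iff₀ hNr]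
      linarith
    · by_cases hkC : k ∈ C
      · have e2 : g' k t = ((ω k - 1 / 100 * (R t * sin (Θ t k))) - v t) * Ef b c (φ t) +
            (Θ t k - φ t) * (Ef b c (φ t) * (1 / 100 * (v t * ((2 * b + c) * cos (φ t)
              + c * cos (φ t) ^ 2 - c / 2)))) := by
          simp only [g', if_neg hkB, if_pos hkC]
        rw [gC k hkC, MC k hkC, abs_mul, abs_of_pos Epos] at hk
        rw [gC k hkC, e2]
        set x := Θ t k - φ t with hx
        have hxl : 49 / 10000 ≤ |x| := by
          have h1 : |x| * (Ef b c (φ t) * (984 / 1000)) ≤ |x| * 1 :=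
            mul_le_mul_of_nonneg_left E2 (abs_nonneg _)
          have h2 : |x| * (Ef b c (φ t) * (984 / 1000)) = |x| * Ef b c (φ t) * (984 / 1000) := by
            ring
          rw [h2, hk] at h1
          linarith
        have hΔ : |ω k - ω j₀| ≤ 2 / 10 ^ 6 := by
          have h1 := hωC k hkC
          have h2 := hωC j₀ hj₀
          rw [abs_le] at h1 h2 ⊢
          constructor <;> linarith [h1.1, h1.2, h2.1, h2.2]
        have htrap := trap_C hb8 hc4 hbc (hR0 t) (hR2 t) hRt (hvel j₀ hj₀ t) (rC k hkC) hxl hΔ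
        have hfx : φ t + x = Θ t k := by rw [hx]; ring
        rw [← hx, hfx] at htrap
        have e3 : x * Ef b c (φ t) * ((ω k - 1 / 100 * (R t * sin (Θ t k)) - v t) * Ef b c (φ t) +
            x * (Ef b c (φ t) * (1 / 100 * (v t * ((2 * b + c) * cos (φ t)
              + c * cos (φ t) ^ 2 - c / 2)))))
            = Ef b c (φ t) ^ 2 * (x * (ω k - ω j₀ - 1 / 100 * (R t * (sin (Θ t k) - sin (φ t))) +
              1 / 100 * (x * (v t * ((2 * b + c) * cos (φ t) + c * cos (φ t) ^ 2 - c / 2))))) := by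
          show x * Ef b c (φ t) * ((ω k - 1 / 100 * (R t * sin (Θ t k)) -
            (ω j₀ - 1 / 100 * (R t * sin (φ t)))) * Ef b c (φ t) + _) = _
          ring
        rw [e3]
        exact mul_neg_of_pos_of_neg (by positivity) htrap
      · exfalso
        have e1 : g k t = 0 := by simp only [g, if_neg hkB, if_neg hkC]
        have e2 : M k = 1 := by simp only [M, if_neg hkB, if_neg hkC]
        rw [e1, e2] at hk
        simp at hk
  · -- conclusion
    refine ⟨fun i hi => ⟨1 / 10, fun t ht => ?_⟩, fun i hi j hj => ⟨2 * (52 / 10000), fun t ht => ?_⟩,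
      fun i hi hlim => ?_⟩
    · have := exit t ht i
      rw [gB i hi, MB i hi] at this
      exact this.le
    · have rC : ∀ j ∈ C, |Θ t j - φ t| ≤ 52 / 10000 := by
        intro j hj
        obtain ⟨E1, E2⟩ := Ef_bounds hb8 hc4 hbc (φ t)
        have Epos : 0 < Ef b c (φ t) := exp_pos _
        have := exit t ht j
        rw [gC j hj, MC j hj, abs_mul, abs_of_pos Epos] at this
        have h1 : |Θ t j - φ t| * (984 / 1000) ≤ |Θ t j - φ t| * Ef b c (φ t) :=
          mul_le_mul_of_nonneg_left E1 (abs_nonneg _)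
        linarith
      have e : Θ t i - Θ t j = (Θ t i - φ t) - (Θ t j - φ t) := by ring
      rw [e]
      refine (abs_sub _ _).trans ?_
      have h1 := rC i hi
      have h2 := rC j hj
      linarith
    · -- the phases in `C` grow linearly
      have hmono : MonotoneOn (fun t => Θ t i - 1 / 2 * t) (Set.Ici 0) := by
        have hd' : ∀ t, 0 ≤ t → HasDerivWithinAt (fun t => Θ t i - 1 / 2 * t)
            (ω i - 1 / 100 * (R t * sin (Θ t i)) - 1 / 2 * 1) (Set.Ici 0) t := fun t ht =>
          (hder i t ht).sub ((hasDerivWithinAt_id t _).const_mul (1 / 2))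
        apply monotoneOn_of_hasDerivWithinAt_nonneg (convex_Ici 0)
          (f' := fun t => ω i - 1 / 100 * (R t * sin (Θ t i)) - 1 / 2 * 1)
        · intro t ht
          exact (hd' t ht).continuousWithinAt
        · intro t ht
          rw [interior_Ici] at ht
          exact (hd' t (le_of_lt ht)).mono interior_subset
        · intro t ht
          have := hvel i hi t
          rw [abs_le] at this
          linarith [this.1]
      have hge : ∀ t, 0 ≤ t → 1 / 2 * t ≤ Θ t i := by
        intro t ht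
        have := hmono (Set.mem_Ici.mpr le_rfl) (Set.mem_Ici.mpr ht) ht
        simp only [h0, Pi.zero_apply] at this
        linarith
      have hev : ∀ᶠ t in atTop, (1 / 2 : ℝ) ≤ Θ t i / t := by
        filter_upwards [eventually_gt_atTop 0] with t ht
        rw [le_div_iff₀ ht]
        exact hge t ht.le
      have := ge_of_tendsto hlim hev
      linarith

end Pool.Agent.H63.Winfree
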